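import Mathlib
import Pool.Agent.W519.G.Main

/-!
# Abelian varieties with multiplication by a CM field whose homology has rank two over the field:
# Hodge structures, period systems, and tensor classes
-/

set_option autoImplicit false

namespace Pool.Agent.W519.Q

open NumberField Pool.Agent.H204R3.CM Pool.Agent.W547.KB Pool.Agent.W537.PC Matrix

/-- a matrix of algebraic numbers -/
def AlgM (M : Matrix (Fin 2) (Fin 2) ℂ) : Prop := ∀ i j, IsAlgebraic ℚ (M i j)

/-- a vector of algebraic numbers -/
def AlgV (v : Fin 2 → ℂ) : Prop := ∀ i, IsAlgebraic ℚ (v i)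

variable (L : Type) [Field L]

/-- Let `V = L ^ 2` be a rational Hodge structure of weight `-1` with multiplication by the CM field
`L`. The complexification of `V` is the direct sum, over the complex embeddings `φ` of `L`, of the
spaces `V ⊗_φ ℂ = ℂ ^ 2`, and `D φ` is the endomorphism of this space which is `1` on the part of
type `(-1, 0)` and `-1` on the part of type `(0, -1)`.

The matrix `S` over `L` is a *polarization*: the form `(x, y) ↦ xᵀ S y'`, where `y'` is the complex
conjugate of `y`, is skew hermitian, so that its trace to `ℚ` is a symplectic form, and this is a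
polarization of the Hodge structure. -/
def IsPol (D : (L →+* ℂ) → Matrix (Fin 2) (Fin 2) ℂ) (S : Matrix (Fin 2) (Fin 2) L) : Prop :=
  (∀ φ : L →+* ℂ, (S.map φ)ᵀ = - S.map (ComplexEmbedding.conjugate φ)) ∧
  (∀ φ : L →+* ℂ, (D φ)ᵀ * S.map φ = - (S.map φ * D (ComplexEmbedding.conjugate φ))) ∧
  ∀ (φ : L →+* ℂ) (x : Fin 2 → ℂ), x ≠ 0 →
    0 < (- Complex.I * (x ⬝ᵥ (S.map φ *ᵥ star (D φ *ᵥ x)))).re

/-- A complex abelian variety `A` (up to isogeny) with multiplication by the CM field `L`, such that
`H_1(A, ℚ) = L ^ 2`: a polarizable rational Hodge structure of weight `-1` on `L ^ 2`, in which `L`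
acts by endomorphisms of the Hodge structure. It is given by the endomorphisms `D φ`. -/
structure HS where
  /-- the endomorphism which is `1` on the part of type `(-1, 0)` and `-1` on the part of type
  `(0, -1)` -/
  D : (L →+* ℂ) → Matrix (Fin 2) (Fin 2) ℂ
  sq : ∀ φ, D φ * D φ = 1
  conj : ∀ φ, D (ComplexEmbedding.conjugate φ) = - (D φ).map (starRingEnd ℂ)
  pol : ∃ S, IsPol L D S

variable {L}

/-- The `L`-linear homomorphisms of abelian varieties up to isogeny: the matrices over `L` which
respect the Hodge structures. -/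
def IsHom (A B : HS L) (T : Matrix (Fin 2) (Fin 2) L) : Prop :=
  ∀ φ : L →+* ℂ, B.D φ * T.map φ = T.map φ * A.D φ

/-- The only `L`-linear endomorphisms of `A` are the elements of `L`. -/
def HS.IsSimple (A : HS L) : Prop :=
  ∀ T : Matrix (Fin 2) (Fin 2) L, IsHom A A T → ∃ x : L, T = Matrix.scalar (Fin 2) x

/-- `A` is isogenous to the square of an abelian variety with complex multiplication by `L`. -/
def HS.IsSquare (A : HS L) : Prop := ∀ φ : L →+* ℂ, A.D φ = 1 ∨ A.D φ = -1

variable (L) [NumberField L] [IsCMField L]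

/-- A rank two period system over `L`: the data of the following kind, with the formal properties
which are listed as fields. `IsAV A` means that `A` is (isogenous to) an abelian variety over the
field `ℚ̄` of algebraic numbers. For every complex embedding `φ` of `L` the `φ`-part of
`H^1_dR(A / ℚ̄)` has dimension two, and `per A φ` is the matrix of the integrals of a basis of it:
the integrals of the two elements of the basis over the element `x` of the homology `L ^ 2` are the
components of the vector `per A φ * φ(x)`. `cm` contains the corresponding numbers for abelian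
varieties of CM type.

The periods of the abelian varieties over `ℚ̄` have these properties: polarizations are classes of
divisors (`pol`); isomorphisms of Hodge structures in the tensor category generated by abelian
varieties over `ℚ̄` respect the periods up to algebraic factors, by Deligne's theorem (`det_rel`,
`twist`, `square`, `gal`); and a complex abelian variety whose Hodge structure belongs to this
tensor category can be defined over `ℚ̄` (`twist`, `cm_av`). -/
structure PeriodSystem where
  /-- the periods of the abelian varieties of CM type -/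
  cm : Pool.Agent.W519.G.Periods
  /-- the abelian varieties which can be defined over the field of algebraic numbers -/
  IsAV : HS L → Prop
  /-- the period matrices -/
  per : HS L → (L →+* ℂ) → Matrix (Fin 2) (Fin 2) ℂ
  det_ne : ∀ A, IsAV A → ∀ φ, (per A φ).det ≠ 0
  /-- polarizations are classes of divisors -/
  pol : ∀ A, IsAV A → ∀ S, IsPol L A.D S → ∀ φ, ∃ M, AlgM M ∧
    (per A φ)ᵀ * M * per A (ComplexEmbedding.conjugate φ) = (2 * Real.pi * Complex.I) • S.map φ
  /-- the determinants: if the exterior square of `H^1(A)` over `L` has the Hodge type of the tensor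
  product over `L` of the abelian varieties with complex multiplication of types `Φ` and `Ψ`, it has
  the same periods -/
  det_rel : ∀ A, IsAV A → ∀ (Φ Ψ : Set (L →+* ℂ)) (hΦ : IsCMType Φ) (hΨ : IsCMType Ψ),
    (∀ χ, (χ ∈ Φ → χ ∈ Ψ → A.D χ = 1) ∧ (χ ∉ Φ → χ ∉ Ψ → A.D χ = -1) ∧
      ((χ ∈ Φ ↔ χ ∉ Ψ) → (A.D χ).trace = 0)) →
    ∀ χ, IsAlgebraic ℚ ((per A χ).det / (cm.per ⟨L, Φ, hΦ⟩ χ * cm.per ⟨L, Ψ, hΨ⟩ χ))
  /-- the twist of `A` by the quotient of two CM types, `H_1(A) ⊗ H_1(A_Φ) ⊗ H_1(A_Ψ)^∨` over `L` -/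
  twist : ∀ A, IsAV A → ∀ (Φ Ψ : Set (L →+* ℂ)) (hΦ : IsCMType Φ) (hΨ : IsCMType Ψ),
    (∀ χ, (χ ∈ Φ → χ ∉ Ψ → A.D χ = -1) ∧ (χ ∉ Φ → χ ∈ Ψ → A.D χ = 1)) →
    ∃ A', IsAV A' ∧ (∀ χ, (χ ∈ Φ → χ ∉ Ψ → A'.D χ = 1) ∧ (χ ∉ Φ → χ ∈ Ψ → A'.D χ = -1) ∧
      ((χ ∈ Φ ↔ χ ∈ Ψ) → A'.D χ = A.D χ)) ∧
      ∀ χ, ∃ M, AlgM M ∧ per A' χ =
        (cm.per ⟨L, Φ, hΦ⟩ χ / cm.per ⟨L, Ψ, hΨ⟩ χ) • (M * per A χ)
  /-- the squares of abelian varieties of CM type -/
  square : ∀ A, IsAV A → ∀ (Φ : Set (L →+* ℂ)) (hΦ : IsCMType Φ),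
    (∀ χ, (χ ∈ Φ → A.D χ = 1) ∧ (χ ∉ Φ → A.D χ = -1)) →
    ∀ χ, ∃ M, AlgM M ∧ per A χ = cm.per ⟨L, Φ, hΦ⟩ χ • M
  /-- the same abelian variety, with the action of `L` changed by an automorphism of `L` -/
  gal : ∀ A, IsAV A → ∀ γ : L ≃ₐ[ℚ] L, ∃ A', IsAV A' ∧
    (∀ χ : L →+* ℂ, A'.D χ = A.D (χ.comp (γ : L →+* L))) ∧
      ∀ χ : L →+* ℂ, ∃ M, AlgM M ∧ per A' χ = M * per A (χ.comp (γ : L →+* L))
  /-- abelian varieties of CM type can be defined over the field of algebraic numbers -/
  cm_av : ∀ A : HS L, A.IsSquare → IsAV A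

variable {L} {I : Type} [Fintype I] {κ : Type} [Fintype κ] [DecidableEq κ]

/-- Let `X` be the product of the abelian varieties `A i`, so that `H_1(X, ℚ) = I → L ^ 2`. The
rational multilinear form `f` in variables indexed by `κ` is an element of the tensor power
`H^1(X, ℚ)^{⊗ κ}`. It gives a *de Rham-Betti class* of the Tate twist by `w` if `(2 π i) ^ w f` is a
linear combination with algebraic coefficients of products of the eigenforms
`x ↦ (per (A i) φ * φ (x i)) a`. -/
def IsDRB (P : PeriodSystem L) (A : I → HS L) (w : ℤ)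
    (f : MultilinearMap ℚ (fun _ : κ => I → Fin 2 → L) ℚ) : Prop :=
  ∃ c : (κ → I × (L →+* ℂ) × Fin 2) → ℂ, (∀ J, IsAlgebraic ℚ (c J)) ∧
    ∀ v : κ → I → Fin 2 → L, (2 * Real.pi * Complex.I) ^ w * ((f v : ℚ) : ℂ) =
      ∑ J, c J * ∏ k, (P.per (A (J k).1) (J k).2.1 *ᵥ fun b => (J k).2.1 (v k (J k).1 b)) (J k).2.2

/-- The element `f` of the tensor power `H^1(X, ℚ)^{⊗ κ}` is a *Hodge class* of its Tate twist by
`w`: its complex multilinear extension `F` to `H_1(X, ℂ)` is of type `(w, w)`, that is, it vanishes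
on vectors `z k` of types `(-1, 0)` (where `ε k = 1`) or `(0, -1)` (where `ε k = -1`), unless both
types occur exactly `w` times. -/
def IsHodge (A : I → HS L) (w : ℤ) (f : MultilinearMap ℚ (fun _ : κ => I → Fin 2 → L) ℚ) : Prop :=
  ∃ F : MultilinearMap ℂ (fun _ : κ => I → (L →+* ℂ) → Fin 2 → ℂ) ℂ,
    (∀ v : κ → I → Fin 2 → L, F (fun k i φ a => φ (v k i a)) = f v) ∧
    ∀ (ε : κ → ℤ) (z : κ → I → (L →+* ℂ) → Fin 2 → ℂ), (∀ k, ε k = 1 ∨ ε k = -1) →
      (∀ k i φ, (A i).D φ *ᵥ z k i φ = (ε k : ℂ) • z k i φ) → F z ≠ 0 →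
        (Finset.card {k | ε k = 1} : ℤ) = w ∧ (Finset.card {k | ε k = -1} : ℤ) = w

/-- The homology of `A`, as a de Rham-Betti object with multiplication by `L`, is semisimple: if
the `L`-subspace generated by `x` is a de Rham-Betti subobject (at every embedding, it generates a
line defined over `ℚ̄` in the de Rham homology), then it has a complement that is a de Rham-Betti
subobject. -/
def SemisimpleAt (P : PeriodSystem L) (A : HS L) : Prop :=
  ∀ x : Fin 2 → L, x ≠ 0 →
    (∀ χ : L →+* ℂ, ∃ (c : ℂ) (u : Fin 2 → ℂ), AlgV u ∧ (P.per A χ *ᵥ fun a => χ (x a)) = c • u) →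
    ∃ x' : Fin 2 → L, LinearIndependent L ![x, x'] ∧
      ∀ χ : L →+* ℂ, ∃ (c : ℂ) (u : Fin 2 → ℂ), AlgV u ∧ (P.per A χ *ᵥ fun a => χ (x' a)) = c • u

/-- the abelian varieties under consideration: defined over the field of algebraic numbers, and
simple over `L`, or isogenous to the square of an abelian variety of CM type -/
def Good (P : PeriodSystem L) (A : HS L) : Prop := P.IsAV A ∧ (A.IsSimple ∨ A.IsSquare)

/-- the homology of the simple abelian varieties is semisimple -/
def Semisimple (P : PeriodSystem L) : Prop := ∀ A : HS L, P.IsAV A → A.IsSimple → SemisimpleAt P A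

/-- the de Rham-Betti classes of degree two are Hodge classes -/
def DegreeTwo (P : PeriodSystem L) : Prop :=
  ∀ A B : HS L, Good P A → Good P B → ∀ f : MultilinearMap ℚ (fun _ : Fin 2 => Fin 2 → Fin 2 → L) ℚ,
    IsDRB P ![A, B] 1 f → IsHodge ![A, B] 1 f

/-- the de Rham-Betti classes of all tensor powers of all products are Hodge classes -/
def AllDegrees (P : PeriodSystem L) : Prop :=
  ∀ (I : Type) [Fintype I] (A : I → HS L), (∀ i, Good P (A i)) → ∀ (n : ℕ) (w : ℤ)
    (f : MultilinearMap ℚ (fun _ : Fin n => I → Fin 2 → L) ℚ), IsDRB P A w f → IsHodge A w f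

end Pool.Agent.W519.Q
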