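import Mathlib

/-!
# The action of the Lie algebra on multilinear forms
-/

set_option autoImplicit false
set_option linter.unusedSectionVars false

namespace Pool.Agent.W519.Q

noncomputable section

variable {Ω : Type*} [Field Ω] {V : Type*} [AddCommGroup V] [Module Ω V]
  {κ : Type*} [Fintype κ] [DecidableEq κ]

/-- the endomorphism `X` acts on the form `φ` by the scalar `y` -/
def Acts (X : Module.End Ω V) (y : Ω) (φ : MultilinearMap Ω (fun _ : κ => V) Ω) : Prop :=
  ∀ v : κ → V, ∑ k, φ (Function.update v k (X (v k))) = y * φ v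

theorem acts_add {X Y : Module.End Ω V} {x y : Ω} {φ : MultilinearMap Ω (fun _ : κ => V) Ω}
    (hX : Acts X x φ) (hY : Acts Y y φ) : Acts (X + Y) (x + y) φ := by
  intro v
  rw [add_mul, ← hX v, ← hY v, ← Finset.sum_add_distrib]
  refine Finset.sum_congr rfl fun k _ => ?_
  rw [LinearMap.add_apply, MultilinearMap.map_update_add]

theorem acts_smul (c : Ω) {X : Module.End Ω V} {x : Ω} {φ : MultilinearMap Ω (fun _ : κ => V) Ω}
    (hX : Acts X x φ) : Acts (c • X) (c * x) φ := by
  intro v
  rw [mul_assoc, ← hX v, Finset.mul_sum]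
  refine Finset.sum_congr rfl fun k _ => ?_
  rw [LinearMap.smul_apply, MultilinearMap.map_update_smul, smul_eq_mul]

theorem acts_zero (φ : MultilinearMap Ω (fun _ : κ => V) Ω) : Acts 0 0 φ := by
  intro v
  rw [zero_mul]
  refine Finset.sum_eq_zero fun k _ => ?_
  rw [LinearMap.zero_apply]
  exact φ.map_coord_zero k (Function.update_self _ _ _)

theorem acts_bracket {X Y : Module.End Ω V} {x y : Ω}
    {φ : MultilinearMap Ω (fun _ : κ => V) Ω} (hX : Acts X x φ) (hY : Acts Y y φ) :
    Acts (X * Y - Y * X) 0 φ := by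
  intro v
  -- the double sums
  have key : ∀ (A B : Module.End Ω V) (a b : Ω), Acts A a φ → Acts B b φ →
      ∑ j, φ (Function.update v j (B (A (v j)))) = b * (a * φ v)
        -∑ j, ∑ k ∈ Finset.univ.erase j,
          φ (Function.update (Function.update v j (A (v j))) k (B (v k))) := by
    intro A B a b hA hB
    rw [← hA v, Finset.mul_sum, ← Finset.sum_sub_distrib]
    refine Finset.sum_congr rfl fun j _ => ?_
    have h1 := hB (Function.update v j (A (v j)))
    rw [← Finset.add_sum_erase _ _ (Finset.mem_univ j), Function.update_self,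
      Function.update_idem] at h1
    rw [eq_sub_iff_add_eq, ← h1]
    congr 1
    refine Finset.sum_congr rfl fun k hk => ?_
    rw [Function.update_of_ne (Finset.ne_of_mem_erase hk)]
  have h1 : ∀ k, φ (Function.update v k ((X * Y - Y * X) (v k))) =
      φ (Function.update v k (X (Y (v k)))) - φ (Function.update v k (Y (X (v k)))) := by
    intro k
    rw [LinearMap.sub_apply, MultilinearMap.map_update_sub]
    rfl
  rw [Finset.sum_congr rfl (fun k _ => h1 k), Finset.sum_sub_distrib, key Y X y x hY hX,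
    key X Y x y hX hY]
  have h2 : ∑ j, ∑ k ∈ Finset.univ.erase j,
      φ (Function.update (Function.update v j (Y (v j))) k (X (v k))) =
      ∑ j, ∑ k ∈ Finset.univ.erase j,
      φ (Function.update (Function.update v j (X (v j))) k (Y (v k))) := by
    have h3 : ∀ (A B : Module.End Ω V), ∑ j, ∑ k ∈ Finset.univ.erase j,
        φ (Function.update (Function.update v j (A (v j))) k (B (v k))) =
        ∑ j, ∑ k, if k ≠ j then
          φ (Function.update (Function.update v j (A (v j))) k (B (v k))) else 0 := by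
      intro A B
      refine Finset.sum_congr rfl fun j _ => ?_
      rw [← Finset.sum_filter]
      refine Finset.sum_congr ?_ fun _ _ => rfl
      ext k
      simp
    rw [h3, h3, Finset.sum_comm]
    refine Finset.sum_congr rfl fun j _ => Finset.sum_congr rfl fun k _ => ?_
    by_cases h : k = j
    · subst h
      simp
    · rw [if_pos (Ne.symm h), if_pos h, Function.update_comm (Ne.symm h)]
  rw [h2]
  ring

variable {S : Type*} [Fintype S] [DecidableEq S]

/-- the multilinear form with coefficients `b` -/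
def Fm (b : (κ → S × Fin 2) → Ω) : MultilinearMap Ω (fun _ : κ => S → Fin 2 → Ω) Ω :=
  ∑ J : κ → S × Fin 2, b J • (MultilinearMap.mkPiAlgebra Ω κ Ω).compLinearMap
    (fun l => (LinearMap.proj (R := Ω) (φ := fun _ : Fin 2 => Ω) (J l).2).comp
      (LinearMap.proj (R := Ω) (φ := fun _ : S => Fin 2 → Ω) (J l).1))

theorem Fm_apply (b : (κ → S × Fin 2) → Ω) (z : κ → S → Fin 2 → Ω) :
    Fm b z = ∑ J : κ → S × Fin 2, b J * ∏ l, z l (J l).1 (J l).2 := by
  unfold Fm
  simp only [MultilinearMap.coe_sum, Finset.sum_apply, MultilinearMap.coe_smul, Pi.smul_apply,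
    MultilinearMap.compLinearMap_apply, MultilinearMap.mkPiAlgebra_apply, LinearMap.comp_apply,
    LinearMap.proj_apply, smul_eq_mul]

/-- basis vectors -/
def eb (x : S × Fin 2) : S → Fin 2 → Ω := Pi.single x.1 (Pi.single x.2 1)

lemma eb_apply (x : S × Fin 2) (s : S) (a : Fin 2) :
    (eb x : S → Fin 2 → Ω) s a = if (s, a) = x then 1 else 0 := by
  obtain ⟨t, c⟩ := x
  by_cases h : s = t
  · subst h
    by_cases h2 : a = c
    · subst h2
      simp [eb]
    · simp [eb, h2]
  · have : (s, a) ≠ (t, c) := fun h3 => h (Prod.mk.inj h3).1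
    simp [eb, h]

theorem Fm_eb (b : (κ → S × Fin 2) → Ω) (J : κ → S × Fin 2) :
    Fm b (fun k => (eb (J k) : S → Fin 2 → Ω)) = b J := by
  rw [Fm_apply, Finset.sum_eq_single J]
  · simp [eb_apply]
  · intro J' _ h
    obtain ⟨l, hl⟩ := Function.ne_iff.1 h
    rw [Finset.prod_eq_zero (Finset.mem_univ l), mul_zero]
    rw [eb_apply, if_neg]
    exact hl
  · intro h
    exact absurd (Finset.mem_univ _) h

/-- two multilinear forms that agree on the basis vectors are equal -/
theorem ext_eb {φ ψ : MultilinearMap Ω (fun _ : κ => S → Fin 2 → Ω) Ω}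
    (h : ∀ J : κ → S × Fin 2, φ (fun k => eb (J k)) = ψ (fun k => eb (J k))) : φ = ψ := by
  have hexp : ∀ z : S → Fin 2 → Ω, z = ∑ x : S × Fin 2, z x.1 x.2 • (eb x : S → Fin 2 → Ω) := by
    intro z
    funext s a
    rw [Finset.sum_apply, Finset.sum_apply, Finset.sum_eq_single (s, a)]
    · simp [eb_apply]
    · intro x _ hx
      simp [eb_apply, Ne.symm hx]
    · intro h
      exact absurd (Finset.mem_univ _) h
  refine MultilinearMap.ext fun z => ?_
  have hz : z = fun k => ∑ x : S × Fin 2, z k x.1 x.2 • (eb x : S → Fin 2 → Ω) := by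
    funext k
    exact hexp (z k)
  rw [hz, MultilinearMap.map_sum, MultilinearMap.map_sum]
  refine Finset.sum_congr rfl fun J _ => ?_
  rw [MultilinearMap.map_smul_univ, MultilinearMap.map_smul_univ, h J]

/-- the operator given by a family of matrices -/
def op (Y : S → Matrix (Fin 2) (Fin 2) Ω) : Module.End Ω (S → Fin 2 → Ω) where
  toFun z := fun s => (Y s).mulVec (z s)
  map_add' z z' := by
    funext s
    simp only [Pi.add_apply, Matrix.mulVec_add]
  map_smul' c z := by
    funext s
    simp only [Pi.smul_apply, Matrix.mulVec_smul, RingHom.id_apply]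

lemma op_apply (Y : S → Matrix (Fin 2) (Fin 2) Ω) (z : S → Fin 2 → Ω) (s : S) :
    op Y z s = (Y s).mulVec (z s) := rfl

lemma op_eb (Y : S → Matrix (Fin 2) (Fin 2) Ω) (x : S × Fin 2) :
    op Y (eb x) = ∑ c, Y x.1 c x.2 • (eb (x.1, c) : S → Fin 2 → Ω) := by
  funext s a
  rw [op_apply, Finset.sum_apply, Finset.sum_apply, Matrix.mulVec, dotProduct]
  simp only [eb_apply, Pi.smul_apply, smul_eq_mul, Fin.sum_univ_two]
  obtain ⟨t, c⟩ := x
  by_cases h : s = t
  · subst h
    fin_cases a <;> fin_cases c <;> simp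
  · simp [h]

/-- the derivative of a form, as a form -/
def der (X : Module.End Ω V) (φ : MultilinearMap Ω (fun _ : κ => V) Ω) :
    MultilinearMap Ω (fun _ : κ => V) Ω :=
  ∑ k : κ, φ.compLinearMap (fun l => if l = k then X else LinearMap.id)

lemma der_apply (X : Module.End Ω V) (φ : MultilinearMap Ω (fun _ : κ => V) Ω) (v : κ → V) :
    der X φ v = ∑ k, φ (Function.update v k (X (v k))) := by
  unfold der
  rw [MultilinearMap.coe_sum, Finset.sum_apply]
  refine Finset.sum_congr rfl fun k _ => ?_
  rw [MultilinearMap.compLinearMap_apply]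
  congr 1
  funext l
  by_cases h : l = k
  · subst h
    simp
  · simp [h]

/-- the action in coordinates -/
def ActC (Y : S → Matrix (Fin 2) (Fin 2) Ω) (y : Ω) (b : (κ → S × Fin 2) → Ω) : Prop :=
  ∀ J : κ → S × Fin 2, ∑ k, ∑ c, b (Function.update J k ((J k).1, c)) * Y (J k).1 c (J k).2 = y * b J

theorem acts_iff (Y : S → Matrix (Fin 2) (Fin 2) Ω) (y : Ω) (b : (κ → S × Fin 2) → Ω) :
    Acts (op Y) y (Fm b) ↔ ActC Y y b := by
  have key : ∀ J : κ → S × Fin 2,
      ∑ k, Fm b (Function.update (fun k => (eb (J k) : S → Fin 2 → Ω)) k (op Y (eb (J k)))) =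
      ∑ k, ∑ c, b (Function.update J k ((J k).1, c)) * Y (J k).1 c (J k).2 := by
    intro J
    refine Finset.sum_congr rfl fun k _ => ?_
    rw [op_eb, MultilinearMap.map_update_sum]
    refine Finset.sum_congr rfl fun c _ => ?_
    rw [MultilinearMap.map_update_smul, smul_eq_mul, mul_comm]
    congr 1
    rw [← Fm_eb b (Function.update J k ((J k).1, c))]
    congr 1
    funext l
    by_cases h : l = k
    · subst h
      simp
    · simp [h]
  constructor
  · intro h J
    rw [← key J, h, Fm_eb]
  · intro h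
    have h1 : der (op Y) (Fm b) = y • Fm b := by
      refine ext_eb fun J => ?_
      rw [der_apply, MultilinearMap.smul_apply, Fm_eb, smul_eq_mul, ← h J, ← key J]
    intro v
    have h2 := DFunLike.congr_fun h1 v
    rw [der_apply, MultilinearMap.smul_apply, smul_eq_mul] at h2
    exact h2

lemma op_mul (Y Z : S → Matrix (Fin 2) (Fin 2) Ω) :
    op Y * op Z = op (fun s => Y s * Z s) := by
  ext z s a
  simp only [Module.End.mul_apply, LinearMap.comp_apply, op_apply, Matrix.mulVec_mulVec]

lemma op_sub (Y Z : S → Matrix (Fin 2) (Fin 2) Ω) :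
    op Y - op Z = op (fun s => Y s - Z s) := by
  ext z s a
  simp only [LinearMap.sub_apply, LinearMap.comp_apply, op_apply, Matrix.sub_mulVec, Pi.sub_apply]

theorem actC_bracket {Y Z : S → Matrix (Fin 2) (Fin 2) Ω} {y z : Ω} {b : (κ → S × Fin 2) → Ω}
    (hY : ActC Y y b) (hZ : ActC Z z b) : ActC (fun s => Y s * Z s - Z s * Y s) 0 b := by
  rw [← acts_iff] at *
  have h := acts_bracket hY hZ
  rwa [op_mul, op_mul, op_sub] at h

theorem actC_add {Y Z : S → Matrix (Fin 2) (Fin 2) Ω} {y z : Ω} {b : (κ → S × Fin 2) → Ω}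
    (hY : ActC Y y b) (hZ : ActC Z z b) : ActC (Y + Z) (y + z) b := by
  intro J
  rw [add_mul, ← hY J, ← hZ J, ← Finset.sum_add_distrib]
  refine Finset.sum_congr rfl fun k _ => ?_
  rw [← Finset.sum_add_distrib]
  refine Finset.sum_congr rfl fun c _ => ?_
  rw [Pi.add_apply, Matrix.add_apply, mul_add]

theorem actC_smul (r : Ω) {Y : S → Matrix (Fin 2) (Fin 2) Ω} {y : Ω} {b : (κ → S × Fin 2) → Ω}
    (hY : ActC Y y b) : ActC (r • Y) (r * y) b := by
  intro J
  rw [mul_assoc, ← hY J, Finset.mul_sum]
  refine Finset.sum_congr rfl fun k _ => ?_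
  rw [Finset.mul_sum]
  refine Finset.sum_congr rfl fun c _ => ?_
  rw [Pi.smul_apply, Matrix.smul_apply, smul_eq_mul]
  ring

theorem actC_zero (b : (κ → S × Fin 2) → Ω) : ActC (0 : S → Matrix (Fin 2) (Fin 2) Ω) 0 b := by
  intro J
  simp

end

end Pool.Agent.W519.Q
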