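import Pool.Agent.W519.Q.Rel

/-!
# The determinants of the period matrices
-/

set_option autoImplicit false
set_option linter.unusedSectionVars false

namespace Pool.Agent.W519.Q

open NumberField Pool.Agent.H204R3.CM Pool.Agent.W547.KB Pool.Agent.W537.PC Matrix
open Pool.Agent.W519.G (cl cl_mul cl_div cl_eq_zero cl_pow cl_zpow cl_prod tp eq_of_smul
  eq_zero_of_smul smul_tp_eq_zero rel_int ind Quo Periods.c cj)

noncomputable section

/-- logarithmic derivatives -/
def lg (D : Dv) (x : ℂ) : ℂ := D x / x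

lemma lg_mul (D : Dv) {x y : ℂ} (hx : x ≠ 0) (hy : y ≠ 0) : lg D (x * y) = lg D x + lg D y := by
  rw [lg, lg, lg, dv_mul]
  field_simp
  ring

lemma lg_prod (D : Dv) {κ : Type} [DecidableEq κ] (s : Finset κ) (g : κ → ℂ) (h : ∀ k, g k ≠ 0) :
    lg D (∏ k ∈ s, g k) = ∑ k ∈ s, lg D (g k) := by
  induction s using Finset.induction_on with
  | empty =>
    rw [Finset.prod_empty, Finset.sum_empty, lg, D.map_one_eq_zero, zero_div]
  | insert a s ha ih =>
    rw [Finset.prod_insert ha, Finset.sum_insert ha, lg_mul D (h a)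
      (Finset.prod_ne_zero_iff.2 fun i _ => h i), ih]

lemma lg_zpow (D : Dv) {x : ℂ} (hx : x ≠ 0) (w : ℤ) : lg D (x ^ w) = w * lg D x := by
  rw [lg, dv_zpow D x hx, lg]
  have : x ^ w ≠ 0 := zpow_ne_zero _ hx
  field_simp

/-- numbers with the same logarithmic derivatives have the same class -/
lemma cl_eq_of_lg {x y : ℂ} (hx : x ≠ 0) (hy : y ≠ 0) (h : ∀ D : Dv, lg D x = lg D y) :
    cl x = cl y := by
  rw [← sub_eq_zero, ← cl_div hx hy, cl_eq_zero (div_ne_zero hx hy)]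
  apply alg_of_dv
  intro D
  rw [dv_div D hy]
  have h1 := h D
  rw [lg, lg, div_eq_div_iff hx hy] at h1
  rw [h1, mul_comm x, sub_self, zero_div]

lemma tau_cl : cl tau = tp := rfl

variable {L : Type} [Field L] [NumberField L] [IsCMField L]
variable {I : Type} [Fintype I] {κ : Type} [Fintype κ] [DecidableEq κ]
variable {P : PeriodSystem L} {A : I → HS L} {Sp : I → Matrix (Fin 2) (Fin 2) L} {w : ℤ}
  {b : (κ → Sl I L × Fin 2) → ℂ}

/-- the logarithmic derivative of the determinant -/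
lemma lg_det (hA : ∀ i, P.IsAV (A i)) (D : Dv) (s : Sl I L) :
    lg D (pm P A s).det = (ld P A D s).trace := by
  have hd : (pm P A s).det ≠ 0 := P.det_ne _ (hA s.1) s.2
  have h1 := pm_mul_ld hA D s
  rw [lg, div_eq_iff hd, Matrix.det_fin_two, map_sub, dv_mul, dv_mul]
  have e : ∀ i j, D (pm P A s i j) = (pm P A s * ld P A D s) i j := by
    intro i j
    rw [h1]
    rfl
  rw [e, e, e, e]
  simp only [Matrix.mul_apply, Fin.sum_univ_two, Matrix.trace_fin_two]
  ring

variable [IsGalois ℚ L]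

/-- the product of the determinants -/
theorem det_class (hsub : Subdirect (sL A Sp w b) (fun s => ¬ (A s.1).IsSquare))
    (hb : ∀ J, IsAlgebraic ℚ (b J)) (hA : ∀ i, P.IsAV (A i))
    (hld : ∀ D : Dv, HH A Sp w b (ld P A D) (D tau / tau))
    (J : κ → Sl I L × Fin 2) (hJ : b J ≠ 0) :
    ∑ k, cl (pm P A (J k).1).det = (2 * w) • tp := by
  have hd : ∀ k, (pm P A (J k).1).det ≠ 0 := fun k => P.det_ne _ (hA _) _
  rw [← cl_prod Finset.univ (fun k => (pm P A (J k).1).det) (fun k _ => hd k), ← tau_cl,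
    ← cl_zpow tau_ne]
  refine cl_eq_of_lg (Finset.prod_ne_zero_iff.2 fun k _ => hd k) (zpow_ne_zero _ tau_ne) fun D => ?_
  rw [lg_prod D _ _ hd, lg_zpow D tau_ne]
  have h1 := (hld D).traces hsub hb J hJ
  rw [← Finset.sum_congr rfl (fun k _ => lg_det hA D (J k).1)] at h1
  rw [h1, lg]
  push_cast
  ring

/-- The relation between the period matrices. -/
theorem IC.periods (hsub : Subdirect (sL A Sp w b) (fun s => ¬ (A s.1).IsSquare))
    (hA : ∀ i, P.IsAV (A i)) (hld : ∀ D : Dv, HH A Sp w b (ld P A D) (D tau / tau))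
    {s t : Sl I L} (hs : ¬ (A s.1).IsSquare) {N : M2 ℂ} (hN : IC A Sp w b s t N) :
    ∃ (c : ℂ) (M : M2 ℂ), c ≠ 0 ∧ AlgM M ∧ M.det ≠ 0 ∧ pm P A t * N = c • (M * pm P A s) ∧
      (2 : ℤ) • cl c = cl (pm P A t).det - cl (pm P A s).det := by
  have hds : (pm P A s).det ≠ 0 := P.det_ne _ (hA _) _
  have hdt : (pm P A t).det ≠ 0 := P.det_ne _ (hA _) _
  have hu : IsUnit (pm P A s).det := isUnit_iff_ne_zero.2 hds
  obtain ⟨Q, hQP⟩ : ∃ Q : M2 ℂ, Q * pm P A s = pm P A t * N := by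
    refine ⟨pm P A t * N * (pm P A s)⁻¹, ?_⟩
    rw [Matrix.mul_assoc, Matrix.nonsing_inv_mul _ hu, Matrix.mul_one]
  have hQd : Q.det * (pm P A s).det = (pm P A t).det * N.det := by
    rw [← Matrix.det_mul, hQP, Matrix.det_mul]
  have hQ0 : Q.det ≠ 0 := by
    intro h0
    rw [h0, zero_mul] at hQd
    exact mul_ne_zero hdt hN.det hQd.symm
  -- derivatives
  have h1 : ∀ D : Dv, ∃ μ : ℂ, dM D Q = μ • Q := by
    intro D
    obtain ⟨r, hr⟩ := hN.scalar hsub hs (hld D)
    refine ⟨r, ?_⟩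
    have h2 := congrArg (dM D) hQP
    rw [dM_mul, dM_mul, dM_alg D hN.alg, Matrix.mul_zero, zero_add, ← pm_mul_ld hA D s,
      ← pm_mul_ld hA D t, Matrix.mul_assoc _ _ N, hr, ← Matrix.mul_assoc, ← Matrix.mul_assoc, hQP,
      Matrix.mul_add, Matrix.mul_smul, Matrix.mul_one] at h2
    have h3 : dM D Q * pm P A s = (r • Q) * pm P A s := by
      rw [Matrix.smul_mul, hQP]
      exact add_left_cancel h2
    have h4 := congrArg (fun X => X * (pm P A s)⁻¹) h3
    simp only [Matrix.mul_assoc, Matrix.mul_nonsing_inv _ hu, Matrix.mul_one] at h4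
    exact h4
  obtain ⟨c, u, hc, hu1, hcu⟩ := prop_alg (fun x : Fin 2 × Fin 2 => Q x.1 x.2) (by
    intro h0
    apply hQ0
    have : Q = 0 := by
      ext i j
      exact congrFun h0 (i, j)
    rw [this, Matrix.det_fin_two]
    simp) (fun D => by
      obtain ⟨μ, hμ⟩ := h1 D
      refine ⟨μ, fun x => ?_⟩
      exact congrFun (congrFun hμ x.1) x.2)
  let M : M2 ℂ := Matrix.of fun i j => u (i, j)
  have hQM : Q = c • M := by
    ext i j
    exact congrFun hcu (i, j)
  have hMa : AlgM M := fun i j => hu1 (i, j)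
  have hQc : Q.det = c ^ 2 * M.det := by
    rw [hQM, Matrix.det_smul, Fintype.card_fin]
  have hM0 : M.det ≠ 0 := by
    intro h0
    rw [hQc, h0, mul_zero] at hQ0
    exact hQ0 rfl
  have alg_det : ∀ {X : M2 ℂ}, AlgM X → IsAlgebraic ℚ X.det := by
    intro X hX
    rw [Matrix.det_fin_two]
    exact ((hX 0 0).mul (hX 1 1)).sub ((hX 0 1).mul (hX 1 0))
  refine ⟨c, M, hc, hMa, hM0, ?_, ?_⟩
  · rw [← hQP, hQM, Matrix.smul_mul]
  · rw [hQc] at hQd
    have h2 := congrArg cl hQd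
    rw [cl_mul (mul_ne_zero (pow_ne_zero _ hc) hM0) hds, cl_mul (pow_ne_zero _ hc) hM0,
      cl_mul hdt hN.det, (cl_eq_zero hM0).2 (alg_det hMa), (cl_eq_zero hN.det).2 (alg_det hN.alg),
      add_zero, add_zero, cl_pow hc] at h2
    rw [← h2]
    have : ((2 : ℤ) • cl c) = (2 : ℕ) • cl c := by
      rw [← natCast_zsmul]; rfl
    rw [this]
    abel

end

end Pool.Agent.W519.Q
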