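import Pool.Agent.W519.Q.Twi

/-!
# Squares of abelian varieties of CM type
-/

set_option autoImplicit false
set_option linter.unusedSectionVars false

namespace Pool.Agent.W519.Q

open NumberField Pool.Agent.H204R3.CM Pool.Agent.W547.KB Pool.Agent.W537.PC Matrix

noncomputable section

variable {L : Type} [Field L] [NumberField L] [IsCMField L]

lemma exists_anti [IsGalois ℚ L] : ∃ η : L, cc L η = - η ∧ η ≠ 0 := by
  obtain ⟨φ⟩ : Nonempty (L →+* ℂ) := inferInstance
  obtain ⟨x, hx⟩ : ∃ x : L, ComplexEmbedding.conjugate φ x ≠ φ x := by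
    by_contra hcon
    push Not at hcon
    exact conj_ne φ (RingHom.ext hcon)
  refine ⟨x - cc L x, ?_, fun h0 => hx ?_⟩
  · have : cc L (cc L x) = x := by
      have := congrArg (fun g : L ≃ₐ[ℚ] L => g x) (cc_cc (L := L))
      exact this
    rw [map_sub, this, neg_sub]
  · have h1 : φ (cc L x) = φ x := by rw [sub_eq_zero.1 h0.symm.symm |>.symm]
    rw [← h1, emb_cc, ComplexEmbedding.conjugate_coe_eq]

lemma re_zero [IsGalois ℚ L] {η : L} (h : cc L η = - η) (φ : L →+* ℂ) : (φ η).re = 0 := by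
  have h1 := emb_cc φ η
  rw [h, map_neg] at h1
  have h2 := congrArg Complex.re h1
  rw [Complex.neg_re, Complex.conj_re] at h2
  linarith

/-- there is a totally imaginary element with given signs -/
theorem exists_xi [IsGalois ℚ L] {Φ : Set (L →+* ℂ)} (hΦ : IsCMType Φ) :
    ∃ ξ : L, cc L ξ = - ξ ∧ ∀ φ ∈ Φ, 0 < (φ ξ).im := by
  classical
  obtain ⟨η, hη, hη0⟩ := exists_anti (L := L)
  have him : ∀ φ : L →+* ℂ, 0 < |(φ η).im| := by
    intro φ
    rw [abs_pos]
    intro h0
    apply (map_ne_zero φ).2 hη0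
    apply Complex.ext
    · exact re_zero hη φ
    · exact h0
  -- a common bound
  obtain ⟨r, hr, hrφ⟩ : ∃ r : ℝ, 0 < r ∧ ∀ φ : L →+* ℂ, r ≤ |(φ η).im| := by
    obtain ⟨φ0, -, h0⟩ := Finset.exists_min_image (Finset.univ : Finset (L →+* ℂ))
      (fun φ => |(φ η).im|) Finset.univ_nonempty
    exact ⟨_, him φ0, fun φ => h0 φ (Finset.mem_univ _)⟩
  -- the elements to approximate
  have hz : ∀ v : InfinitePlace L, ∃ z : L, ∀ φ ∈ Φ, InfinitePlace.mk φ = v →
      |(φ η).im| ≤ (φ z).im := by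
    intro v
    by_cases hv : ∃ φ ∈ Φ, InfinitePlace.mk φ = v
    · obtain ⟨φ, hφ, rfl⟩ := hv
      have hu : ∀ ψ ∈ Φ, InfinitePlace.mk ψ = InfinitePlace.mk φ → ψ = φ := by
        intro ψ hψ h
        rcases InfinitePlace.mk_eq_iff.1 h with h1 | h1
        · exact h1
        · exfalso
          rw [← h1] at hφ
          exact ((hΦ ψ).1 hψ) hφ
      by_cases hs : 0 ≤ (φ η).im
      · refine ⟨η, fun ψ hψ h => ?_⟩
        rw [hu ψ hψ h, abs_of_nonneg hs]
      · refine ⟨-η, fun ψ hψ h => ?_⟩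
        rw [hu ψ hψ h, abs_of_neg (not_le.1 hs), map_neg, Complex.neg_im]
    · exact ⟨0, fun φ hφ h => absurd ⟨φ, hφ, h⟩ hv⟩
  choose z hz using hz
  obtain ⟨x, hx⟩ := Metric.denseRange_iff.1 (InfinitePlace.denseRange_algebraMap_pi L)
    (fun v => (WithAbs.equiv v.1).symm (z v)) r hr
  refine ⟨x - cc L x, ?_, fun φ hφ => ?_⟩
  · have : cc L (cc L x) = x := by
      have := congrArg (fun g : L ≃ₐ[ℚ] L => g x) (cc_cc (L := L))
      exact this
    rw [map_sub, this, neg_sub]
  · have h1 := lt_of_le_of_lt (dist_le_pi_dist _ _ (InfinitePlace.mk φ)) hx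
    have h2 : ‖φ (z (InfinitePlace.mk φ)) - φ x‖ < r := by
      rw [← map_sub]
      rw [dist_eq_norm, WithAbs.norm_eq_abv] at h1
      exact h1
    have h3 := hz _ φ hφ rfl
    have h4 := hrφ φ
    have h5 := Complex.abs_im_le_norm (φ (z (InfinitePlace.mk φ)) - φ x)
    rw [Complex.sub_im] at h5
    have h6 := le_abs_self ((φ (z (InfinitePlace.mk φ))).im - (φ x).im)
    have h7 : (φ (x - cc L x)).im = 2 * (φ x).im := by
      rw [map_sub, emb_cc, Complex.sub_im, Complex.conj_im]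
      ring
    rw [h7]
    linarith

/-- the square of an abelian variety of CM type -/
def cmsq [IsGalois ℚ L] (Φ : Set (L →+* ℂ)) (hΦ : IsCMType Φ) : HS L := by
  classical
  refine ⟨fun χ => if χ ∈ Φ then 1 else -1, fun φ => ?_, fun φ => ?_, ?_⟩
  · by_cases h : φ ∈ Φ <;> simp [h]
  · have e1 : ((1 : M2 ℂ).map (starRingEnd ℂ)) = 1 := by
      ext p q
      fin_cases p <;> fin_cases q <;> simp
    have e2 : ((-1 : M2 ℂ).map (starRingEnd ℂ)) = -1 := by
      ext p q
      fin_cases p <;> fin_cases q <;> simp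
    by_cases h : φ ∈ Φ
    · have h' := (hΦ φ).1 h
      rw [if_pos h, if_neg h', e1]
    · have h' : ComplexEmbedding.conjugate φ ∈ Φ := by
        by_contra hc
        exact h ((hΦ φ).2 hc)
      rw [if_neg h, if_pos h', e2, neg_neg]
  · obtain ⟨ξ, hξ, hpos⟩ := exists_xi hΦ
    have hconj : ∀ φ : L →+* ℂ, ComplexEmbedding.conjugate φ ξ = - φ ξ := by
      intro φ
      rw [ComplexEmbedding.conjugate_coe_eq, ← emb_cc, hξ, map_neg]
    have hmap : ∀ φ : L →+* ℂ, (Matrix.scalar (Fin 2) ξ).map φ = φ ξ • (1 : M2 ℂ) := by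
      intro φ
      ext p q
      fin_cases p <;> fin_cases q <;> simp
    refine ⟨Matrix.scalar (Fin 2) ξ, fun φ => ?_, fun φ => ?_, fun φ x hx => ?_⟩
    · rw [hmap, hmap, hconj, Matrix.transpose_smul, Matrix.transpose_one, neg_smul, neg_neg]
    · rw [hmap]
      dsimp only
      by_cases h : φ ∈ Φ
      · have h' := (hΦ φ).1 h
        rw [if_pos h, if_neg h', Matrix.transpose_one, Matrix.one_mul, Matrix.mul_neg,
          Matrix.mul_one, neg_neg]
      · have h' : ComplexEmbedding.conjugate φ ∈ Φ := by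
          by_contra hc
          exact h ((hΦ φ).2 hc)
        rw [if_neg h, if_pos h', Matrix.transpose_neg, Matrix.transpose_one, Matrix.neg_mul,
          Matrix.one_mul, Matrix.mul_one]
    · rw [hmap]
      have hre : φ ξ = Complex.I * ((φ ξ).im : ℂ) := by
        apply Complex.ext
        · simp [re_zero hξ φ]
        · simp
      obtain ⟨N, hN, hNx⟩ : ∃ N : ℝ, 0 < N ∧ x ⬝ᵥ star x = (N : ℂ) := by
        refine ⟨Complex.normSq (x 0) + Complex.normSq (x 1), ?_, ?_⟩
        · by_contra hc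
          have h0 := Complex.normSq_nonneg (x 0)
          have h1 := Complex.normSq_nonneg (x 1)
          apply hx
          funext i
          have e0 : Complex.normSq (x 0) = 0 := by linarith
          have e1 : Complex.normSq (x 1) = 0 := by linarith
          fin_cases i
          · exact Complex.normSq_eq_zero.1 e0
          · exact Complex.normSq_eq_zero.1 e1
        · rw [dotProduct, Fin.sum_univ_two, Pi.star_apply, Pi.star_apply]
          push_cast
          rw [← Complex.mul_conj, ← Complex.mul_conj]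
          rfl
      dsimp only
      by_cases h : φ ∈ Φ
      · rw [if_pos h, Matrix.one_mulVec, Matrix.smul_mulVec, Matrix.one_mulVec, dotProduct_smul,
          smul_eq_mul, hNx, hre]
        have e : -Complex.I * (Complex.I * ((φ ξ).im : ℂ) * (N : ℂ)) = (((φ ξ).im * N : ℝ) : ℂ) := by
          push_cast
          linear_combination (-((φ ξ).im : ℂ) * N) * Complex.I_mul_I
        rw [e, Complex.ofReal_re]
        exact mul_pos (hpos φ h) hN
      · have h' : ComplexEmbedding.conjugate φ ∈ Φ := by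
          by_contra hc
          exact h ((hΦ φ).2 hc)
        have h2 := hpos _ h'
        rw [hconj, Complex.neg_im] at h2
        rw [if_neg h, Matrix.neg_mulVec, Matrix.one_mulVec, star_neg, Matrix.smul_mulVec,
          Matrix.one_mulVec, dotProduct_smul, smul_eq_mul, dotProduct_neg, hNx, hre]
        have e : -Complex.I * (Complex.I * ((φ ξ).im : ℂ) * (-(N : ℂ))) =
            ((-(φ ξ).im * N : ℝ) : ℂ) := by
          push_cast
          linear_combination (((φ ξ).im : ℂ) * N) * Complex.I_mul_I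
        rw [e, Complex.ofReal_re]
        exact mul_pos h2 hN

lemma cmsq_D [IsGalois ℚ L] (Φ : Set (L →+* ℂ)) (hΦ : IsCMType Φ) (χ : L →+* ℂ) :
    (χ ∈ Φ → (cmsq Φ hΦ).D χ = 1) ∧ (χ ∉ Φ → (cmsq Φ hΦ).D χ = -1) := by
  classical
  constructor
  · intro h
    change (if χ ∈ Φ then (1 : M2 ℂ) else -1) = 1
    rw [if_pos h]
  · intro h
    change (if χ ∈ Φ then (1 : M2 ℂ) else -1) = -1
    rw [if_neg h]

lemma cmsq_isSquare [IsGalois ℚ L] (Φ : Set (L →+* ℂ)) (hΦ : IsCMType Φ) :
    (cmsq Φ hΦ).IsSquare := by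
  intro χ
  by_cases h : χ ∈ Φ
  · exact Or.inl ((cmsq_D Φ hΦ χ).1 h)
  · exact Or.inr ((cmsq_D Φ hΦ χ).2 h)

/-- the CM type is determined by the periods -/
theorem detL [IsGalois ℚ L] {P : PeriodSystem L} (hom : HomHodge P) : DetL P.cm L := by
  intro Φ Ψ hΦ hΨ h
  have hA := P.cm_av _ (cmsq_isSquare Φ hΦ)
  have hB := P.cm_av _ (cmsq_isSquare Ψ hΨ)
  have h1 := hom (cmsq Φ hΦ) (cmsq Ψ hΨ) ⟨hA, Or.inr (cmsq_isSquare Φ hΦ)⟩
    ⟨hB, Or.inr (cmsq_isSquare Ψ hΨ)⟩ 1 (by
      intro χ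
      obtain ⟨M, hM, hMA⟩ := P.square _ hA Φ hΦ (cmsq_D Φ hΦ) χ
      obtain ⟨N, hN, hNB⟩ := P.square _ hB Ψ hΨ (cmsq_D Ψ hΨ) χ
      have hp := P.cm.per_ne_zero ⟨L, Φ, hΦ⟩ χ
      have hq := P.cm.per_ne_zero ⟨L, Ψ, hΨ⟩ χ
      have hr := h χ
      set p := P.cm.per ⟨L, Φ, hΦ⟩ χ
      set q := P.cm.per ⟨L, Ψ, hΨ⟩ χ
      have hMd : M.det ≠ 0 := by
        intro h0
        apply P.det_ne _ hA χ
        rw [hMA, Matrix.det_smul, h0, mul_zero]
      have hu : IsUnit M.det := isUnit_iff_ne_zero.2 hMd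
      refine ⟨(q / p) • (N * M⁻¹), AlgM.smul ?_ (hN.mul hM.inv), ?_⟩
      · have := hr.inv
        rwa [inv_div] at this
      · have e1 : (1 : Matrix (Fin 2) (Fin 2) L).map χ = 1 := by
          ext i j
          fin_cases i <;> fin_cases j <;> simp
        rw [e1, Matrix.mul_one, hMA, hNB, Matrix.mul_smul, Matrix.smul_mul, smul_smul,
          Matrix.mul_assoc, Matrix.nonsing_inv_mul _ hu, Matrix.mul_one, mul_div_cancel₀ _ hp])
  have h2 : ∀ χ, (cmsq Ψ hΨ).D χ = (cmsq Φ hΦ).D χ := by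
    intro χ
    have h3 := h1 χ
    have e1 : (1 : Matrix (Fin 2) (Fin 2) L).map χ = 1 := by
      ext i j
      fin_cases i <;> fin_cases j <;> simp
    rw [e1, Matrix.mul_one, Matrix.one_mul] at h3
    exact h3
  ext χ
  constructor
  · intro hχ
    by_contra hc
    have h3 := h2 χ
    rw [(cmsq_D Φ hΦ χ).1 hχ, (cmsq_D Ψ hΨ χ).2 hc] at h3
    exact one_ne_neg h3.symm
  · intro hχ
    by_contra hc
    have h3 := h2 χ
    rw [(cmsq_D Φ hΦ χ).2 hc, (cmsq_D Ψ hΨ χ).1 hχ] at h3
    exact one_ne_neg h3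

end

end Pool.Agent.W519.Q
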