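import Pool.Agent.W519.Q.Defs
import Pool.Agent.W519.Q.Act
import Pool.Agent.W519.G.Tens

/-!
# The coefficients of rational forms
-/

set_option autoImplicit false
set_option linter.unusedSectionVars false

namespace Pool.Agent.W519.Q

open NumberField Pool.Agent.H204R3.CM Pool.Agent.W547.KB Pool.Agent.W537.PC Matrix
open Pool.Agent.W519.G (exists_coeff coeff_unique actI)

noncomputable section

variable {L : Type} [Field L] [NumberField L] [IsCMField L]

/-- a CM type -/
def cm0 (L : Type) [Field L] : Set (L →+* ℂ) := {φ | (InfinitePlace.mk φ).embedding = φ}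

lemma conj_ne (φ : L →+* ℂ) : ComplexEmbedding.conjugate φ ≠ φ := by
  have h : (InfinitePlace.mk φ).IsComplex := IsTotallyComplex.isComplex _
  intro h2
  have h3 : ComplexEmbedding.IsReal φ := h2
  have h4 : (InfinitePlace.mk φ).IsReal := (InfinitePlace.isReal_iff).2 (by
    rw [InfinitePlace.embedding_mk_eq_of_isReal h3]
    exact h3)
  exact (InfinitePlace.not_isReal_iff_isComplex.2 h) h4

lemma cm0_isCMType : IsCMType (cm0 L) := by
  intro φ
  change (InfinitePlace.mk φ).embedding = φ ↔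
    ¬ (InfinitePlace.mk (ComplexEmbedding.conjugate φ)).embedding = ComplexEmbedding.conjugate φ
  rw [InfinitePlace.mk_conjugate_eq]
  constructor
  · intro h h2
    rw [h] at h2
    exact conj_ne φ h2.symm
  · intro h
    exact (InfinitePlace.embedding_mk_eq φ).resolve_right h

variable {I : Type} [Fintype I] {κ : Type} [Fintype κ] [DecidableEq κ]

/-- the CM abelian variety used for the coefficients -/
def X0 (L : Type) [Field L] [NumberField L] [IsCMField L] (I : Type) [Fintype I] : CMAV :=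
  ⟨I × Fin 2, fun _ => ⟨L, cm0 L, cm0_isCMType⟩⟩

/-- the index sets -/
def idx : Wt (X0 L I) ℂ ≃ (I × (L →+* ℂ)) × Fin 2 where
  toFun x := ((x.1.1, x.2), x.1.2)
  invFun y := ⟨(y.1.1, y.2), y.1.2⟩
  left_inv x := rfl
  right_inv y := rfl

/-- the action of an automorphism of the complex numbers on the embeddings -/
def act (τ : ℂ ≃+* ℂ) (φ : L →+* ℂ) : L →+* ℂ := (τ : ℂ →+* ℂ).comp φ

/-- the action on the slots -/
def actS (τ : ℂ ≃+* ℂ) (s : I × (L →+* ℂ)) : I × (L →+* ℂ) := (s.1, act τ s.2)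

/-- the action on the indices -/
def actX (τ : ℂ ≃+* ℂ) (x : (I × (L →+* ℂ)) × Fin 2) : (I × (L →+* ℂ)) × Fin 2 :=
  (actS τ x.1, x.2)

lemma act_apply (τ : ℂ ≃+* ℂ) (φ : L →+* ℂ) (x : L) : act τ φ x = τ (φ x) := rfl

/-- uncurrying -/
def curL (L : Type) [Field L] [NumberField L] (I : Type) :
    (I × Fin 2 → L) →ₗ[ℚ] (I → Fin 2 → L) where
  toFun v := fun i a => v (i, a)
  map_add' _ _ := rfl
  map_smul' _ _ := rfl

/-- coordinates of the elements of the homology -/
def chr (v : I → Fin 2 → L) (x : (I × (L →+* ℂ)) × Fin 2) : ℂ := x.1.2 (v x.1.1 x.2)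

/-- the coefficients of a rational form are algebraic numbers, permuted by the automorphisms of the
complex numbers -/
theorem exists_cf (f : MultilinearMap ℚ (fun _ : κ => I → Fin 2 → L) ℚ) :
    ∃ b : (κ → (I × (L →+* ℂ)) × Fin 2) → ℂ, (∀ J, IsAlgebraic ℚ (b J)) ∧
      (∀ v : κ → I → Fin 2 → L, ((f v : ℚ) : ℂ) = ∑ J, b J * ∏ k, chr (v k) (J k)) ∧
      ∀ (τ : ℂ ≃+* ℂ) (J : κ → (I × (L →+* ℂ)) × Fin 2), b (fun k => actX τ (J k)) = τ (b J) := by
  classical
  obtain ⟨b, h1, h2, h3⟩ := exists_coeff (X := X0 L I) (κ := κ)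
    (f.compLinearMap (fun _ => curL L I))
  let e : (κ → Wt (X0 L I) ℂ) ≃ (κ → (I × (L →+* ℂ)) × Fin 2) :=
    Equiv.arrowCongr (Equiv.refl κ) idx
  refine ⟨fun J => b (e.symm J), fun J => h1 _, fun v => ?_, fun τ J => ?_⟩
  · have h4 := h2 (fun k x => v k x.1 x.2)
    have h6 : ((f v : ℚ) : ℂ) = ∑ J : κ → Wt (X0 L I) ℂ, b J * ∏ l, chr (v l) (idx (J l)) := h4
    rw [h6]
    refine Fintype.sum_equiv e _ _ fun J => ?_
    change b J * _ = b (e.symm (e J)) * _
    rw [Equiv.symm_apply_apply]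
    rfl
  · rw [← h3 τ]
    rfl

/-- complex coefficients are unique -/
theorem cf_unique {b b' : (κ → (I × (L →+* ℂ)) × Fin 2) → ℂ}
    (h : ∀ v : κ → I → Fin 2 → L, ∑ J, b J * ∏ k, chr (v k) (J k) =
      ∑ J, b' J * ∏ k, chr (v k) (J k)) : b = b' := by
  classical
  let e : (κ → Wt (X0 L I) ℂ) ≃ (κ → (I × (L →+* ℂ)) × Fin 2) :=
    Equiv.arrowCongr (Equiv.refl κ) idx
  have h1 : (fun J => b (e J)) = fun J => b' (e J) := by
    refine coeff_unique (X := X0 L I) fun v => ?_
    have h2 := h (fun k i a => v k (i, a))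
    rw [← Fintype.sum_equiv e (fun J => b (e J) * ∏ l, (J l).2 (v l (J l).1)) _ (fun J => rfl),
      ← Fintype.sum_equiv e (fun J => b' (e J) * ∏ l, (J l).2 (v l (J l).1)) _ (fun J => rfl)] at h2
    exact h2
  funext J
  have := congrFun h1 (e.symm J)
  simpa using this

end

end Pool.Agent.W519.Q
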