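import Pool.Agent.W519.Q.Lie
import Pool.Agent.H977R3.CM.Aut

/-!
# Descent
-/

set_option autoImplicit false
set_option linter.unusedSectionVars false

namespace Pool.Agent.W519.Q

open NumberField Pool.Agent.H204R3.CM Pool.Agent.W547.KB Pool.Agent.W537.PC Matrix

noncomputable section

variable {L : Type} [Field L] [NumberField L] [IsCMField L]

/-- an algebraic number fixed by the automorphisms of the complex numbers over `φ(L)` is in `φ(L)` -/
theorem fixed_mem (φ : L →+* ℂ) {z : ℂ} (hz : IsAlgebraic ℚ z)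
    (h : ∀ τ : ℂ ≃+* ℂ, act τ φ = φ → τ z = z) : ∃ x : L, φ x = z := by
  obtain ⟨y, rfl⟩ := alg_iff.1 hz
  let ψ : L →+* Kb := φ.codRestrict (Kb : IntermediateField ℚ ℂ).toSubfield.toSubring
    (fun x => mem_algebraicClosure_iff.2 (emb_alg φ x))
  have hψ : ∀ x, ((ψ x : Kb) : ℂ) = φ x := fun x => rfl
  letI : Algebra L Kb := ψ.toAlgebra
  haveI : IsScalarTower ℚ L Kb := IsScalarTower.of_algebraMap_eq fun x => by
    rw [eq_ratCast, eq_ratCast]
    exact (map_ratCast ψ x).symm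
  haveI : Algebra.IsAlgebraic ℚ Kb := algebraicClosure.isAlgebraic ℚ ℂ
  haveI : Algebra.IsAlgebraic L Kb := Algebra.IsAlgebraic.tower_top (K := ℚ) L
  haveI : IsAlgClosure L Kb := ⟨inferInstance, inferInstance⟩
  haveI : IsGalois L Kb := inferInstance
  have hy : y ∈ (⊥ : IntermediateField L Kb) := by
    rw [InfiniteGalois.mem_bot_iff_fixed]
    intro g
    obtain ⟨τ, hτ⟩ := Pool.Agent.H977R3.CM.exists_aut (algebraMap Kb ℂ) (g : Kb ≃+* Kb)
    have h1 : act τ φ = φ := by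
      ext x
      rw [act_apply, ← hψ x]
      have h2 := hτ (ψ x)
      have h3 : g (ψ x) = ψ x := g.commutes x
      change τ ((ψ x : Kb) : ℂ) = ((g (ψ x) : Kb) : ℂ) at h2
      rw [h2, h3]
    have h2 := h τ h1
    have h3 := hτ y
    change τ (y : ℂ) = ((g y : Kb) : ℂ) at h3
    apply Subtype.ext
    rw [← h3, h2]
  obtain ⟨x, hx⟩ := IntermediateField.mem_bot.1 hy
  exact ⟨x, by rw [← hx]; rfl⟩

/-- a line stable under the automorphisms over `φ(L)` is defined over `φ(L)` -/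
theorem descent {ι : Type*} (φ : L →+* ℂ) (u : ι → ℂ) (hu : ∀ i, IsAlgebraic ℚ (u i)) (h0 : u ≠ 0)
    (h : ∀ τ : ℂ ≃+* ℂ, act τ φ = φ → ∃ r : ℂ, ∀ i, τ (u i) = r * u i) :
    ∃ (a : ℂ) (x : ι → L), a ≠ 0 ∧ IsAlgebraic ℚ a ∧ ∀ i, u i = a * φ (x i) := by
  obtain ⟨i₀, hi₀⟩ := Function.ne_iff.1 h0
  have hi : u i₀ ≠ 0 := hi₀
  have key : ∀ i, ∃ x : L, φ x = u i / u i₀ := by
    intro i
    refine fixed_mem φ ((hu i).mul (hu i₀).inv) fun τ hτ => ?_
    obtain ⟨r, hr⟩ := h τ hτ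
    have hr0 : r ≠ 0 := by
      intro h0
      have := hr i₀
      rw [h0, zero_mul] at this
      exact (map_ne_zero τ).2 hi this
    rw [map_div₀, hr, hr, mul_div_mul_left _ _ hr0]
  choose x hx using key
  refine ⟨u i₀, x, hi, hu i₀, fun i => ?_⟩
  rw [hx, mul_div_cancel₀ _ hi]

end

end Pool.Agent.W519.Q
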