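import Pool.Agent.W519.Q.Lie
import Pool.Agent.W516.DRDeriv

/-!
# Logarithmic derivatives of the period matrices
-/

set_option autoImplicit false
set_option linter.unusedSectionVars false

namespace Pool.Agent.W519.Q

open NumberField Pool.Agent.H204R3.CM Pool.Agent.W547.KB Pool.Agent.W537.PC Matrix

noncomputable section

/-- derivations of the complex numbers over the field of algebraic numbers -/
abbrev Dv : Type := Derivation Kb ℂ ℂ

lemma dv_alg (D : Dv) {x : ℂ} (hx : IsAlgebraic ℚ x) : D x = 0 := by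
  obtain ⟨y, rfl⟩ := alg_iff.1 hx
  exact D.map_algebraMap y

lemma dv_mul (D : Dv) (x y : ℂ) : D (x * y) = x * D y + D x * y := by
  rw [D.leibniz, smul_eq_mul, smul_eq_mul, mul_comm y]

lemma alg_of_dv {x : ℂ} (h : ∀ D : Dv, D x = 0) : IsAlgebraic ℚ x := by
  obtain ⟨a, ha⟩ := Pool.Agent.W516.DR.mem_of_derivation h
  rw [← ha]
  exact alg_coe a

lemma dv_div (D : Dv) {x y : ℂ} (hy : y ≠ 0) : D (x / y) = (D x * y - x * D y) / y ^ 2 := by
  have h : D x = D (x / y * y) := by rw [div_mul_cancel₀ x hy]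
  rw [dv_mul] at h
  rw [h]
  field_simp
  ring

lemma dv_prod {κ : Type*} [DecidableEq κ] (D : Dv) (s : Finset κ) (g : κ → ℂ) :
    D (∏ k ∈ s, g k) = ∑ k ∈ s, (∏ l ∈ s.erase k, g l) * D (g k) := by
  induction s using Finset.induction_on with
  | empty => simp
  | insert a s ha ih =>
    rw [Finset.prod_insert ha, dv_mul, ih, Finset.sum_insert ha, Finset.erase_insert ha, add_comm]
    congr 1
    · rw [mul_comm]
    · rw [Finset.mul_sum]
      refine Finset.sum_congr rfl fun k hk => ?_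
      have hka : k ≠ a := fun h => ha (h ▸ hk)
      rw [Finset.erase_insert_of_ne (Ne.symm hka), Finset.prod_insert (fun h => ha
        (Finset.mem_of_mem_erase h))]
      ring

/-- a family with proportional derivatives is proportional to an algebraic family -/
theorem prop_alg {ι : Type*} (p : ι → ℂ) (h0 : p ≠ 0) (h : ∀ D : Dv, ∃ μ : ℂ, ∀ i, D (p i) = μ * p i) :
    ∃ (c : ℂ) (u : ι → ℂ), c ≠ 0 ∧ (∀ i, IsAlgebraic ℚ (u i)) ∧ p = c • u := by
  obtain ⟨i₀, hi₀⟩ := Function.ne_iff.1 h0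
  refine ⟨p i₀, fun i => p i / p i₀, hi₀, fun i => alg_of_dv fun D => ?_, ?_⟩
  · obtain ⟨μ, hμ⟩ := h D
    rw [dv_div D hi₀, hμ, hμ]
    ring_nf
  · funext i
    rw [Pi.smul_apply, smul_eq_mul, mul_div_cancel₀ _ hi₀]

/-- the derivative of a matrix -/
def dM (D : Dv) (M : M2 ℂ) : M2 ℂ := M.map D

lemma dM_mul (D : Dv) (M N : M2 ℂ) : dM D (M * N) = M * dM D N + dM D M * N := by
  ext i j
  simp only [dM, Matrix.map_apply, Matrix.mul_apply, Fin.sum_univ_two, Matrix.add_apply, map_add,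
    dv_mul]
  ring

lemma dM_alg (D : Dv) {M : M2 ℂ} (h : AlgM M) : dM D M = 0 := by
  ext i j
  exact dv_alg D (h i j)

lemma dM_smul (D : Dv) (c : ℂ) (M : M2 ℂ) : dM D (c • M) = c • dM D M + D c • M := by
  ext i j
  simp only [dM, Matrix.map_apply, Matrix.smul_apply, smul_eq_mul, Matrix.add_apply, dv_mul]

lemma dM_transpose (D : Dv) (M : M2 ℂ) : dM D Mᵀ = (dM D M)ᵀ := rfl

variable {L : Type} [Field L] [NumberField L] [IsCMField L]
variable {I : Type} [Fintype I] {κ : Type} [Fintype κ] [DecidableEq κ]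

lemma dv_Fm (D : Dv) {c : (κ → Sl I L × Fin 2) → ℂ} (hc : ∀ J, IsAlgebraic ℚ (c J))
    (z : κ → Sl I L → Fin 2 → ℂ) :
    D (Fm c z) = ∑ k, Fm c (Function.update z k (fun s a => D (z k s a))) := by
  rw [Fm_apply, map_sum]
  simp only [Fm_apply]
  rw [Finset.sum_comm]
  refine Finset.sum_congr rfl fun J _ => ?_
  rw [dv_mul, dv_alg D (hc J), zero_mul, add_zero, dv_prod, Finset.mul_sum]
  refine Finset.sum_congr rfl fun k _ => ?_
  congr 1
  rw [← Finset.mul_prod_erase Finset.univ _ (Finset.mem_univ k), Function.update_self, mul_comm]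
  congr 1
  refine Finset.prod_congr rfl fun l hl => ?_
  rw [Function.update_of_ne (Finset.ne_of_mem_erase hl)]

variable (P : PeriodSystem L) (A : I → HS L)

/-- the period matrix of a slot -/
def pm (s : Sl I L) : M2 ℂ := P.per (A s.1) s.2

/-- the logarithmic derivative -/
def ld (D : Dv) (s : Sl I L) : M2 ℂ := (pm P A s)⁻¹ * dM D (pm P A s)

variable {P A}

lemma pm_mul_ld (hA : ∀ i, P.IsAV (A i)) (D : Dv) (s : Sl I L) :
    pm P A s * ld P A D s = dM D (pm P A s) := by
  have h : IsUnit (pm P A s).det := isUnit_iff_ne_zero.2 (P.det_ne _ (hA s.1) s.2)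
  rw [ld, ← Matrix.mul_assoc, Matrix.mul_nonsing_inv _ h, Matrix.one_mul]

lemma ld_inj (hA : ∀ i, P.IsAV (A i)) (s : Sl I L) {M N : M2 ℂ} (h : pm P A s * M = pm P A s * N) :
    M = N := by
  have hu : IsUnit (pm P A s).det := isUnit_iff_ne_zero.2 (P.det_ne _ (hA s.1) s.2)
  have h1 := congrArg (fun X => (pm P A s)⁻¹ * X) h
  simp only [← Matrix.mul_assoc] at h1
  rwa [Matrix.nonsing_inv_mul _ hu, Matrix.one_mul, Matrix.one_mul] at h1

/-- the number `2 π i` -/
def tau : ℂ := 2 * Real.pi * Complex.I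

lemma tau_ne : tau ≠ 0 := by
  unfold tau
  simp [Real.pi_ne_zero]

/-- the relation between a de Rham-Betti class and its coefficients -/
theorem drb_form {w : ℤ} {f : MultilinearMap ℚ (fun _ : κ => I → Fin 2 → L) ℚ}
    (hf : IsDRB P A w f) {b : (κ → Sl I L × Fin 2) → ℂ}
    (hb : ∀ v : κ → I → Fin 2 → L, ((f v : ℚ) : ℂ) = ∑ J, b J * ∏ k, chr (v k) (J k)) :
    ∃ c : (κ → Sl I L × Fin 2) → ℂ, (∀ J, IsAlgebraic ℚ (c J)) ∧
      tau ^ w • Fm b = (Fm c).compLinearMap (fun _ => op (pm P A)) := by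
  obtain ⟨c, hc, hcv⟩ := hf
  let e : (κ → Sl I L × Fin 2) ≃ (κ → I × (L →+* ℂ) × Fin 2) :=
    Equiv.arrowCongr (Equiv.refl κ) (Equiv.prodAssoc I (L →+* ℂ) (Fin 2))
  refine ⟨fun J => c (e J), fun J => hc _, ?_⟩
  set G := (Fm (fun J => c (e J))).compLinearMap (fun _ => op (pm P A)) with hG
  have hGF : G = Fm (fun J => G (fun k => eb (J k))) := ext_eb fun J => by rw [Fm_eb]
  have h1 : (fun J => tau ^ w * b J) = fun J => G (fun k => eb (J k)) := by
    refine cf_unique fun v => ?_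
    have h2 : ∑ J : κ → Sl I L × Fin 2, (G fun k => eb (J k)) * ∏ k, chr (v k) (J k) =
        Fm (fun J => G (fun k => eb (J k))) (fun k s a => chr (v k) (s, a)) := by
      rw [Fm_apply]
    rw [h2, ← hGF, hG, MultilinearMap.compLinearMap_apply, Fm_apply]
    have h3 : ∑ J, tau ^ w * b J * ∏ k, chr (v k) (J k) = tau ^ w * ((f v : ℚ) : ℂ) := by
      rw [hb v, Finset.mul_sum]
      exact Finset.sum_congr rfl fun J _ => by ring
    rw [h3]
    refine (hcv v).trans ?_
    symm
    refine Fintype.sum_equiv e _ _ fun J => ?_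
    rfl
  have h4 : tau ^ w • Fm b = Fm (fun J => tau ^ w * b J) := ext_eb fun J => by
    rw [MultilinearMap.smul_apply, Fm_eb, Fm_eb, smul_eq_mul]
  rw [h4, h1, ← hGF]

lemma key_eb (Y : Sl I L → M2 ℂ) (b : (κ → Sl I L × Fin 2) → ℂ) (J : κ → Sl I L × Fin 2) :
    ∑ k, Fm b (Function.update (fun k => (eb (J k) : Sl I L → Fin 2 → ℂ)) k (op Y (eb (J k)))) =
      ∑ k, ∑ c, b (Function.update J k ((J k).1, c)) * Y (J k).1 c (J k).2 := by
  refine Finset.sum_congr rfl fun k _ => ?_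
  rw [op_eb, MultilinearMap.map_update_sum]
  refine Finset.sum_congr rfl fun c _ => ?_
  rw [MultilinearMap.map_update_smul, smul_eq_mul, mul_comm]
  congr 1
  rw [← Fm_eb b (Function.update J k ((J k).1, c))]
  congr 1
  funext l
  by_cases h : l = k
  · subst h
    simp
  · simp [h]

lemma dv_zpow (D : Dv) (x : ℂ) (hx : x ≠ 0) (w : ℤ) : D (x ^ w) = w * (x ^ w * (D x / x)) := by
  have hnat : ∀ n : ℕ, D (x ^ n) = n * (x ^ n * (D x / x)) := by
    intro n
    induction n with
    | zero => simp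
    | succ n ih =>
      rw [pow_succ, dv_mul, ih]
      push_cast
      field_simp
      ring
  cases w with
  | ofNat n => simpa using hnat n
  | negSucc n =>
    rw [zpow_negSucc, Derivation.leibniz_inv, hnat]
    simp only [smul_eq_mul, Int.cast_negSucc]
    push_cast
    field_simp

/-- the logarithmic derivatives satisfy the equation given by a de Rham-Betti class -/
theorem ld_act (hA : ∀ i, P.IsAV (A i)) {w : ℤ} {b c : (κ → Sl I L × Fin 2) → ℂ}
    (hb : ∀ J, IsAlgebraic ℚ (b J)) (hc : ∀ J, IsAlgebraic ℚ (c J))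
    (h : tau ^ w • Fm b = (Fm c).compLinearMap (fun _ => op (pm P A))) (D : Dv) :
    ActC (ld P A D) (w * (D tau / tau)) b := by
  intro J
  have h1 := DFunLike.congr_fun h (fun k => eb (J k))
  rw [MultilinearMap.smul_apply, Fm_eb, smul_eq_mul, MultilinearMap.compLinearMap_apply] at h1
  have h2 := congrArg D h1
  rw [dv_mul, dv_alg D (hb J), mul_zero, zero_add, dv_zpow D tau tau_ne, dv_Fm D hc] at h2
  have h3 : ∀ k, Fm c (Function.update (fun i => op (pm P A) (eb (J i))) k
      (fun s a => D (op (pm P A) (eb (J k)) s a))) =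
      tau ^ w * Fm b (Function.update (fun k => (eb (J k) : Sl I L → Fin 2 → ℂ)) k
        (op (ld P A D) (eb (J k)))) := by
    intro k
    have h4 := DFunLike.congr_fun h (Function.update (fun k => (eb (J k) : Sl I L → Fin 2 → ℂ)) k
        (op (ld P A D) (eb (J k))))
    rw [MultilinearMap.smul_apply, smul_eq_mul, MultilinearMap.compLinearMap_apply] at h4
    rw [h4]
    congr 1
    funext l
    by_cases hl : l = k
    · subst hl
      rw [Function.update_self, Function.update_self]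
      funext s a
      rw [op_apply, op_apply, op_apply, Matrix.mulVec_mulVec, pm_mul_ld hA]
      simp only [Matrix.mulVec, dotProduct, Fin.sum_univ_two, map_add, dv_mul, dM, Matrix.map_apply]
      have h5 : ∀ c', D ((eb (J l) : Sl I L → Fin 2 → ℂ) s c') = 0 := by
        intro c'
        rw [eb_apply]
        split_ifs <;> simp
      rw [h5, h5]
      ring
    · rw [Function.update_of_ne hl, Function.update_of_ne hl]
  rw [Finset.sum_congr rfl (fun k _ => h3 k), ← Finset.mul_sum, key_eb] at h2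
  have h6 : tau ^ w ≠ 0 := zpow_ne_zero _ tau_ne
  apply mul_left_cancel₀ h6
  rw [← h2]
  ring

/-- the logarithmic derivatives and the polarization -/
theorem ld_pol (hA : ∀ i, P.IsAV (A i)) {Sp : I → Matrix (Fin 2) (Fin 2) L}
    (hS : ∀ i, IsPol L (A i).D (Sp i)) (D : Dv) (i : I) (φ : L →+* ℂ) :
    (ld P A D (i, φ))ᵀ * (Sp i).map φ + (Sp i).map φ * ld P A D (i, ComplexEmbedding.conjugate φ) =
      (D tau / tau) • (Sp i).map φ := by
  obtain ⟨M, hM, h⟩ := P.pol _ (hA i) _ (hS i) φ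
  have h' : (pm P A (i, φ))ᵀ * M * pm P A (i, ComplexEmbedding.conjugate φ) =
      tau • (Sp i).map φ := h
  have h1 := congrArg (dM D) h'
  have hSalg : AlgM ((Sp i).map φ) := fun p q => emb_alg φ _
  rw [dM_mul, dM_mul, dM_alg D hM, Matrix.mul_zero, zero_add, dM_transpose, dM_smul,
    dM_alg D hSalg, smul_zero, zero_add, ← pm_mul_ld hA D (i, φ),
    ← pm_mul_ld hA D (i, ComplexEmbedding.conjugate φ), Matrix.transpose_mul,
    Matrix.mul_assoc _ _ M, Matrix.mul_assoc _ _ (pm P A (i, ComplexEmbedding.conjugate φ)), h',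
    ← Matrix.mul_assoc _ (pm P A (i, ComplexEmbedding.conjugate φ)), h', Matrix.smul_mul,
    Matrix.mul_smul, ← smul_add] at h1
  have h2 := congrArg (fun X => tau⁻¹ • X) h1
  simp only [smul_smul, inv_mul_cancel₀ tau_ne, one_smul] at h2
  rw [add_comm, h2, div_eq_inv_mul]

/-- the logarithmic derivatives of abelian varieties of CM type -/
theorem ld_sq (hA : ∀ i, P.IsAV (A i)) (D : Dv) (i : I) (hi : (A i).IsSquare) (φ : L →+* ℂ) :
    tl (ld P A D (i, φ)) = 0 := by
  have hne : (1 : M2 ℂ) ≠ -1 := by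
    intro h
    have := congrFun (congrFun h 0) 0
    norm_num at this
  -- the CM type
  let Φ : Set (L →+* ℂ) := {χ | (A i).D χ = 1}
  have hΦ : IsCMType Φ := by
    intro χ
    change (A i).D χ = 1 ↔ ¬ (A i).D (ComplexEmbedding.conjugate χ) = 1
    rw [(A i).conj]
    have h1 : ((1 : M2 ℂ).map (starRingEnd ℂ)) = 1 := by
      ext p q
      fin_cases p <;> fin_cases q <;> simp
    rcases hi χ with h | h
    · rw [h, h1]
      exact ⟨fun _ h2 => hne h2.symm, fun _ => rfl⟩
    · rw [h]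
      have h2 : -((-1 : M2 ℂ).map (starRingEnd ℂ)) = 1 := by
        ext p q
        fin_cases p <;> fin_cases q <;> simp
      rw [h2]
      exact ⟨fun h3 => absurd h3.symm hne, fun h3 => absurd rfl h3⟩
  obtain ⟨M, hM, h⟩ := P.square _ (hA i) Φ hΦ (fun χ => ⟨fun h => h, fun h => (hi χ).resolve_left h⟩) φ
  set t := P.cm.per ⟨L, Φ, hΦ⟩ φ
  have hp : pm P A (i, φ) = t • M := h
  have ht : t ≠ 0 := P.cm.per_ne_zero _ _
  have h1 : ld P A D (i, φ) = (D t / t) • (1 : M2 ℂ) := by
    apply ld_inj hA (i, φ)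
    rw [pm_mul_ld hA, hp, dM_smul, dM_alg D hM, smul_zero, zero_add, Matrix.mul_smul, Matrix.mul_one,
      smul_smul, div_mul_cancel₀ _ ht]
  rw [h1, tl_zero_iff]
  simp

/-- the logarithmic derivatives belong to the Lie algebra -/
theorem ld_mem (hA : ∀ i, P.IsAV (A i)) {Sp : I → Matrix (Fin 2) (Fin 2) L}
    (hS : ∀ i, IsPol L (A i).D (Sp i)) {w : ℤ} {b c : (κ → Sl I L × Fin 2) → ℂ}
    (hb : ∀ J, IsAlgebraic ℚ (b J)) (hc : ∀ J, IsAlgebraic ℚ (c J))
    (h : tau ^ w • Fm b = (Fm c).compLinearMap (fun _ => op (pm P A))) (D : Dv) :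
    HH A Sp w b (ld P A D) (D tau / tau) :=
  ⟨ld_act hA hb hc h D, ld_pol hA hS D, fun i hi φ => ld_sq hA D i hi φ⟩

end

end Pool.Agent.W519.Q
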