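import Pool.Agent.W519.Q.Cmsq

/-!
# De Rham-Betti classes are Hodge classes
-/

set_option autoImplicit false
set_option linter.unusedSectionVars false

namespace Pool.Agent.W519.Q

open NumberField Pool.Agent.H204R3.CM Pool.Agent.W547.KB Pool.Agent.W537.PC Matrix

noncomputable section

variable {L : Type} [Field L] [NumberField L] [IsCMField L]
variable {I : Type} [Fintype I] {κ : Type} [Fintype κ] [DecidableEq κ]

lemma sum_eps (ε : κ → ℤ) (h : ∀ k, ε k = 1 ∨ ε k = -1) (w : ℤ) (h0 : ∑ k, ε k = 0)
    (hn : (Fintype.card κ : ℤ) = 2 * w) :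
    (Finset.card {k | ε k = 1} : ℤ) = w ∧ (Finset.card {k | ε k = -1} : ℤ) = w := by
  have h1 : ∑ k, ε k = (Finset.card {k | ε k = 1} : ℤ) - (Finset.card {k | ε k = -1} : ℤ) := by
    rw [Finset.card_filter, Finset.card_filter]
    push_cast
    rw [← Finset.sum_sub_distrib]
    refine Finset.sum_congr rfl fun k _ => ?_
    rcases h k with h | h <;> rw [h] <;> norm_num
  have h2 : (Fintype.card κ : ℤ) =
      (Finset.card {k | ε k = 1} : ℤ) + (Finset.card {k | ε k = -1} : ℤ) := by
    rw [Finset.card_filter, Finset.card_filter]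
    push_cast
    rw [← Finset.sum_add_distrib, Fintype.card_eq_sum_ones]
    push_cast
    refine Finset.sum_congr rfl fun k _ => ?_
    rcases h k with h | h <;> rw [h] <;> norm_num
  omega

/-- de Rham-Betti classes are Hodge classes, if this is so in degree two -/
theorem drb_hodge (hL : IsAbelian L) (P : PeriodSystem L) (hss : Semisimple P) (h2 : DegreeTwo P)
    (A : I → HS L) (hG : ∀ i, Good P (A i)) (w : ℤ)
    (f : MultilinearMap ℚ (fun _ : κ => I → Fin 2 → L) ℚ) (hf : IsDRB P A w f) :
    IsHodge A w f := by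
  have : IsGalois ℚ L := hL.1
  have hom := homHodge h2
  have hdet := detL hom
  have hA : ∀ i, P.IsAV (A i) := fun i => (hG i).1
  have hc : ∀ i, (A i).IsSimple ∨ (A i).IsSquare := fun i => (hG i).2
  choose Sp hS using fun i => (A i).pol
  obtain ⟨b, hb, hbf, hbg⟩ := exists_cf f
  obtain ⟨c, hc', hcF⟩ := drb_form hf hbf
  have hld := fun D => ld_mem hA hS hb hc' hcF D
  have hno : ∀ s : Sl I L, ¬ (A s.1).IsSquare → NoEig A Sp w b s :=
    fun s hs => noEig hbg (endHodge hom) hss hA hld hb s ((hc s.1).resolve_right hs)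
  have hsub := subdirect hno
  have hD : HH A Sp w b (fun s => tl ((A s.1).D s.2)) 0 := by
    refine HH_of_rel hsub hb _ (fun s => trace_tl _) (fun s hs => ?_) (fun s t N hs ht hN =>
      hN.hodge hom hc hsub hA hld hbg hS hs ht)
    rcases hs s.2 with h | h <;> rw [h]
    · exact tl_one
    · exact tl_neg_one
  refine ⟨(Fm b).compLinearMap (fun _ => unc L I), fun v => ?_, fun ε z hε hz hF => ?_⟩
  · rw [MultilinearMap.compLinearMap_apply, Fm_apply, hbf v]
    rfl
  · rw [MultilinearMap.compLinearMap_apply] at hF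
    set v : κ → Sl I L → Fin 2 → ℂ := fun k => unc L I (z k) with hv
    obtain ⟨J0, hJ0⟩ : ∃ J, b J ≠ 0 := by
      by_contra hcon
      push Not at hcon
      apply hF
      rw [Fm_apply]
      exact Finset.sum_eq_zero fun J _ => by rw [hcon J, zero_mul]
    have hcard := (sum_rk hL hdet hsub hb hA hbg hld J0 hJ0).2
    have h1 : ActC (fun s : Sl I L => ((rk (A s.1) s.2 : ℂ) - 1) • (1 : M2 ℂ)) 0 b := by
      refine scalar_actC fun J hJ => ?_
      have h2 := sum_rk hL hdet hsub hb hA hbg hld J hJ
      rw [Finset.sum_sub_distrib, ← Int.cast_sum, h2.1, ← h2.2, Finset.sum_const, Finset.card_univ]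
      simp
    have h2 := (hD.ac)
    rw [mul_zero] at h2
    have h3 := actC_add h2 h1
    have h4 : ((fun s : Sl I L => tl ((A s.1).D s.2)) +
        fun s : Sl I L => ((rk (A s.1) s.2 : ℂ) - 1) • (1 : M2 ℂ)) =
        fun s : Sl I L => (A s.1).D s.2 := by
      funext s
      rw [Pi.add_apply, tl, rk_trace]
      rw [mul_div_cancel_left₀ _ (two_ne_zero)]
      abel
    rw [h4, add_zero] at h3
    have h5 := (acts_iff _ _ _).2 h3 v
    rw [zero_mul] at h5
    have h6 : ∀ k, Fm b (Function.update v k (op (fun s : Sl I L => (A s.1).D s.2) (v k))) =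
        (ε k : ℂ) * Fm b v := by
      intro k
      have : op (fun s : Sl I L => (A s.1).D s.2) (v k) = (ε k : ℂ) • v k := by
        funext s
        rw [op_apply, Pi.smul_apply]
        exact hz k s.1 s.2
      rw [this, MultilinearMap.map_update_smul, Function.update_eq_self, smul_eq_mul]
    rw [Finset.sum_congr rfl (fun k _ => h6 k), ← Finset.sum_mul] at h5
    have h7 := (mul_eq_zero.1 h5).resolve_right hF
    have h8 : ∑ k, ε k = 0 := by exact_mod_cast h7
    exact sum_eps ε hε w h8 hcard

/-- the reduction to classes of degree two -/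
theorem all_iff_two (hL : IsAbelian L) (P : PeriodSystem L) (hss : Semisimple P) :
    AllDegrees P ↔ DegreeTwo P := by
  constructor
  · intro h A B hA hB f hf
    refine h (Fin 2) ![A, B] (fun i => ?_) 2 1 f hf
    fin_cases i
    · exact hA
    · exact hB
  · intro h I _ A hA n w f hf
    exact drb_hodge hL P hss h A hA w f hf

end

end Pool.Agent.W519.Q
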