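import Pool.Agent.W519.Q.Irr

/-!
# Subalgebras of products of the Lie algebras of traceless matrices of size two
-/

set_option autoImplicit false
set_option linter.unusedSectionVars false

namespace Pool.Agent.W519.Q

open Matrix

variable {K : Type*} [Field K] [CharZero K] {S : Type*}

/-- the bracket in each component -/
def brS (Y Z : S → M2 K) : S → M2 K := fun s => br (Y s) (Z s)

/-- `𝔰` is a Lie algebra of families of traceless matrices, zero outside of `S1` and with all
traceless matrices as components at the elements of `S1` -/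
structure Subdirect (𝔰 : Submodule K (S → M2 K)) (S1 : S → Prop) : Prop where
  brm : ∀ Y ∈ 𝔰, ∀ Z ∈ 𝔰, brS Y Z ∈ 𝔰
  tr : ∀ Y ∈ 𝔰, ∀ s, (Y s).trace = 0
  surj : ∀ s, S1 s → ∀ Z : M2 K, Z.trace = 0 → ∃ Y ∈ 𝔰, Y s = Z
  zero : ∀ s, ¬ S1 s → ∀ Y ∈ 𝔰, Y s = 0

variable {𝔰 : Submodule K (S → M2 K)} {S1 : S → Prop} (h : Subdirect 𝔰 S1)

/-- `N` transforms the component at `s` into the component at `t` -/
def Inter (𝔰 : Submodule K (S → M2 K)) (s t : S) (N : M2 K) : Prop :=
  N.det ≠ 0 ∧ ∀ Y ∈ 𝔰, Y t * N = N * Y s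

lemma inter_refl (s : S) : Inter 𝔰 s s 1 := by
  refine ⟨by simp, fun Y _ => by simp⟩

lemma inter_symm {s t : S} {N : M2 K} (hN : Inter 𝔰 s t N) : Inter 𝔰 t s N⁻¹ := by
  have hu : IsUnit N.det := isUnit_iff_ne_zero.2 hN.1
  refine ⟨by
    rw [Matrix.det_nonsing_inv, Ring.inverse_eq_inv']
    exact inv_ne_zero hN.1, fun Y hY => ?_⟩
  have h1 := hN.2 Y hY
  calc Y s * N⁻¹ = N⁻¹ * (N * Y s) * N⁻¹ := by
        rw [← Matrix.mul_assoc N⁻¹, Matrix.nonsing_inv_mul _ hu, Matrix.one_mul]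
    _ = N⁻¹ * (Y t * N) * N⁻¹ := by rw [h1]
    _ = N⁻¹ * Y t := by
        rw [Matrix.mul_assoc, Matrix.mul_assoc, Matrix.mul_nonsing_inv _ hu, Matrix.mul_one]

lemma inter_trans {s t u : S} {N N' : M2 K} (hN : Inter 𝔰 s t N) (hN' : Inter 𝔰 t u N') :
    Inter 𝔰 s u (N' * N) := by
  refine ⟨by rw [Matrix.det_mul]; exact mul_ne_zero hN'.1 hN.1, fun Y hY => ?_⟩
  rw [← Matrix.mul_assoc, hN'.2 Y hY, Matrix.mul_assoc, hN.2 Y hY, Matrix.mul_assoc]

include h in
/-- two components that are zero at the same time are equivalent -/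
theorem exists_inter {s t : S} (hs : S1 s) (ht : S1 t) (hst : ∀ Y ∈ 𝔰, Y s = 0 → Y t = 0) :
    ∃ N, Inter 𝔰 s t N := by
  obtain ⟨E, hE, hEs⟩ := h.surj s hs (ee K) tr_ee
  obtain ⟨F, hF, hFs⟩ := h.surj s hs (ff K) tr_ff
  obtain ⟨H, hH, hHs⟩ := h.surj s hs (hh K) tr_hh
  have r1 : br (H t) (E t) = (2 : K) • E t := by
    have h1 := hst _ (𝔰.sub_mem (h.brm H hH E hE) (𝔰.smul_mem 2 hE)) (by
      simp only [Pi.sub_apply, Pi.smul_apply, brS, hHs, hEs, br_he, sub_self])
    exact sub_eq_zero.1 h1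
  have r2 : br (H t) (F t) = (-2 : K) • F t := by
    have h1 := hst _ (𝔰.sub_mem (h.brm H hH F hF) (𝔰.smul_mem (-2) hF)) (by
      simp only [Pi.sub_apply, Pi.smul_apply, brS, hHs, hFs, br_hf, sub_self])
    exact sub_eq_zero.1 h1
  have r3 : br (E t) (F t) = H t := by
    have h1 := hst _ (𝔰.sub_mem (h.brm E hE F hF) hH) (by
      simp only [Pi.sub_apply, brS, hHs, hEs, hFs, br_ef, sub_self])
    exact sub_eq_zero.1 h1
  have gen : ∀ Y ∈ 𝔰, Y t = (Y s 0 1) • E t + (Y s 1 0) • F t + (Y s 0 0) • H t := by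
    intro Y hY
    have h1 := hst _ (𝔰.sub_mem hY (𝔰.add_mem (𝔰.add_mem (𝔰.smul_mem (Y s 0 1) hE)
      (𝔰.smul_mem (Y s 1 0) hF)) (𝔰.smul_mem (Y s 0 0) hH))) (by
        simp only [Pi.sub_apply, Pi.add_apply, Pi.smul_apply, hEs, hFs, hHs]
        rw [← decomp (h.tr Y hY s), sub_self])
    exact sub_eq_zero.1 h1
  have hH0 : H t ≠ 0 := by
    intro h0
    have two : (2 : K) ≠ 0 := two_ne_zero
    have hE0 : E t = 0 := by
      rw [h0, br, Matrix.zero_mul, Matrix.mul_zero, sub_zero] at r1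
      exact (smul_eq_zero.1 r1.symm).resolve_left two
    have hF0 : F t = 0 := by
      rw [h0, br, Matrix.zero_mul, Matrix.mul_zero, sub_zero] at r2
      exact (smul_eq_zero.1 r2.symm).resolve_left (neg_ne_zero.2 two)
    obtain ⟨Y, hY, hYt⟩ := h.surj t ht (ee K) tr_ee
    have h1 := gen Y hY
    rw [hYt, h0, hE0, hF0, smul_zero, smul_zero, smul_zero, add_zero, add_zero] at h1
    have := congrFun (congrFun h1 0) 1
    simp [ee] at this
  obtain ⟨N, hN, n1, n2, n3⟩ := exists_N (h.tr E hE t) (h.tr F hF t) (h.tr H hH t) r1 r2 r3 hH0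
  refine ⟨N, hN, fun Y hY => ?_⟩
  rw [gen Y hY]
  conv_rhs => rw [decomp (h.tr Y hY s)]
  simp only [Matrix.add_mul, Matrix.mul_add, Matrix.smul_mul, Matrix.mul_smul, n1, n2, n3]

include h in
/-- if the component at `s` can be nonzero when the one at `t` is zero, it is arbitrary -/
theorem ideal {s t : S} (hs : S1 s) {Y₀ : S → M2 K} (hY₀ : Y₀ ∈ 𝔰) (ht : Y₀ t = 0)
    (h0 : Y₀ s ≠ 0) (Z : M2 K) (hZ : Z.trace = 0) : ∃ Y ∈ 𝔰, Y s = Z ∧ Y t = 0 := by
  have two : (2 : K) ≠ 0 := two_ne_zero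
  -- the ideal
  let I : Submodule K (M2 K) :=
    { carrier := {Z | ∃ Y ∈ 𝔰, Y s = Z ∧ Y t = 0}
      zero_mem' := ⟨0, 𝔰.zero_mem, rfl, rfl⟩
      add_mem' := by
        rintro a b ⟨Y, hY, rfl, h1⟩ ⟨Y', hY', rfl, h2⟩
        exact ⟨Y + Y', 𝔰.add_mem hY hY', rfl, by rw [Pi.add_apply, h1, h2, add_zero]⟩
      smul_mem' := by
        rintro c a ⟨Y, hY, rfl, h1⟩
        exact ⟨c • Y, 𝔰.smul_mem c hY, rfl, by rw [Pi.smul_apply, h1, smul_zero]⟩ }
  have hI : ∀ A : M2 K, A.trace = 0 → ∀ X ∈ I, br A X ∈ I := by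
    rintro A hA X ⟨Y, hY, rfl, h1⟩
    obtain ⟨Y', hY', rfl⟩ := h.surj s hs A hA
    refine ⟨brS Y' Y, h.brm _ hY' _ hY, rfl, ?_⟩
    simp only [brS, h1, br, Matrix.mul_zero, Matrix.zero_mul, sub_zero]
  have hX : Y₀ s ∈ I := ⟨Y₀, hY₀, rfl, ht⟩
  have hXd := decomp (h.tr Y₀ hY₀ s)
  set X := Y₀ s with hXdef
  set α := X 0 1
  set β := X 1 0
  set γ := X 0 0
  -- it is enough to find `h`
  have fin : hh K ∈ I → Z ∈ I := by
    intro hh1
    have e1 : ee K ∈ I := by
      have := hI _ tr_ee _ hh1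
      have h2 : br (ee K) (hh K) = (-2 : K) • ee K := by
        rw [show br (ee K) (hh K) = - br (hh K) (ee K) by rw [br, br]; abel, br_he, neg_smul]
      rw [h2] at this
      have h3 := I.smul_mem (-2 : K)⁻¹ this
      rwa [smul_smul, inv_mul_cancel₀ (neg_ne_zero.2 two), one_smul] at h3
    have f1 : ff K ∈ I := by
      have := hI _ tr_ff _ hh1
      have h2 : br (ff K) (hh K) = (2 : K) • ff K := by
        rw [show br (ff K) (hh K) = - br (hh K) (ff K) by rw [br, br]; abel, br_hf, neg_smul,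
          neg_neg]
      rw [h2] at this
      have h3 := I.smul_mem (2 : K)⁻¹ this
      rwa [smul_smul, inv_mul_cancel₀ two, one_smul] at h3
    rw [decomp hZ]
    exact I.add_mem (I.add_mem (I.smul_mem _ e1) (I.smul_mem _ f1)) (I.smul_mem _ hh1)
  have ofe : ee K ∈ I → hh K ∈ I := by
    intro e1
    have h1 := I.neg_mem (hI _ tr_ff _ e1)
    have h2 : - br (ff K) (ee K) = hh K := by rw [← br_ef, br, br]; abel
    rwa [h2] at h1
  have off : ff K ∈ I → hh K ∈ I := by
    intro f1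
    have h1 := hI _ tr_ee _ f1
    rwa [br_ef] at h1
  have goal : hh K ∈ I := by
    by_cases hβ : β = 0
    · by_cases hα : α = 0
      · have hγ : γ ≠ 0 := by
          intro hγ
          apply h0
          rw [hXd, hα, hβ, hγ, zero_smul, zero_smul, zero_smul, add_zero, add_zero]
        have h1 := I.smul_mem γ⁻¹ hX
        rw [hXd, hα, hβ, zero_smul, zero_smul, zero_add, zero_add, smul_smul,
          inv_mul_cancel₀ hγ, one_smul] at h1
        exact h1
      · apply off
        have h1 := hI _ tr_ff _ (hI _ tr_ff _ hX)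
        have h2 : br (ff K) (br (ff K) X) = (-2 * α) • ff K := by
          rw [hXd, hβ]
          ext i j
          fin_cases i <;> fin_cases j <;>
            simp [br, ee, ff, hh, Matrix.mul_apply, Fin.sum_univ_two]
          ring
        rw [h2] at h1
        have h3 := I.smul_mem (-2 * α)⁻¹ h1
        rwa [smul_smul, inv_mul_cancel₀ (mul_ne_zero (neg_ne_zero.2 two) hα), one_smul] at h3
    · apply ofe
      have h1 := hI _ tr_ee _ (hI _ tr_ee _ hX)
      have h2 : br (ee K) (br (ee K) X) = (-2 * β) • ee K := by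
        rw [hXd]
        ext i j
        fin_cases i <;> fin_cases j <;>
          simp [br, ee, ff, hh, Matrix.mul_apply, Fin.sum_univ_two]
        ring
      rw [h2] at h1
      have h3 := I.smul_mem (-2 * β)⁻¹ h1
      rwa [smul_smul, inv_mul_cancel₀ (mul_ne_zero (neg_ne_zero.2 two) hβ), one_smul] at h3
  exact fin goal

include h in
/-- independence of pairwise inequivalent components -/
theorem indep [DecidableEq S] {r : S} (hr : S1 r) (T : Finset S) (hT : ∀ t ∈ T, S1 t)
    (hne : ∀ t ∈ T, ∀ N, ¬ Inter 𝔰 t r N) (Z : M2 K) (hZ : Z.trace = 0) :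
    ∃ Y ∈ 𝔰, Y r = Z ∧ ∀ t ∈ T, Y t = 0 := by
  have two : (2 : K) ≠ 0 := two_ne_zero
  induction T using Finset.induction_on generalizing Z with
  | empty =>
    obtain ⟨Y, hY, hYr⟩ := h.surj r hr Z hZ
    exact ⟨Y, hY, hYr, fun t ht => absurd ht (Finset.notMem_empty t)⟩
  | insert a T ha ih =>
    have ih' := ih (fun t ht => hT t (Finset.mem_insert_of_mem ht))
      (fun t ht => hne t (Finset.mem_insert_of_mem ht))
    have haS := hT a (Finset.mem_insert_self a T)
    obtain ⟨Y₀, hY₀, h1, h2⟩ : ∃ Y ∈ 𝔰, Y a = 0 ∧ Y r ≠ 0 := by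
      by_contra hcon
      push Not at hcon
      obtain ⟨N, hN⟩ := exists_inter h haS hr hcon
      exact hne a (Finset.mem_insert_self a T) N hN
    have hb : ∀ A B : M2 K, A.trace = 0 → B.trace = 0 →
        ∃ Y ∈ 𝔰, Y r = br A B ∧ ∀ t ∈ insert a T, Y t = 0 := by
      intro A B hA hB
      obtain ⟨Y1, hY1, hY1r, hY1T⟩ := ih' A hA
      obtain ⟨Y2, hY2, hY2r, hY2a⟩ := ideal h hr hY₀ h1 h2 B hB
      refine ⟨brS Y1 Y2, h.brm _ hY1 _ hY2, by simp only [brS, hY1r, hY2r], fun t ht => ?_⟩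
      rcases Finset.mem_insert.1 ht with rfl | ht'
      · simp only [brS, hY2a, br, Matrix.mul_zero, Matrix.zero_mul, sub_zero]
      · simp only [brS, hY1T t ht', br, Matrix.mul_zero, Matrix.zero_mul, sub_zero]
    obtain ⟨E, hE, hEr, hET⟩ := hb (hh K) (ee K) tr_hh tr_ee
    obtain ⟨F, hF, hFr, hFT⟩ := hb (hh K) (ff K) tr_hh tr_ff
    obtain ⟨H, hH, hHr, hHT⟩ := hb (ee K) (ff K) tr_ee tr_ff
    refine ⟨(Z 0 1 * 2⁻¹) • E + (Z 1 0 * (-2)⁻¹) • F + Z 0 0 • H,
      𝔰.add_mem (𝔰.add_mem (𝔰.smul_mem _ hE) (𝔰.smul_mem _ hF)) (𝔰.smul_mem _ hH), ?_, ?_⟩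
    · simp only [Pi.add_apply, Pi.smul_apply, hEr, hFr, hHr, br_he, br_hf, br_ef]
      rw [smul_smul, smul_smul, mul_assoc, inv_mul_cancel₀ two, mul_one, mul_assoc,
        inv_mul_cancel₀ (neg_ne_zero.2 two), mul_one]
      exact (decomp hZ).symm
    · intro t ht
      simp only [Pi.add_apply, Pi.smul_apply, hET t ht, hFT t ht, hHT t ht, smul_zero, add_zero]

/-- the family of complex (or other) matrices given by a family over `K` -/
def up (R : Type*) [CommRing R] [Algebra K R] (Y : S → M2 K) : S → M2 R :=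
  fun s => (Y s).map (algebraMap K R)

include h in
/-- A family of traceless matrices over an extension, which satisfies the relations between the
components of `𝔰`, is a linear combination of elements of `𝔰`. -/
theorem goursat [Fintype S] {R : Type*} [Field R] [Algebra K R] (D : S → M2 R)
    (htr : ∀ s, (D s).trace = 0) (hzero : ∀ s, ¬ S1 s → D s = 0)
    (hrel : ∀ s t N, S1 s → S1 t → Inter 𝔰 s t N →
      D t * N.map (algebraMap K R) = N.map (algebraMap K R) * D s) :
    D ∈ Submodule.span R {W | ∃ Y ∈ 𝔰, W = up R Y} := by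
  classical
  haveI : CharZero R := charZero_of_injective_algebraMap (algebraMap K R).injective
  -- representatives
  let st : Setoid {s // S1 s} :=
    { r := fun s t => ∃ N, Inter 𝔰 s.1 t.1 N
      iseqv := ⟨fun s => ⟨1, inter_refl _⟩, fun ⟨N, hN⟩ => ⟨N⁻¹, inter_symm hN⟩,
        fun ⟨N, hN⟩ ⟨N', hN'⟩ => ⟨N' * N, inter_trans hN hN'⟩⟩ }
  let rep : {s // S1 s} → {s // S1 s} := fun s => (Quotient.mk st s).out
  have hrep : ∀ s, ∃ N, Inter 𝔰 (rep s).1 s.1 N := fun s => Quotient.mk_out s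
  have hrr : ∀ s, rep (rep s) = rep s := fun s => by
    change (Quotient.mk st (Quotient.mk st s).out).out = _
    rw [Quotient.out_eq]
  have hinj : ∀ s t : {s // S1 s}, (∃ N, Inter 𝔰 s.1 t.1 N) → rep s = rep t := fun s t hN => by
    change (Quotient.mk st s).out = (Quotient.mk st t).out
    rw [Quotient.sound (a := s) (b := t) hN]
  let Rp : Finset {s // S1 s} := Finset.univ.filter fun r => rep r = r
  have key : ∀ (r : {s // S1 s}), ∀ Z : M2 K, Z.trace = 0 →
      ∃ Y ∈ 𝔰, Y r.1 = Z ∧ ∀ t ∈ Rp, t ≠ r → rep r = r → Y t.1 = 0 := by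
    intro r Z hZ
    by_cases hr : rep r = r
    · obtain ⟨Y, hY, h1, h2⟩ := indep h r.2 ((Rp.erase r).image Subtype.val) (by
        intro t ht
        obtain ⟨t', _, rfl⟩ := Finset.mem_image.1 ht
        exact t'.2) (by
        intro t ht N hN
        obtain ⟨t', ht', rfl⟩ := Finset.mem_image.1 ht
        obtain ⟨h3, h4⟩ := Finset.mem_erase.1 ht'
        have h5 := hinj t' r ⟨N, hN⟩
        rw [(Finset.mem_filter.1 h4).2, hr] at h5
        exact h3 h5) Z hZ
      refine ⟨Y, hY, h1, fun t ht htr _ => h2 t.1 (Finset.mem_image.2 ⟨t, ?_, rfl⟩)⟩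
      exact Finset.mem_erase.2 ⟨htr, ht⟩
    · obtain ⟨Y, hY, h1⟩ := h.surj r.1 r.2 Z hZ
      exact ⟨Y, hY, h1, fun t _ _ h3 => absurd h3 hr⟩
  choose! E hE hEr hET using fun r => key r (ee K) tr_ee
  choose! F hF hFr hFT using fun r => key r (ff K) tr_ff
  choose! H hH hHr hHT using fun r => key r (hh K) tr_hh
  have hD : D = ∑ r ∈ Rp, (D r.1 0 1 • up R (E r) + D r.1 1 0 • up R (F r) +
      D r.1 0 0 • up R (H r)) := by
    -- first at the representatives
    have h1 : ∀ r ∈ Rp, (∑ q ∈ Rp, (D q.1 0 1 • up R (E q) + D q.1 1 0 • up R (F q) +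
        D q.1 0 0 • up R (H q))) r.1 = D r.1 := by
      intro r hr
      rw [Finset.sum_apply, Finset.sum_eq_single r]
      · simp only [Pi.add_apply, Pi.smul_apply, up, hEr, hFr, hHr]
        have h2 : (ee K).map (algebraMap K R) = ee R := by
          ext i j; fin_cases i <;> fin_cases j <;> simp [ee]
        have h3 : (ff K).map (algebraMap K R) = ff R := by
          ext i j; fin_cases i <;> fin_cases j <;> simp [ff]
        have h4 : (hh K).map (algebraMap K R) = hh R := by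
          ext i j; fin_cases i <;> fin_cases j <;> simp [hh]
        rw [h2, h3, h4]
        exact (decomp (htr r.1)).symm
      · intro q hq hqr
        have hq' : rep q = q := (Finset.mem_filter.1 hq).2
        simp only [Pi.add_apply, Pi.smul_apply, up, hET q r hr (Ne.symm hqr) hq',
          hFT q r hr (Ne.symm hqr) hq', hHT q r hr (Ne.symm hqr) hq', Matrix.map_zero, map_zero,
          smul_zero, add_zero]
      · intro h2
        exact absurd hr h2
    -- the relations for the right hand side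
    have h2 : ∀ s t N, Inter 𝔰 s t N → ∀ W ∈ Submodule.span R {W | ∃ Y ∈ 𝔰, W = up R Y},
        W t * N.map (algebraMap K R) = N.map (algebraMap K R) * W s := by
      intro s t N hN W hW
      induction hW using Submodule.span_induction with
      | mem W hW =>
        obtain ⟨Y, hY, rfl⟩ := hW
        simp only [up]
        rw [← Matrix.map_mul, ← Matrix.map_mul, hN.2 Y hY]
      | zero => simp
      | add a b _ _ ha hb => rw [Pi.add_apply, Pi.add_apply, Matrix.add_mul, Matrix.mul_add, ha, hb]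
      | smul c a _ ha => rw [Pi.smul_apply, Pi.smul_apply, Matrix.smul_mul, Matrix.mul_smul, ha]
    have h3 : (∑ q ∈ Rp, (D q.1 0 1 • up R (E q) + D q.1 1 0 • up R (F q) +
        D q.1 0 0 • up R (H q))) ∈ Submodule.span R {W | ∃ Y ∈ 𝔰, W = up R Y} := by
      refine Submodule.sum_mem _ fun q _ => Submodule.add_mem _ (Submodule.add_mem _
        (Submodule.smul_mem _ _ (Submodule.subset_span ⟨_, hE q, rfl⟩))
        (Submodule.smul_mem _ _ (Submodule.subset_span ⟨_, hF q, rfl⟩)))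
        (Submodule.smul_mem _ _ (Submodule.subset_span ⟨_, hH q, rfl⟩))
    funext s
    by_cases hs : S1 s
    · obtain ⟨N, hN⟩ := hrep ⟨s, hs⟩
      have e1 := hrel _ _ N (rep ⟨s, hs⟩).2 hs hN
      have e2 := h2 _ _ N hN _ h3
      rw [h1 (rep ⟨s, hs⟩) (Finset.mem_filter.2 ⟨Finset.mem_univ _, hrr _⟩), ← e1] at e2
      have hu : IsUnit (N.map (algebraMap K R)).det := by
        rw [isUnit_iff_ne_zero]
        have : (N.map (algebraMap K R)).det = algebraMap K R N.det := by
          rw [Matrix.det_fin_two, Matrix.det_fin_two]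
          simp
        rw [this]
        exact (map_ne_zero _).2 hN.1
      have e3 := congrArg (fun M => M * (N.map (algebraMap K R))⁻¹) e2
      simp only [Matrix.mul_assoc] at e3
      rw [Matrix.mul_nonsing_inv _ hu, Matrix.mul_one, Matrix.mul_one] at e3
      exact e3.symm
    · rw [hzero s hs, Finset.sum_apply]
      symm
      refine Finset.sum_eq_zero fun q _ => ?_
      simp only [Pi.add_apply, Pi.smul_apply, up, h.zero s hs _ (hE q), h.zero s hs _ (hF q),
        h.zero s hs _ (hH q), Matrix.map_zero, map_zero, smul_zero, add_zero]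
  rw [hD]
  refine Submodule.sum_mem _ fun q _ => Submodule.add_mem _ (Submodule.add_mem _
    (Submodule.smul_mem _ _ (Submodule.subset_span ⟨_, hE q, rfl⟩))
    (Submodule.smul_mem _ _ (Submodule.subset_span ⟨_, hF q, rfl⟩)))
    (Submodule.smul_mem _ _ (Submodule.subset_span ⟨_, hH q, rfl⟩))

end Pool.Agent.W519.Q
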