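import Pool.Agent.W519.Q.Two
import Pool.Agent.W519.Q.Par

/-!
# Compatible maps are homomorphisms
-/

set_option autoImplicit false
set_option linter.unusedSectionVars false

namespace Pool.Agent.W519.Q

open NumberField Pool.Agent.H204R3.CM Pool.Agent.W547.KB Pool.Agent.W537.PC Matrix

noncomputable section

variable {L : Type} [Field L] [NumberField L] [IsCMField L] {P : PeriodSystem L}

/-- the degree two statement, for homomorphisms -/
def HomHodge (P : PeriodSystem L) : Prop :=
  ∀ A B : HS L, Good P A → Good P B → ∀ T : Matrix (Fin 2) (Fin 2) L,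
    (∀ χ : L →+* ℂ, ∃ M, AlgM M ∧ P.per B χ * T.map χ = M * P.per A χ) → IsHom A B T

theorem homHodge [IsGalois ℚ L] (h : DegreeTwo P) : HomHodge P := by
  intro A B hA hB T hT
  obtain ⟨S, hS⟩ := B.pol
  exact hom_of_hodge hS (pol_det hS) (h A B hA hB _ (drb_trf hB.1 hS hT))

theorem endHodge (h : HomHodge P) : EndHodge P :=
  fun A hA hs T hT => h A A ⟨hA, Or.inl hs⟩ ⟨hA, Or.inl hs⟩ T hT

end

end Pool.Agent.W519.Q
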