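import Pool.Agent.W519.Q.Sl

/-!
# Irreducible Lie algebras of matrices of size two
-/

set_option autoImplicit false
set_option linter.unusedSectionVars false

namespace Pool.Agent.W519.Q

open Matrix

variable {K : Type*} [Field K] [CharZero K]

/-- the traceless part -/
def tl (X : M2 K) : M2 K := X - (X.trace / 2) • (1 : M2 K)

lemma trace_tl (X : M2 K) : (tl X).trace = 0 := by
  have two : (2 : K) ≠ 0 := two_ne_zero
  rw [tl, Matrix.trace_sub, Matrix.trace_smul, Matrix.trace_one]
  simp

lemma tl_add_smul (X : M2 K) : X = tl X + (X.trace / 2) • (1 : M2 K) := by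
  rw [tl]; abel

lemma br_tl (X Y : M2 K) : br (tl X) (tl Y) = br X Y := by
  simp only [br, tl, Matrix.sub_mul, Matrix.mul_sub, Matrix.smul_mul, Matrix.mul_smul,
    Matrix.one_mul, Matrix.mul_one, smul_sub, smul_smul]
  rw [mul_comm (X.trace / 2)]
  abel

lemma tl_of_trace {X : M2 K} (h : X.trace = 0) : tl X = X := by
  rw [tl, h, zero_div, zero_smul, sub_zero]

/-- traceless parts, as a linear map -/
def tlL : M2 K →ₗ[K] M2 K where
  toFun := tl
  map_add' X Y := by
    simp only [tl, Matrix.trace_add, add_div, add_smul]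
    abel
  map_smul' c X := by
    simp only [tl, Matrix.trace_smul, smul_eq_mul, RingHom.id_apply, smul_sub, smul_smul, mul_div_assoc]

lemma tlL_apply (X : M2 K) : tlL X = tl X := rfl

/-- a functional on the matrices is given by a trace -/
lemma exists_tr (l : M2 K →ₗ[K] K) : ∃ A : M2 K, ∀ X, l X = (A * X).trace := by
  classical
  refine ⟨Matrix.of fun i j => l (Matrix.single j i 1), fun X => ?_⟩
  have h : X = ∑ i, ∑ j, X i j • Matrix.single i j (1 : K) := by
    conv_lhs => rw [Matrix.matrix_eq_sum_single X]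
    simp only [Matrix.smul_single, smul_eq_mul, mul_one]
  conv_lhs => rw [h]
  simp only [map_sum, map_smul, smul_eq_mul, Matrix.trace, Matrix.diag, Matrix.mul_apply,
    Matrix.of_apply]
  rw [Finset.sum_comm]
  exact Finset.sum_congr rfl fun i _ => Finset.sum_congr rfl fun j _ => mul_comm _ _

/-- a space of traceless matrices different from all is killed by a traceless matrix -/
lemma exists_perp (W : Submodule K (M2 K)) {Z : M2 K} (hZ : Z.trace = 0)
    (hW : ∀ X ∈ W, X.trace = 0) (h : Z ∉ W) :
    ∃ A : M2 K, A ≠ 0 ∧ A.trace = 0 ∧ ∀ X ∈ W, (A * X).trace = 0 := by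
  obtain ⟨l, hl1, hl2⟩ := Submodule.exists_le_ker_of_notMem h
  obtain ⟨A, hA⟩ := exists_tr l
  have key : ∀ X : M2 K, X.trace = 0 → (tl A * X).trace = l X := by
    intro X hX
    rw [hA, tl, Matrix.sub_mul, Matrix.smul_mul, Matrix.one_mul, Matrix.trace_sub,
      Matrix.trace_smul, hX, smul_zero, sub_zero]
  refine ⟨tl A, ?_, trace_tl A, fun X hX => ?_⟩
  · intro h0
    apply hl1
    rw [← key Z hZ, h0, Matrix.zero_mul, Matrix.trace_zero]
  · rw [key X (hW X hX)]
    exact hl2 hX

variable [IsAlgClosed K]

lemma exists_eigen (X : M2 K) : ∃ v : Fin 2 → K, v ≠ 0 ∧ ∃ μ : K, X *ᵥ v = μ • v := by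
  obtain ⟨μ, hμ⟩ := Module.End.exists_eigenvalue (Matrix.toLin' X)
  obtain ⟨v, hv⟩ := hμ.exists_hasEigenvector
  refine ⟨v, hv.2, μ, ?_⟩
  have := hv.apply_eq_smul
  rwa [Matrix.toLin'_apply] at this

/-- A space of matrices of size two closed under the bracket either has a common eigenvector or
generates all traceless matrices. -/
theorem dichotomy (G : Submodule K (M2 K)) (hG : ∀ X ∈ G, ∀ Y ∈ G, br X Y ∈ G) :
    (∃ v : Fin 2 → K, v ≠ 0 ∧ ∀ X ∈ G, ∃ μ : K, X *ᵥ v = μ • v) ∨
    ∀ Z : M2 K, Z.trace = 0 → Z ∈ Submodule.span K {W | ∃ X ∈ G, ∃ Y ∈ G, W = br X Y} := by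
  classical
  have two : (2 : K) ≠ 0 := two_ne_zero
  by_cases hall : ∀ Z : M2 K, Z.trace = 0 → Z ∈ G.map tlL
  · right
    have hb : ∀ A B : M2 K, A.trace = 0 → B.trace = 0 →
        br A B ∈ Submodule.span K {W | ∃ X ∈ G, ∃ Y ∈ G, W = br X Y} := by
      intro A B hA hB
      obtain ⟨X, hX, rfl⟩ := hall A hA
      obtain ⟨Y, hY, rfl⟩ := hall B hB
      refine Submodule.subset_span ⟨X, hX, Y, hY, ?_⟩
      rw [tlL_apply, tlL_apply, br_tl]
    intro Z hZ
    rw [decomp hZ]
    have h1 : ee K = (2 : K)⁻¹ • br (hh K) (ee K) := by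
      rw [br_he, smul_smul, inv_mul_cancel₀ two, one_smul]
    have h2 : ff K = (-2 : K)⁻¹ • br (hh K) (ff K) := by
      rw [br_hf, smul_smul, inv_mul_cancel₀ (neg_ne_zero.2 two), one_smul]
    have h3 : hh K = br (ee K) (ff K) := br_ef.symm
    have m1 : ee K ∈ Submodule.span K {W | ∃ X ∈ G, ∃ Y ∈ G, W = br X Y} := by
      rw [h1]
      exact Submodule.smul_mem _ _ (hb _ _ tr_hh tr_ee)
    have m2 : ff K ∈ Submodule.span K {W | ∃ X ∈ G, ∃ Y ∈ G, W = br X Y} := by
      rw [h2]
      exact Submodule.smul_mem _ _ (hb _ _ tr_hh tr_ff)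
    have m3 : hh K ∈ Submodule.span K {W | ∃ X ∈ G, ∃ Y ∈ G, W = br X Y} := by
      rw [h3]
      exact hb _ _ tr_ee tr_ff
    exact Submodule.add_mem _ (Submodule.add_mem _ (Submodule.smul_mem _ _ m1)
      (Submodule.smul_mem _ _ m2)) (Submodule.smul_mem _ _ m3)
  · left
    push Not at hall
    obtain ⟨Z, hZ, hZG⟩ := hall
    obtain ⟨A, hA0, hAt, hA⟩ := exists_perp (G.map tlL) hZ (by
      rintro X ⟨Y, _, rfl⟩
      exact trace_tl Y) hZG
    have hac : ∀ X ∈ G, tl X * A = - (A * tl X) := by
      intro X hX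
      have h1 := anti hAt (trace_tl X)
      have h0 : (A * tl X).trace = 0 := hA _ ⟨X, hX, rfl⟩
      rw [h0, zero_smul] at h1
      exact eq_neg_of_add_eq_zero_right h1
    have hev : ∀ v : Fin 2 → K, (∀ X ∈ G, ∃ μ : K, tl X *ᵥ v = μ • v) →
        ∀ X ∈ G, ∃ μ : K, X *ᵥ v = μ • v := by
      intro v hv X hX
      obtain ⟨μ, hμ⟩ := hv X hX
      refine ⟨μ + X.trace / 2, ?_⟩
      conv_lhs => rw [tl_add_smul X]
      rw [Matrix.add_mulVec, hμ, Matrix.smul_mulVec, Matrix.one_mulVec, add_smul]
    by_cases hdet : A.det = 0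
    · have hA2 : A * A = 0 := by
        have h1 := anti hAt hAt
        have h2 : (A * A).trace = 0 := by
          rw [Matrix.det_fin_two] at hdet
          rw [Matrix.trace_fin_two] at hAt
          rw [Matrix.trace_fin_two, Matrix.mul_apply, Matrix.mul_apply, Fin.sum_univ_two,
            Fin.sum_univ_two]
          linear_combination (A 0 0 + A 1 1) * hAt - 2 * hdet
        rw [h2, zero_smul] at h1
        have : (2 : K) • (A * A) = 0 := by rw [two_smul]; exact h1
        exact (smul_eq_zero.1 this).resolve_left two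
      obtain ⟨u, hu⟩ : ∃ u : Fin 2 → K, A *ᵥ u ≠ 0 := by
        by_contra hcon
        push Not at hcon
        apply hA0
        apply Matrix.ext_of_mulVec_single
        intro i
        rw [hcon, Matrix.zero_mulVec]
      refine ⟨A *ᵥ u, hu, hev _ fun X hX => ?_⟩
      have h1 : tl X *ᵥ (A *ᵥ u) = A *ᵥ (- (tl X *ᵥ u)) := by
        rw [Matrix.mulVec_mulVec, hac X hX, Matrix.neg_mulVec, Matrix.mulVec_neg,
          Matrix.mulVec_mulVec]
      -- the image of `A` is one-dimensional
      have h2 : ∀ x : Fin 2 → K, ∃ μ : K, A *ᵥ x = μ • (A *ᵥ u) := by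
        intro x
        have hker : A *ᵥ (A *ᵥ x) = 0 := by rw [Matrix.mulVec_mulVec, hA2, Matrix.zero_mulVec]
        -- determinant of the pair `A x, A u`
        set p := A *ᵥ x with hp
        set q := A *ᵥ u with hq
        have hq2 : A *ᵥ q = 0 := by rw [hq, Matrix.mulVec_mulVec, hA2, Matrix.zero_mulVec]
        have hd : p 0 * q 1 = p 1 * q 0 := by
          by_contra hne
          apply hA0
          have hN : (Matrix.of ![![p 0, q 0], ![p 1, q 1]] : M2 K).det ≠ 0 := by
            rw [Matrix.det_fin_two]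
            simp only [Matrix.of_apply, Matrix.cons_val_zero, Matrix.cons_val_one]
            intro h5
            apply hne
            linear_combination h5
          have hz : A * (Matrix.of ![![p 0, q 0], ![p 1, q 1]] : M2 K) = 0 := by
            have e1 := congrFun hker 0
            have e2 := congrFun hker 1
            have e3 := congrFun hq2 0
            have e4 := congrFun hq2 1
            simp only [Matrix.mulVec, dotProduct, Fin.sum_univ_two, Pi.zero_apply] at e1 e2 e3 e4
            ext i j
            fin_cases i <;> fin_cases j <;>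
              simp [Matrix.mul_apply, Fin.sum_univ_two, e1, e2, e3, e4]
          have h5 := congrArg (fun M => M * (Matrix.of ![![p 0, q 0], ![p 1, q 1]] : M2 K)⁻¹) hz
          simp only [Matrix.zero_mul, Matrix.mul_assoc] at h5
          rwa [Matrix.mul_nonsing_inv _ (isUnit_iff_ne_zero.2 hN), Matrix.mul_one] at h5
        by_cases hq0 : q 0 = 0
        · have hq1 : q 1 ≠ 0 := by
            intro h5
            apply hu
            funext i
            fin_cases i
            · exact hq0
            · exact h5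
          refine ⟨p 1 / q 1, ?_⟩
          have h6 : p 0 = 0 := by
            rw [hq0, mul_zero] at hd
            exact (mul_eq_zero.1 hd).resolve_right hq1
          funext i
          fin_cases i
          · simp [hq0, h6]
          · simp [hq1]
        · refine ⟨p 0 / q 0, ?_⟩
          funext i
          fin_cases i
          · simp [hq0]
          · simp only [Pi.smul_apply, smul_eq_mul, Fin.mk_one]
            field_simp
            linear_combination -hd
      obtain ⟨μ, hμ⟩ := h2 (- (tl X *ᵥ u))
      exact ⟨μ, by rw [h1, hμ]⟩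
    · have hcomm : ∀ X ∈ G, ∀ Y ∈ G, tl X * tl Y = tl Y * tl X := by
        intro X hX Y hY
        have h1 : br (tl X) (tl Y) * A = A * br (tl X) (tl Y) := by
          have a := hac X hX
          have b := hac Y hY
          have c : tl X * tl Y * A = A * (tl X * tl Y) := by
            rw [Matrix.mul_assoc, b, Matrix.mul_neg, ← Matrix.mul_assoc, a, Matrix.neg_mul, neg_neg,
              Matrix.mul_assoc]
          have d : tl Y * tl X * A = A * (tl Y * tl X) := by
            rw [Matrix.mul_assoc, a, Matrix.mul_neg, ← Matrix.mul_assoc, b, Matrix.neg_mul, neg_neg,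
              Matrix.mul_assoc]
          rw [br, Matrix.sub_mul, Matrix.mul_sub, c, d]
        have h2 := hac _ (hG X hX Y hY)
        rw [tl_of_trace (trace_br X Y), ← br_tl] at h2
        have h3 : A * br (tl X) (tl Y) = 0 := by
          rw [h1] at h2
          have : (2 : K) • (A * br (tl X) (tl Y)) = 0 := by
            rw [two_smul]
            nth_rewrite 1 [h2]
            exact neg_add_cancel _
          exact (smul_eq_zero.1 this).resolve_left two
        have h4 : br (tl X) (tl Y) = 0 := by
          have h5 := congrArg (fun M => A⁻¹ * M) h3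
          simp only [Matrix.mul_zero, ← Matrix.mul_assoc] at h5
          rwa [Matrix.nonsing_inv_mul _ (isUnit_iff_ne_zero.2 hdet), Matrix.one_mul] at h5
        exact sub_eq_zero.1 h4
      by_cases hz : ∀ X ∈ G, tl X = 0
      · refine ⟨Pi.single 0 1, by
          intro h0
          have := congrFun h0 0
          simp at this, hev _ fun X hX => ⟨0, ?_⟩⟩
        rw [hz X hX, Matrix.zero_mulVec, zero_smul]
      · push Not at hz
        obtain ⟨X, hX, hX0⟩ := hz
        obtain ⟨v, hv, μ, hμ⟩ := exists_eigen (tl X)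
        refine ⟨v, hv, hev _ fun Y hY => ?_⟩
        obtain ⟨ν, hν⟩ := prop_of_comm (trace_tl X) (trace_tl Y) (hcomm X hX Y hY) hX0
        exact ⟨ν * μ, by rw [hν, Matrix.smul_mulVec, hμ, smul_smul]⟩

end Pool.Agent.W519.Q
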