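import Pool.Agent.W519.Q.Coef
import Pool.Agent.W519.Q.Gour

/-!
# The Lie algebra of a form
-/

set_option autoImplicit false
set_option linter.unusedSectionVars false

namespace Pool.Agent.W519.Q

open NumberField Pool.Agent.H204R3.CM Pool.Agent.W547.KB Pool.Agent.W537.PC Matrix

noncomputable section

/-- the field of algebraic numbers -/
abbrev Kb : IntermediateField ℚ ℂ := algebraicClosure ℚ ℂ

instance : IsAlgClosed Kb := by
  have h := algebraicClosure.isAlgClosure ℚ ℂ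
  exact h.isAlgClosed

lemma alg_iff {x : ℂ} : IsAlgebraic ℚ x ↔ ∃ y : Kb, (y : ℂ) = x :=
  ⟨fun h => ⟨⟨x, mem_algebraicClosure_iff.2 h⟩, rfl⟩, fun ⟨y, hy⟩ => by
    rw [← hy]
    exact mem_algebraicClosure_iff.1 y.2⟩

lemma alg_coe (y : Kb) : IsAlgebraic ℚ (y : ℂ) := mem_algebraicClosure_iff.1 y.2

variable {L : Type} [Field L] [NumberField L] [IsCMField L]
variable {I : Type} [Fintype I] {κ : Type} [Fintype κ] [DecidableEq κ]

lemma emb_alg (φ : L →+* ℂ) (x : L) : IsAlgebraic ℚ (φ x) :=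
  (Algebra.IsAlgebraic.isAlgebraic x).algHom φ.toRatAlgHom

/-- the slots -/
abbrev Sl (I : Type) (L : Type) [Field L] : Type := I × (L →+* ℂ)

instance : DecidableEq (Sl I L × Fin 2) := Classical.decEq _
instance : DecidableEq (Sl I L) := Classical.decEq _

/-- the equations for the Lie algebra of the form with coefficients `b` -/
structure HH (A : I → HS L) (Sp : I → Matrix (Fin 2) (Fin 2) L) (w : ℤ)
    (b : (κ → Sl I L × Fin 2) → ℂ) (Y : Sl I L → M2 ℂ) (y : ℂ) : Prop where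
  ac : ActC Y (w * y) b
  pol : ∀ i φ, (Y (i, φ))ᵀ * (Sp i).map φ + (Sp i).map φ * Y (i, ComplexEmbedding.conjugate φ) =
    y • (Sp i).map φ
  sq : ∀ i, (A i).IsSquare → ∀ φ, tl (Y (i, φ)) = 0

variable {A : I → HS L} {Sp : I → Matrix (Fin 2) (Fin 2) L} {b : (κ → Sl I L × Fin 2) → ℂ} {w : ℤ}

lemma HH.add {Y Z : Sl I L → M2 ℂ} {y z : ℂ} (hY : HH A Sp w b Y y) (hZ : HH A Sp w b Z z) :
    HH A Sp w b (Y + Z) (y + z) := by
  refine ⟨by rw [mul_add]; exact actC_add hY.ac hZ.ac, fun i φ => ?_, fun i hi φ => ?_⟩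
  · rw [Pi.add_apply, Pi.add_apply, Matrix.transpose_add, add_smul, ← hY.pol, ← hZ.pol,
      Matrix.add_mul, Matrix.mul_add]
    abel
  · have h1 := hY.sq i hi φ
    have h2 := hZ.sq i hi φ
    rw [← tlL_apply] at h1 h2 ⊢
    rw [Pi.add_apply, map_add, h1, h2, add_zero]

lemma HH.smul (r : ℂ) {Y : Sl I L → M2 ℂ} {y : ℂ} (hY : HH A Sp w b Y y) :
    HH A Sp w b (r • Y) (r * y) := by
  refine ⟨by rw [mul_left_comm]; exact actC_smul r hY.ac, fun i φ => ?_, fun i hi φ => ?_⟩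
  · rw [Pi.smul_apply, Pi.smul_apply, Matrix.transpose_smul, mul_smul, ← hY.pol,
      Matrix.smul_mul, Matrix.mul_smul, smul_add]
  · have h1 := hY.sq i hi φ
    rw [← tlL_apply] at h1 ⊢
    rw [Pi.smul_apply, map_smul, h1, smul_zero]

lemma HH.zero : HH A Sp w b 0 0 := by
  refine ⟨by rw [mul_zero]; exact actC_zero b, fun i φ => by simp, fun i _ φ => ?_⟩
  rw [← tlL_apply]
  simp

lemma HH.brk {Y Z : Sl I L → M2 ℂ} {y z : ℂ} (hY : HH A Sp w b Y y) (hZ : HH A Sp w b Z z) :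
    HH A Sp w b (brS Y Z) 0 := by
  refine ⟨by rw [mul_zero]; exact actC_bracket hY.ac hZ.ac, fun i φ => ?_, fun i hi φ => ?_⟩
  · have h1 := hY.pol i φ
    have h2 := hZ.pol i φ
    set S := (Sp i).map φ
    set Y1 := Y (i, φ)
    set Z1 := Z (i, φ)
    set Y2 := Y (i, ComplexEmbedding.conjugate φ)
    set Z2 := Z (i, ComplexEmbedding.conjugate φ)
    have e1 : Y1ᵀ * S = y • S - S * Y2 := eq_sub_of_add_eq h1
    have e2 : Z1ᵀ * S = z • S - S * Z2 := eq_sub_of_add_eq h2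
    change (br Y1 Z1)ᵀ * S + S * br Y2 Z2 = (0 : ℂ) • S
    rw [zero_smul, br_apply, br_apply, Matrix.transpose_sub, Matrix.transpose_mul,
      Matrix.transpose_mul, Matrix.sub_mul, Matrix.mul_assoc, Matrix.mul_assoc, e1, e2,
      Matrix.mul_sub, Matrix.mul_sub, Matrix.mul_smul, Matrix.mul_smul, ← Matrix.mul_assoc Z1ᵀ,
      ← Matrix.mul_assoc Y1ᵀ, e1, e2, Matrix.sub_mul, Matrix.sub_mul, Matrix.smul_mul,
      Matrix.smul_mul, Matrix.mul_sub, smul_sub, smul_sub, smul_comm y z, Matrix.mul_assoc,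
      Matrix.mul_assoc]
    abel
  · have h1 := hY.sq i hi φ
    have h2 := hZ.sq i hi φ
    change tl (br (Y (i, φ)) (Z (i, φ))) = 0
    rw [tl_of_trace (trace_br _ _), ← br_tl, h1, h2, br_apply, Matrix.zero_mul, sub_zero]

lemma tl_zero_iff (M : M2 ℂ) : tl M = 0 ↔ M 0 1 = 0 ∧ M 1 0 = 0 ∧ M 0 0 = M 1 1 := by
  constructor
  · intro h
    have a := congrFun (congrFun h 0) 1
    have b := congrFun (congrFun h 1) 0
    have c := congrFun (congrFun h 0) 0
    simp [tl, Matrix.trace_fin_two] at a b c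
    exact ⟨a, b, by linear_combination 2 * c⟩
  · rintro ⟨a, b, c⟩
    ext i j
    fin_cases i <;> fin_cases j <;> simp [tl, Matrix.trace_fin_two, a, b, c]

variable [IsGalois ℚ L]

lemma map_conj_act (τ : ℂ ≃+* ℂ) (φ : L →+* ℂ) :
    act τ (ComplexEmbedding.conjugate φ) = ComplexEmbedding.conjugate (act τ φ) := by
  ext x
  have h1 : ∀ (ψ : L →+* ℂ) (y : L), ComplexEmbedding.conjugate ψ y = ψ (cc L y) := by
    intro ψ y
    rw [emb_cc, ComplexEmbedding.conjugate_coe_eq]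
  rw [act_apply, h1, h1, act_apply]

lemma act_symm_act (τ : ℂ ≃+* ℂ) (φ : L →+* ℂ) : act τ.symm (act τ φ) = φ := by
  ext x
  simp [act_apply]

lemma act_act_symm (τ : ℂ ≃+* ℂ) (φ : L →+* ℂ) : act τ (act τ.symm φ) = φ := by
  ext x
  simp [act_apply]

/-- the action on families of matrices -/
def galM (τ : ℂ ≃+* ℂ) (Y : Sl I L → M2 ℂ) : Sl I L → M2 ℂ :=
  fun s => (Y (actS τ.symm s)).map τ

lemma map_map_emb (τ : ℂ ≃+* ℂ) (φ : L →+* ℂ) (S : Matrix (Fin 2) (Fin 2) L) :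
    (S.map φ).map τ = S.map (act τ φ) := by
  ext i j
  rfl

lemma HH.gal (hb : ∀ (τ : ℂ ≃+* ℂ) (J : κ → Sl I L × Fin 2), b (fun k => actX τ (J k)) = τ (b J))
    (τ : ℂ ≃+* ℂ) {Y : Sl I L → M2 ℂ} {y : ℂ} (hY : HH A Sp w b Y y) :
    HH A Sp w b (galM τ Y) (τ y) := by
  refine ⟨fun J => ?_, fun i φ => ?_, fun i hi φ => ?_⟩
  · have h1 := congrArg τ (hY.ac (fun k => actX τ.symm (J k)))
    have hJ : (fun k => actX τ (actX τ.symm (J k))) = J := by
      funext k
      simp only [actX, actS, act_act_symm]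
    rw [map_mul, ← hb, hJ, map_sum, map_mul, map_intCast] at h1
    rw [← h1]
    refine Finset.sum_congr rfl fun k _ => ?_
    rw [map_sum]
    refine Finset.sum_congr rfl fun c _ => ?_
    rw [map_mul, ← hb]
    congr 2
    funext l
    by_cases h : l = k
    · subst h
      simp [actX, actS, act_act_symm]
    · simp [actX, actS, act_act_symm, h]
  · have h1 := congrArg (fun M => M.map τ) (hY.pol i (act τ.symm φ))
    have hconj : ComplexEmbedding.conjugate (act τ.symm φ) = act τ.symm (ComplexEmbedding.conjugate φ) :=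
      (map_conj_act τ.symm φ).symm
    have e1 : ∀ M N : M2 ℂ, (M * N).map τ = M.map τ * N.map τ := fun M N => Matrix.map_mul
    have e2 : ∀ M N : M2 ℂ, (M + N).map τ = M.map τ + N.map τ := fun M N => by
      ext i j; simp
    have e3 : ∀ (r : ℂ) (M : M2 ℂ), (r • M).map τ = τ r • M.map τ := fun r M => by
      ext i j; simp
    simp only [e1, e2, e3, map_map_emb, act_act_symm, hconj] at h1
    exact h1
  · have h1 := hY.sq i hi (act τ.symm φ)
    rw [tl_zero_iff] at h1 ⊢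
    simp only [galM, actS, Matrix.map_apply, h1.1, h1.2.1, h1.2.2, map_zero, and_self]

/-- applying a functional with algebraic values -/
def lamM (lam : ℂ →ₗ[Kb] Kb) (Y : Sl I L → M2 ℂ) : Sl I L → M2 Kb :=
  fun s => (Y s).map lam

lemma lam_mul (lam : ℂ →ₗ[Kb] Kb) (x : ℂ) {a : ℂ} (ha : IsAlgebraic ℚ a) :
    ((lam (a * x) : Kb) : ℂ) = a * lam x := by
  obtain ⟨c, rfl⟩ := alg_iff.1 ha
  have : ((c : ℂ) * x) = c • x := rfl
  rw [this, map_smul]
  rfl

lemma lam_mul' (lam : ℂ →ₗ[Kb] Kb) (x : ℂ) {a : ℂ} (ha : IsAlgebraic ℚ a) :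
    ((lam (x * a) : Kb) : ℂ) = lam x * a := by
  rw [mul_comm, lam_mul lam x ha, mul_comm]

lemma HH.lam (hb : ∀ J, IsAlgebraic ℚ (b J)) (lam : ℂ →ₗ[Kb] Kb) {Y : Sl I L → M2 ℂ} {y : ℂ}
    (hY : HH A Sp w b Y y) : HH A Sp w b (up ℂ (lamM lam Y)) (lam y : Kb) := by
  refine ⟨fun J => ?_, fun i φ => ?_, fun i hi φ => ?_⟩
  · have h1 := congrArg (fun x => ((lam x : Kb) : ℂ)) (hY.ac J)
    simp only [map_sum, lam_mul' lam _ (hb J)] at h1
    have h0 : ((lam ((w : ℂ) * y) : Kb) : ℂ) = w * lam y := by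
      rw [show (w : ℂ) * y = w • y by rw [zsmul_eq_mul], map_zsmul, zsmul_eq_mul]
      push_cast
      rfl
    rw [h0] at h1
    rw [← h1]
    push_cast
    refine Finset.sum_congr rfl fun k _ => Finset.sum_congr rfl fun c _ => ?_
    rw [lam_mul lam _ (hb _)]
    rfl
  · ext p q
    have h1 := congrArg (fun M : M2 ℂ => ((lam (M p q) : Kb) : ℂ)) (hY.pol i φ)
    simp only [Matrix.add_apply, Matrix.mul_apply, Fin.sum_univ_two, Matrix.transpose_apply,
      Matrix.map_apply, Matrix.smul_apply, smul_eq_mul, map_add] at h1 ⊢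
    push_cast at h1
    rw [lam_mul' lam _ (emb_alg φ _), lam_mul' lam _ (emb_alg φ _), lam_mul lam _ (emb_alg φ _),
      lam_mul lam _ (emb_alg φ _), lam_mul' lam _ (emb_alg φ _)] at h1
    exact h1
  · have h1 := hY.sq i hi φ
    rw [tl_zero_iff] at h1 ⊢
    simp only [up, lamM, Matrix.map_apply, h1.1, h1.2.1, h1.2.2, map_zero, and_self]

end

end Pool.Agent.W519.Q
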