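import Pool.Agent.W519.Q.Sub

/-!
# Relations between the components of the Lie algebra
-/

set_option autoImplicit false
set_option linter.unusedSectionVars false

namespace Pool.Agent.W519.Q

open NumberField Pool.Agent.H204R3.CM Pool.Agent.W547.KB Pool.Agent.W537.PC Matrix

noncomputable section

variable {L : Type} [Field L] [NumberField L] [IsCMField L]
variable {I : Type} [Fintype I] {κ : Type} [Fintype κ] [DecidableEq κ]
variable [IsGalois ℚ L]
variable {P : PeriodSystem L} {A : I → HS L} {Sp : I → Matrix (Fin 2) (Fin 2) L} {w : ℤ}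
  {b : (κ → Sl I L × Fin 2) → ℂ}

/-- the matrix `N` over the complex numbers transforms the component at `s` of the Lie algebra into
the component at `t` -/
structure IC (A : I → HS L) (Sp : I → Matrix (Fin 2) (Fin 2) L) (w : ℤ)
    (b : (κ → Sl I L × Fin 2) → ℂ) (s t : Sl I L) (N : M2 ℂ) : Prop where
  alg : AlgM N
  det : N.det ≠ 0
  eq : ∀ V : Sl I L → M2 ℂ, HH A Sp w b V 0 → (∀ s, (V s).trace = 0) → V t * N = N * V s

lemma matrix_ext_lam {M N : M2 ℂ} (h : ∀ (lam : ℂ →ₗ[Kb] Kb) i j, lam (M i j) = lam (N i j)) :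
    M = N := by
  ext i j
  rw [← sub_eq_zero]
  apply lam_sep
  intro lam
  rw [map_sub, h, sub_self]

lemma inter_ic (hb : ∀ J, IsAlgebraic ℚ (b J)) {s t : Sl I L} {N : M2 Kb}
    (hN : Inter (sL A Sp w b) s t N) : IC A Sp w b s t (mp N) := by
  refine ⟨mp_alg N, ?_, fun V hV htr => ?_⟩
  · rw [mp_det]
    exact_mod_cast hN.1
  · refine matrix_ext_lam fun lam i j => ?_
    have h1 : lamM lam V ∈ sL A Sp w b := by
      rw [mem_sL]
      refine ⟨?_, fun s => ?_⟩
      · have := hV.lam hb lam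
        rw [map_zero] at this
        exact this
      · have h2 := congrArg lam (htr s)
        rw [Matrix.trace_fin_two, map_add, map_zero] at h2
        rw [Matrix.trace_fin_two]
        exact h2
    have h2 := congrFun (congrFun (hN.2 _ h1) i) j
    simp only [Matrix.mul_apply, Fin.sum_univ_two, lamM, Matrix.map_apply] at h2 ⊢
    apply Subtype.ext
    have h3 := congrArg (fun x : Kb => (x : ℂ)) h2
    rw [map_add, map_add]
    push_cast at h3 ⊢
    rw [lam_mul' lam _ (mp_alg N _ _), lam_mul' lam _ (mp_alg N _ _),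
      lam_mul lam _ (mp_alg N _ _), lam_mul lam _ (mp_alg N _ _)]
    exact h3

/-- the conjugates of a relation -/
lemma IC.gal (hb : ∀ (τ : ℂ ≃+* ℂ) (J : κ → Sl I L × Fin 2), b (fun k => actX τ (J k)) = τ (b J))
    {s t : Sl I L} {N : M2 ℂ} (hN : IC A Sp w b s t N) (τ : ℂ ≃+* ℂ) :
    IC A Sp w b (actS τ s) (actS τ t) (N.map τ) := by
  refine ⟨fun i j => ?_, ?_, fun V hV htr => ?_⟩
  · exact (hN.alg i j).algHom ((τ : ℂ →+* ℂ).toRatAlgHom)
  · have h1 : (N.map τ).det = τ N.det := by
      rw [Matrix.det_fin_two, Matrix.det_fin_two]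
      simp
    rw [h1]
    exact (map_ne_zero τ).2 hN.det
  · have h1 : HH A Sp w b (galM τ.symm V) 0 := by
      have := hV.gal hb τ.symm
      rwa [map_zero] at this
    have h2 := hN.eq _ h1 (fun s => by
      have := congrArg τ.symm (htr (actS τ.symm.symm s))
      rw [Matrix.trace_fin_two, map_add, map_zero] at this
      rw [Matrix.trace_fin_two]
      exact this)
    have h3 := congrArg (fun M => M.map τ) h2
    have e1 : ∀ M N : M2 ℂ, (M * N).map τ = M.map τ * N.map τ := fun M N => Matrix.map_mul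
    simp only [e1] at h3
    have e2 : ∀ s : Sl I L, (galM τ.symm V s).map τ = V (actS τ s) := by
      intro s
      ext i j
      simp [galM]
    rwa [e2, e2] at h3

/-- the difference between the two components is a scalar -/
theorem IC.scalar (hsub : Subdirect (sL A Sp w b) (fun s => ¬ (A s.1).IsSquare)) {s t : Sl I L}
    (hs : ¬ (A s.1).IsSquare) {N : M2 ℂ} (hN : IC A Sp w b s t N) {Y : Sl I L → M2 ℂ}
    {y : ℂ} (hY : HH A Sp w b Y y) : ∃ r : ℂ, Y t * N = N * (Y s + r • (1 : M2 ℂ)) := by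
  have hu : IsUnit N.det := isUnit_iff_ne_zero.2 hN.det
  set Z := Y t * N - N * Y s with hZ
  have h1 : ∀ W : Sl I L → M2 Kb, W ∈ sL A Sp w b → (N⁻¹ * Z) * up ℂ W s = up ℂ W s * (N⁻¹ * Z) := by
    intro W hW
    have htr : ∀ s, (up ℂ W s).trace = 0 := by
      intro s
      have h2 := congrArg (algebraMap Kb ℂ) (hW.2 s)
      rw [Matrix.trace_fin_two, map_add, map_zero] at h2
      rw [Matrix.trace_fin_two]
      exact h2
    have h2 := hN.eq _ hW.1 htr
    have h3 := hN.eq _ (hY.brk hW.1) (fun s => trace_br _ _)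
    simp only [brS, br_apply] at h3
    have h4 : Z * up ℂ W s = up ℂ W t * Z := by
      rw [hZ]
      simp only [Matrix.sub_mul, Matrix.mul_sub, Matrix.mul_assoc] at h3 ⊢
      rw [← Matrix.mul_assoc (up ℂ W t) N, h2, ← h2, ← Matrix.mul_assoc (up ℂ W t) (Y t)] at *
      simp only [Matrix.mul_assoc] at h3 ⊢
      rw [← sub_eq_zero] at h3 ⊢
      rw [← h3, ← h2]
      abel
    calc N⁻¹ * Z * up ℂ W s = N⁻¹ * (up ℂ W t * Z) := by rw [Matrix.mul_assoc, h4]
      _ = N⁻¹ * (up ℂ W t * N) * (N⁻¹ * Z) := by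
        rw [Matrix.mul_assoc, Matrix.mul_assoc, ← Matrix.mul_assoc N, Matrix.mul_nonsing_inv _ hu,
          Matrix.one_mul]
      _ = up ℂ W s * (N⁻¹ * Z) := by
        rw [h2, ← Matrix.mul_assoc N⁻¹ N, Matrix.nonsing_inv_mul _ hu, Matrix.one_mul]
  have h2 : ∀ W : M2 ℂ, W.trace = 0 → (N⁻¹ * Z) * W = W * (N⁻¹ * Z) := by
    have key : ∀ E : M2 Kb, E.trace = 0 → (N⁻¹ * Z) * mp E = mp E * (N⁻¹ * Z) := by
      intro E hE
      obtain ⟨W, hW, hWs⟩ := hsub.surj s hs E hE
      have := h1 W hW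
      rw [up, hWs] at this
      exact this
    have e1 : mp (ee Kb) = ee ℂ := by
      ext i j; fin_cases i <;> fin_cases j <;> simp [ee, mp]
    have e2 : mp (ff Kb) = ff ℂ := by
      ext i j; fin_cases i <;> fin_cases j <;> simp [ff, mp]
    have e3 : mp (hh Kb) = hh ℂ := by
      ext i j; fin_cases i <;> fin_cases j <;> simp [hh, mp]
    have k1 := key _ tr_ee
    have k2 := key _ tr_ff
    have k3 := key _ tr_hh
    rw [e1] at k1
    rw [e2] at k2
    rw [e3] at k3
    intro W hW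
    rw [decomp hW]
    simp only [Matrix.mul_add, Matrix.add_mul, Matrix.mul_smul, Matrix.smul_mul, k1, k2, k3]
  have h3 := scalar_of_comm h2
  refine ⟨(N⁻¹ * Z) 0 0, ?_⟩
  have h4 : N * (N⁻¹ * Z) = Z := by
    rw [← Matrix.mul_assoc, Matrix.mul_nonsing_inv _ hu, Matrix.one_mul]
  rw [Matrix.mul_add, ← h3, h4, hZ]
  abel

/-- traceless parts satisfy the relations -/
theorem tl_rel {X X' N : M2 ℂ} {r : ℂ} (hN : N.det ≠ 0) (h : X' * N = N * (X + r • (1 : M2 ℂ))) :
    tl X' * N = N * tl X := by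
  have hu : IsUnit N.det := isUnit_iff_ne_zero.2 hN
  have h1 : X'.trace = X.trace + 2 * r := by
    have h2 : X' = N * (X + r • (1 : M2 ℂ)) * N⁻¹ := by
      rw [← h, Matrix.mul_assoc, Matrix.mul_nonsing_inv _ hu, Matrix.mul_one]
    rw [h2, Matrix.trace_mul_comm, ← Matrix.mul_assoc, Matrix.nonsing_inv_mul _ hu, Matrix.one_mul,
      Matrix.trace_add, Matrix.trace_smul, Matrix.trace_one]
    simp
    ring
  rw [tl, tl, Matrix.sub_mul, h, h1, Matrix.mul_add, Matrix.mul_sub, Matrix.smul_mul,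
    Matrix.one_mul, Matrix.mul_smul, Matrix.mul_one, Matrix.mul_smul, Matrix.mul_one, add_div,
    add_smul]
  have : (2 * r / 2) = r := by ring
  rw [this]
  abel

/-- families of traceless matrices satisfying the relations belong to the Lie algebra -/
theorem HH_of_rel (hsub : Subdirect (sL A Sp w b) (fun s => ¬ (A s.1).IsSquare))
    (hb : ∀ J, IsAlgebraic ℚ (b J)) (D : Sl I L → M2 ℂ)
    (htr : ∀ s, (D s).trace = 0) (hzero : ∀ s, (A s.1).IsSquare → D s = 0)
    (hrel : ∀ s t N, ¬ (A s.1).IsSquare → ¬ (A t.1).IsSquare → IC A Sp w b s t N →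
      D t * N = N * D s) : HH A Sp w b D 0 := by
  have h1 := goursat hsub D htr (fun s hs => hzero s (not_not.1 hs))
    (fun s t N hs ht hN => hrel s t _ hs ht (inter_ic hb hN))
  have h2 : ∀ D ∈ Submodule.span ℂ {W | ∃ Y ∈ sL A Sp w b, W = up ℂ Y}, HH A Sp w b D 0 := by
    intro D hD
    induction hD using Submodule.span_induction with
    | mem D hD =>
      obtain ⟨Y, hY, rfl⟩ := hD
      exact hY.1
    | zero => exact HH.zero
    | add x y _ _ hx hy =>
      have := hx.add hy
      rwa [add_zero] at this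
    | smul r x _ hx =>
      have := hx.smul r
      rwa [mul_zero] at this
  exact h2 D h1

/-- the traceless part of an element of the Lie algebra -/
theorem HH.tl' (hsub : Subdirect (sL A Sp w b) (fun s => ¬ (A s.1).IsSquare))
    (hb : ∀ J, IsAlgebraic ℚ (b J)) {Y : Sl I L → M2 ℂ} {y : ℂ} (hY : HH A Sp w b Y y) :
    HH A Sp w b (fun s => tl (Y s)) 0 := by
  refine HH_of_rel hsub hb _ (fun s => trace_tl _) (fun s hs => hY.sq s.1 hs s.2) ?_
  intro s t N hs ht hN
  obtain ⟨r, hr⟩ := hN.scalar hsub hs hY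
  exact tl_rel hN.det hr

/-- scalar elements -/
lemma actC_scalar {c : Sl I L → ℂ} {y : ℂ} (h : ActC (fun s => c s • (1 : M2 ℂ)) y b)
    (J : κ → Sl I L × Fin 2) (hJ : b J ≠ 0) : ∑ k, c (J k).1 = y := by
  have h1 := h J
  have h2 : ∀ k, ∑ a, b (Function.update J k ((J k).1, a)) * (c (J k).1 • (1 : M2 ℂ)) a (J k).2 =
      c (J k).1 * b J := by
    intro k
    rw [Finset.sum_eq_single (J k).2]
    · have : Function.update J k ((J k).1, (J k).2) = J := Function.update_eq_self k J
      rw [this]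
      simp [mul_comm]
    · intro a _ ha
      simp [Matrix.one_apply_ne ha]
    · intro h
      exact absurd (Finset.mem_univ _) h
  rw [Finset.sum_congr rfl (fun k _ => h2 k), ← Finset.sum_mul] at h1
  exact mul_right_cancel₀ hJ h1

lemma scalar_actC {c : Sl I L → ℂ} {y : ℂ}
    (h : ∀ J : κ → Sl I L × Fin 2, b J ≠ 0 → ∑ k, c (J k).1 = y) :
    ActC (fun s => c s • (1 : M2 ℂ)) y b := by
  intro J
  have h2 : ∀ k, ∑ a, b (Function.update J k ((J k).1, a)) * (c (J k).1 • (1 : M2 ℂ)) a (J k).2 =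
      c (J k).1 * b J := by
    intro k
    rw [Finset.sum_eq_single (J k).2]
    · have : Function.update J k ((J k).1, (J k).2) = J := Function.update_eq_self k J
      rw [this]
      simp [mul_comm]
    · intro a _ ha
      simp [Matrix.one_apply_ne ha]
    · intro h
      exact absurd (Finset.mem_univ _) h
  rw [Finset.sum_congr rfl (fun k _ => h2 k), ← Finset.sum_mul]
  by_cases hJ : b J = 0
  · rw [hJ, mul_zero, mul_zero]
  · rw [h J hJ]

/-- the traces of an element of the Lie algebra -/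
theorem HH.traces (hsub : Subdirect (sL A Sp w b) (fun s => ¬ (A s.1).IsSquare))
    (hb : ∀ J, IsAlgebraic ℚ (b J)) {Y : Sl I L → M2 ℂ} {y : ℂ} (hY : HH A Sp w b Y y)
    (J : κ → Sl I L × Fin 2) (hJ : b J ≠ 0) : ∑ k, (Y (J k).1).trace = 2 * (w * y) := by
  have h1 := (hY.add ((hY.tl' hsub hb).smul (-1))).ac
  have h2 : Y + (-1 : ℂ) • (fun s => tl (Y s)) = fun s => ((Y s).trace / 2) • (1 : M2 ℂ) := by
    funext s
    rw [Pi.add_apply, Pi.smul_apply, tl]
    simp
  rw [h2, mul_zero, add_zero] at h1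
  have h3 := actC_scalar h1 J hJ
  rw [← Finset.sum_div] at h3
  linear_combination 2 * h3

end

end Pool.Agent.W519.Q
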