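import Mathlib

/-!
# Lie algebras of traceless matrices of size two
-/

set_option autoImplicit false
set_option linter.unusedSectionVars false

namespace Pool.Agent.W519.Q

open Matrix

variable {K : Type*} [Field K]

/-- matrices of size two -/
abbrev M2 (K : Type*) : Type _ := Matrix (Fin 2) (Fin 2) K

/-- standard elements -/
def ee (K : Type*) [Field K] : M2 K := !![0, 1; 0, 0]
/-- standard elements -/
def ff (K : Type*) [Field K] : M2 K := !![0, 0; 1, 0]
/-- standard elements -/
def hh (K : Type*) [Field K] : M2 K := !![1, 0; 0, -1]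

/-- the bracket -/
def br (A B : M2 K) : M2 K := A * B - B * A

lemma br_apply (A B : M2 K) : br A B = A * B - B * A := rfl

lemma trace_br (A B : M2 K) : (br A B).trace = 0 := by
  rw [br, Matrix.trace_sub, Matrix.trace_mul_comm, sub_self]

lemma tr_ee : (ee K).trace = 0 := by simp [ee, Matrix.trace_fin_two]
lemma tr_ff : (ff K).trace = 0 := by simp [ff, Matrix.trace_fin_two]
lemma tr_hh : (hh K).trace = 0 := by simp [hh, Matrix.trace_fin_two]

lemma decomp {Z : M2 K} (h : Z.trace = 0) :
    Z = Z 0 1 • ee K + Z 1 0 • ff K + Z 0 0 • hh K := by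
  rw [Matrix.trace_fin_two] at h
  have h1 : Z 1 1 = - Z 0 0 := by linear_combination h
  ext i j
  fin_cases i <;> fin_cases j <;> simp [ee, ff, hh, h1]

/-- anticommutator of traceless matrices -/
lemma anti {A B : M2 K} (hA : A.trace = 0) (hB : B.trace = 0) :
    A * B + B * A = (A * B).trace • (1 : M2 K) := by
  rw [Matrix.trace_fin_two] at hA hB
  have h1 : A 1 1 = - A 0 0 := by linear_combination hA
  have h2 : B 1 1 = - B 0 0 := by linear_combination hB
  ext i j
  fin_cases i <;> fin_cases j <;>
    simp [Matrix.mul_apply, Fin.sum_univ_two, Matrix.trace_fin_two, h1, h2] <;> ring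

variable [CharZero K]

/-- the representation of dimension two is unique -/
theorem exists_N {e f h : M2 K} (he : e.trace = 0) (hf : f.trace = 0) (hh' : h.trace = 0)
    (h1 : br h e = (2 : K) • e) (h2 : br h f = (-2 : K) • f) (h3 : br e f = h) (h0 : h ≠ 0) :
    ∃ N : M2 K, N.det ≠ 0 ∧ e * N = N * ee K ∧ f * N = N * ff K ∧ h * N = N * hh K := by
  have two : (2 : K) ≠ 0 := two_ne_zero
  have a1 := anti he he
  have hee : (e * e).trace = 0 := by
    have := congrArg (fun X => (e * X).trace) h1
    simp only [br_apply, Matrix.mul_sub, Matrix.trace_sub, Matrix.mul_smul, Matrix.trace_smul,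
      smul_eq_mul] at this
    have h4 : (e * (h * e)).trace = (e * (e * h)).trace := by
      rw [← Matrix.mul_assoc, Matrix.trace_mul_comm (e * h) e]
    rw [h4, sub_self] at this
    exact (mul_eq_zero.1 this.symm).resolve_left two
  have hff : (f * f).trace = 0 := by
    have := congrArg (fun X => (f * X).trace) h2
    simp only [br_apply, Matrix.mul_sub, Matrix.trace_sub, Matrix.mul_smul, Matrix.trace_smul,
      smul_eq_mul] at this
    have h4 : (f * (h * f)).trace = (f * (f * h)).trace := by
      rw [← Matrix.mul_assoc, Matrix.trace_mul_comm (f * h) f]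
    rw [h4, sub_self] at this
    exact (mul_eq_zero.1 this.symm).resolve_left (neg_ne_zero.2 two)
  have e2 : e * e = 0 := by
    rw [hee, zero_smul] at a1
    have : (2 : K) • (e * e) = 0 := by rw [two_smul]; exact a1
    exact (smul_eq_zero.1 this).resolve_left two
  have f2 : f * f = 0 := by
    have a2 := anti hf hf
    rw [hff, zero_smul] at a2
    have : (2 : K) • (f * f) = 0 := by rw [two_smul]; exact a2
    exact (smul_eq_zero.1 this).resolve_left two
  have teh : (e * h).trace = 0 := by
    rw [← h3, br, Matrix.mul_sub, ← Matrix.mul_assoc, e2, Matrix.zero_mul, zero_sub,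
      Matrix.trace_neg, ← Matrix.mul_assoc, Matrix.trace_mul_comm (e * f) e, ← Matrix.mul_assoc, e2,
      Matrix.zero_mul, Matrix.trace_zero, neg_zero]
  have tfh : (f * h).trace = 0 := by
    rw [← h3, br, Matrix.mul_sub, Matrix.trace_sub, ← Matrix.mul_assoc f f e, f2, Matrix.zero_mul,
      Matrix.trace_zero, sub_zero, ← Matrix.mul_assoc, Matrix.trace_mul_comm (f * e) f,
      ← Matrix.mul_assoc, f2, Matrix.zero_mul, Matrix.trace_zero]
  have a3 : e * h = - (h * e) := by
    have := anti he hh'
    rw [teh, zero_smul] at this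
    exact eq_neg_of_add_eq_zero_left this
  have a4 : f * h = - (h * f) := by
    have := anti hf hh'
    rw [tfh, zero_smul] at this
    exact eq_neg_of_add_eq_zero_left this
  have b1 : h * e = e := by
    rw [br, a3, sub_neg_eq_add, ← two_smul K] at h1
    exact smul_right_injective _ two h1
  have b2 : h * f = - f := by
    rw [br, a4, sub_neg_eq_add, ← two_smul K, neg_smul, ← smul_neg] at h2
    exact smul_right_injective _ two h2
  have ne : e ≠ 0 := by
    intro h5
    apply h0
    rw [← h3, h5, br, Matrix.zero_mul, Matrix.mul_zero, sub_zero]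
  obtain ⟨u, hu⟩ : ∃ u : Fin 2 → K, e *ᵥ u ≠ 0 := by
    by_contra hcon
    push Not at hcon
    apply ne
    apply Matrix.ext_of_mulVec_single
    intro i
    rw [hcon, Matrix.zero_mulVec]
  set v := e *ᵥ u with hv
  set w := f *ᵥ v with hw
  have hev : e *ᵥ v = 0 := by rw [hv, Matrix.mulVec_mulVec, e2, Matrix.zero_mulVec]
  have hhv : h *ᵥ v = v := by rw [hv, Matrix.mulVec_mulVec, b1]
  have hew : e *ᵥ w = v := by
    have h5 : e * f = h + f * e := by rw [← h3, br]; abel
    rw [hw, Matrix.mulVec_mulVec, h5, Matrix.add_mulVec, hhv, ← Matrix.mulVec_mulVec, hev,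
      Matrix.mulVec_zero, add_zero]
  have hfw : f *ᵥ w = 0 := by rw [hw, Matrix.mulVec_mulVec, f2, Matrix.zero_mulVec]
  have hhw : h *ᵥ w = - w := by
    rw [hw, Matrix.mulVec_mulVec, b2, Matrix.neg_mulVec]
  let N : M2 K := Matrix.of fun i j => if j = 0 then v i else w i
  have col (A : M2 K) : A * N = Matrix.of fun i j => if j = 0 then (A *ᵥ v) i else (A *ᵥ w) i := by
    ext i j
    fin_cases j <;> simp [N, Matrix.mul_apply, Matrix.mulVec, dotProduct, Fin.sum_univ_two]
  refine ⟨N, ?_, ?_, ?_, ?_⟩
  · intro hdet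
    obtain ⟨x, hx, hNx⟩ := Matrix.exists_mulVec_eq_zero_iff.2 hdet
    have h5 : x 0 • v + x 1 • w = 0 := by
      funext i
      have := congrFun hNx i
      simp only [N, Matrix.mulVec, dotProduct, Fin.sum_univ_two, Matrix.of_apply, Pi.zero_apply] at this
      simp only [Pi.add_apply, Pi.smul_apply, smul_eq_mul, Pi.zero_apply]
      simp at this
      linear_combination this
    have h6 := congrArg (fun z => e *ᵥ z) h5
    simp only [Matrix.mulVec_add, Matrix.mulVec_smul, hev, hew, smul_zero, zero_add,
      Matrix.mulVec_zero] at h6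
    have h7 : x 1 = 0 := (smul_eq_zero.1 h6).resolve_right hu
    rw [h7, zero_smul, add_zero] at h5
    have h8 : x 0 = 0 := (smul_eq_zero.1 h5).resolve_right hu
    apply hx
    funext i
    fin_cases i
    · exact h8
    · exact h7
  · rw [col, hev, hew]
    ext i j
    fin_cases j <;> simp [N, ee, Matrix.mul_apply, Fin.sum_univ_two]
  · rw [col, hfw]
    ext i j
    fin_cases j <;> simp [N, ff, Matrix.mul_apply, Fin.sum_univ_two, hw]
  · rw [col, hhv, hhw]
    ext i j
    fin_cases j <;> simp [N, hh, Matrix.mul_apply, Fin.sum_univ_two]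

/-- commuting traceless matrices are proportional -/
lemma prop_of_comm {X Y : M2 K} (hX : X.trace = 0) (hY : Y.trace = 0) (h : X * Y = Y * X)
    (h0 : X ≠ 0) : ∃ μ : K, Y = μ • X := by
  rw [Matrix.trace_fin_two] at hX hY
  have h1 : X 1 1 = - X 0 0 := by linear_combination hX
  have h2 : Y 1 1 = - Y 0 0 := by linear_combination hY
  have e00 := congrFun (congrFun h 0) 0
  have e01 := congrFun (congrFun h 0) 1
  have e10 := congrFun (congrFun h 1) 0
  simp only [Matrix.mul_apply, Fin.sum_univ_two, h1, h2] at e00 e01 e10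
  have two : (2 : K) ≠ 0 := two_ne_zero
  have c1 : X 0 1 * Y 1 0 = Y 0 1 * X 1 0 := by linear_combination e00
  have c2 : X 0 0 * Y 0 1 = Y 0 0 * X 0 1 := by
    have : (2 : K) * (X 0 0 * Y 0 1) = 2 * (Y 0 0 * X 0 1) := by linear_combination e01
    exact mul_left_cancel₀ two this
  have c3 : X 0 0 * Y 1 0 = Y 0 0 * X 1 0 := by
    have : (2 : K) * (X 0 0 * Y 1 0) = 2 * (Y 0 0 * X 1 0) := by linear_combination -e10
    exact mul_left_cancel₀ two this
  by_cases a : X 0 0 = 0
  · by_cases b : X 0 1 = 0
    · have c : X 1 0 ≠ 0 := by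
        intro c
        apply h0
        ext i j
        fin_cases i <;> fin_cases j <;> simp [a, b, c, h1]
      refine ⟨Y 1 0 / X 1 0, ?_⟩
      have hY0 : Y 0 0 = 0 := by
        rw [a, zero_mul] at c3
        exact (mul_eq_zero.1 c3.symm).resolve_right c
      have hY1 : Y 0 1 = 0 := by
        rw [b, zero_mul] at c1
        exact (mul_eq_zero.1 c1.symm).resolve_right c
      ext i j
      fin_cases i <;> fin_cases j <;> simp [a, b, c, h1, h2, hY0, hY1]
    · refine ⟨Y 0 1 / X 0 1, ?_⟩
      have hY0 : Y 0 0 = 0 := by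
        rw [a, zero_mul] at c2
        exact (mul_eq_zero.1 c2.symm).resolve_right b
      have hY1 : Y 1 0 = Y 0 1 / X 0 1 * X 1 0 := by
        field_simp
        linear_combination c1
      ext i j
      fin_cases i <;> fin_cases j <;> simp [a, b, h1, h2, hY0, hY1]
  · refine ⟨Y 0 0 / X 0 0, ?_⟩
    have hY0 : Y 0 1 = Y 0 0 / X 0 0 * X 0 1 := by
      field_simp
      linear_combination c2
    have hY1 : Y 1 0 = Y 0 0 / X 0 0 * X 1 0 := by
      field_simp
      linear_combination c3
    ext i j
    fin_cases i <;> fin_cases j <;> simp [a, h1, h2, hY0, hY1]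

lemma br_he : br (hh K) (ee K) = (2 : K) • ee K := by
  ext i j
  fin_cases i <;> fin_cases j <;> simp [br, hh, ee]
  norm_num

lemma br_hf : br (hh K) (ff K) = (-2 : K) • ff K := by
  ext i j
  fin_cases i <;> fin_cases j <;> simp [br, hh, ff]
  norm_num

lemma br_ef : br (ee K) (ff K) = hh K := by
  ext i j
  fin_cases i <;> fin_cases j <;> simp [br, hh, ee, ff]

/-- a matrix commuting with all traceless matrices is scalar -/
lemma scalar_of_comm {A : M2 K} (h : ∀ Z : M2 K, Z.trace = 0 → A * Z = Z * A) :
    A = A 0 0 • (1 : M2 K) := by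
  have h1 := h (ee K) tr_ee
  have h2 := h (ff K) tr_ff
  have a := congrFun (congrFun h1 0) 1
  have b := congrFun (congrFun h1 0) 0
  have c := congrFun (congrFun h2 0) 0
  simp [ee, ff, Matrix.mul_apply, Fin.sum_univ_two] at a b c
  have b' : A 1 0 = 0 := b.symm
  ext i j
  fin_cases i <;> fin_cases j <;> simp [a, b', c]

end Pool.Agent.W519.Q
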