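import Pool.Agent.W519.Q.Drv

/-!
# The Lie algebra of a de Rham-Betti class has all components
-/

set_option autoImplicit false
set_option linter.unusedSectionVars false

namespace Pool.Agent.W519.Q

open NumberField Pool.Agent.H204R3.CM Pool.Agent.W547.KB Pool.Agent.W537.PC Matrix

noncomputable section

variable {L : Type} [Field L] [NumberField L] [IsCMField L]
variable {I : Type} [Fintype I] {κ : Type} [Fintype κ] [DecidableEq κ]
variable [IsGalois ℚ L]
variable (P : PeriodSystem L) (A : I → HS L) (Sp : I → Matrix (Fin 2) (Fin 2) L) (w : ℤ)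
  (b : (κ → Sl I L × Fin 2) → ℂ)

lemma up_zero : up ℂ (0 : Sl I L → M2 Kb) = 0 := by
  funext s
  ext i j
  simp [up]

/-- the Lie algebra over the field of algebraic numbers -/
def sL : Submodule Kb (Sl I L → M2 Kb) where
  carrier := {Y | HH A Sp w b (up ℂ Y) 0 ∧ ∀ s, (Y s).trace = 0}
  zero_mem' := ⟨by
    rw [up_zero]
    exact HH.zero, fun s => by simp⟩
  add_mem' := by
    rintro Y Z ⟨hY, hY'⟩ ⟨hZ, hZ'⟩
    refine ⟨?_, fun s => by rw [Pi.add_apply, Matrix.trace_add, hY', hZ', add_zero]⟩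
    have : up ℂ (Y + Z) = up ℂ Y + up ℂ Z := by
      funext s
      ext i j
      simp [up]
    rw [this, ← add_zero (0 : ℂ)]
    exact hY.add hZ
  smul_mem' := by
    rintro r Y ⟨hY, hY'⟩
    refine ⟨?_, fun s => by rw [Pi.smul_apply, Matrix.trace_smul, hY', smul_zero]⟩
    have : up ℂ (r • Y) = (r : ℂ) • up ℂ Y := by
      funext s
      ext i j
      simp [up]
    rw [this, ← mul_zero (r : ℂ)]
    exact hY.smul _

variable {P A Sp w b}

lemma mem_sL {Y : Sl I L → M2 Kb} :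
    Y ∈ sL A Sp w b ↔ HH A Sp w b (up ℂ Y) 0 ∧ ∀ s, (Y s).trace = 0 := Iff.rfl

lemma up_brS (Y Z : Sl I L → M2 Kb) : up ℂ (brS Y Z) = brS (up ℂ Y) (up ℂ Z) := by
  funext s
  simp only [up, brS, br_apply]
  ext i j
  simp [Matrix.mul_apply, Fin.sum_univ_two]

lemma up_tl (Y : Sl I L → M2 Kb) (s : Sl I L) (h : tl (up ℂ Y s) = 0) (ht : (Y s).trace = 0) :
    Y s = 0 := by
  rw [tl_zero_iff] at h
  obtain ⟨h1, h2, h3⟩ := h
  have e1 : Y s 0 1 = 0 := by exact_mod_cast (show ((Y s 0 1 : Kb) : ℂ) = 0 from h1)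
  have e2 : Y s 1 0 = 0 := by exact_mod_cast (show ((Y s 1 0 : Kb) : ℂ) = 0 from h2)
  have e3 : Y s 0 0 = Y s 1 1 := by
    exact_mod_cast (show ((Y s 0 0 : Kb) : ℂ) = ((Y s 1 1 : Kb) : ℂ) from h3)
  rw [Matrix.trace_fin_two, ← e3, ← two_mul] at ht
  have e4 : Y s 0 0 = 0 := (mul_eq_zero.1 ht).resolve_left two_ne_zero
  ext i j
  fin_cases i <;> fin_cases j <;> simp [e1, e2, ← e3, e4]

/-- no common eigenvector at the slot `s` -/
def NoEig (A : I → HS L) (Sp : I → Matrix (Fin 2) (Fin 2) L) (w : ℤ)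
    (b : (κ → Sl I L × Fin 2) → ℂ) (s : Sl I L) : Prop :=
  ¬ ∃ v : Fin 2 → Kb, v ≠ 0 ∧ ∀ (Y : Sl I L → M2 Kb) (y : Kb), HH A Sp w b (up ℂ Y) y →
    ∃ μ : Kb, Y s *ᵥ v = μ • v

/-- the components of the Lie algebra -/
theorem subdirect (h : ∀ s : Sl I L, ¬ (A s.1).IsSquare → NoEig A Sp w b s) :
    Subdirect (sL A Sp w b) (fun s => ¬ (A s.1).IsSquare) := by
  refine ⟨fun Y hY Z hZ => ?_, fun Y hY => hY.2, fun s hs Z hZ => ?_, fun s hs Y hY => ?_⟩
  · refine ⟨?_, fun s => trace_br _ _⟩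
    rw [up_brS]
    exact hY.1.brk hZ.1
  · let G : Submodule Kb (M2 Kb) :=
      { carrier := {Z | ∃ (Y : Sl I L → M2 Kb) (y : Kb), HH A Sp w b (up ℂ Y) y ∧ Y s = Z}
        zero_mem' := ⟨0, 0, by
          rw [up_zero]
          exact HH.zero, rfl⟩
        add_mem' := by
          rintro _ _ ⟨Y, y, hY, rfl⟩ ⟨Z, z, hZ, rfl⟩
          refine ⟨Y + Z, y + z, ?_, rfl⟩
          have : up ℂ (Y + Z) = up ℂ Y + up ℂ Z := by
            funext s
            ext i j
            simp [up]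
          rw [this]
          push_cast
          exact hY.add hZ
        smul_mem' := by
          rintro r _ ⟨Y, y, hY, rfl⟩
          refine ⟨r • Y, r * y, ?_, rfl⟩
          have : up ℂ (r • Y) = (r : ℂ) • up ℂ Y := by
            funext s
            ext i j
            simp [up]
          rw [this]
          push_cast
          exact hY.smul _ }
    have hG : ∀ X ∈ G, ∀ X' ∈ G, br X X' ∈ G := by
      rintro _ ⟨Y, y, hY, rfl⟩ _ ⟨Z, z, hZ, rfl⟩
      refine ⟨brS Y Z, 0, ?_, rfl⟩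
      rw [up_brS]
      exact hY.brk hZ
    rcases dichotomy G hG with ⟨v, hv, hev⟩ | hall
    · exact absurd ⟨v, hv, fun Y y hY => hev _ ⟨Y, y, hY, rfl⟩⟩ (h s hs)
    · have h1 := hall Z hZ
      have h2 : Submodule.span Kb {W | ∃ X ∈ G, ∃ Y ∈ G, W = br X Y} ≤
          (sL A Sp w b).map (LinearMap.proj s) := by
        rw [Submodule.span_le]
        rintro _ ⟨_, ⟨Y, y, hY, rfl⟩, _, ⟨Z, z, hZ, rfl⟩, rfl⟩
        refine ⟨brS Y Z, ⟨?_, fun s => trace_br _ _⟩, rfl⟩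
        rw [up_brS]
        exact hY.brk hZ
      obtain ⟨Y, hY, hYZ⟩ := h2 h1
      exact ⟨Y, hY, hYZ⟩
  · have hs' : (A s.1).IsSquare := not_not.1 hs
    exact up_tl Y s (hY.1.sq s.1 hs' s.2) (hY.2 s)

/-- matrices over the complex numbers -/
def mp (M : M2 Kb) : M2 ℂ := M.map (algebraMap Kb ℂ)

lemma mp_mul (M N : M2 Kb) : mp (M * N) = mp M * mp N := Matrix.map_mul

lemma mp_one : mp 1 = 1 := by
  ext i j
  fin_cases i <;> fin_cases j <;> simp [mp]

lemma mp_alg (M : M2 Kb) : AlgM (mp M) := fun i j => alg_coe (M i j)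

lemma exists_mp {M : M2 ℂ} (h : AlgM M) : ∃ M' : M2 Kb, mp M' = M := by
  choose f hf using fun i j => alg_iff.1 (h i j)
  refine ⟨Matrix.of f, ?_⟩
  ext i j
  exact hf i j

lemma mp_det (M : M2 Kb) : (mp M).det = ((M.det : Kb) : ℂ) := by
  rw [Matrix.det_fin_two, Matrix.det_fin_two]
  simp [mp]

lemma mp_inv {M : M2 Kb} (h : M.det ≠ 0) : mp M⁻¹ * mp M = 1 ∧ mp M * mp M⁻¹ = 1 := by
  have hu : IsUnit M.det := isUnit_iff_ne_zero.2 h
  rw [← mp_mul, ← mp_mul, Matrix.nonsing_inv_mul _ hu, Matrix.mul_nonsing_inv _ hu, mp_one]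
  exact ⟨rfl, rfl⟩

/-- the functionals with algebraic values separate the complex numbers -/
lemma lam_sep {x : ℂ} (h : ∀ lam : ℂ →ₗ[Kb] Kb, lam x = 0) : x = 0 := by
  by_contra h0
  obtain ⟨l, hl⟩ := Module.Projective.exists_dual_ne_zero Kb h0
  exact hl (h l)

end

end Pool.Agent.W519.Q
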