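import Pool.Agent.W519.Q.Hom

/-!
# Twists, and the theorem of Wüstholz for homomorphisms
-/

set_option autoImplicit false
set_option linter.unusedSectionVars false

namespace Pool.Agent.W519.Q

open NumberField Pool.Agent.H204R3.CM Pool.Agent.W547.KB Pool.Agent.W537.PC Matrix
open Pool.Agent.W519.G (cl cl_mul cl_div cl_eq_zero cl_pow cl_zpow cl_prod tp eq_of_smul
  eq_zero_of_smul smul_tp_eq_zero rel_int ind Quo Periods.c cj)

noncomputable section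

lemma AlgM.mul {M N : M2 ℂ} (hM : AlgM M) (hN : AlgM N) : AlgM (M * N) := by
  intro i j
  rw [Matrix.mul_apply, Fin.sum_univ_two]
  exact ((hM i 0).mul (hN 0 j)).add ((hM i 1).mul (hN 1 j))

lemma AlgM.smul {M : M2 ℂ} {a : ℂ} (ha : IsAlgebraic ℚ a) (hM : AlgM M) : AlgM (a • M) := by
  intro i j
  rw [Matrix.smul_apply, smul_eq_mul]
  exact ha.mul (hM i j)

lemma AlgM.inv {M : M2 ℂ} (hM : AlgM M) : AlgM M⁻¹ := by
  rw [Matrix.inv_def, Ring.inverse_eq_inv']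
  refine AlgM.smul ?_ ?_
  · rw [Matrix.det_fin_two]
    exact (((hM 0 0).mul (hM 1 1)).sub ((hM 0 1).mul (hM 1 0))).inv
  · rw [Matrix.adjugate_fin_two]
    intro i j
    fin_cases i <;> fin_cases j
    · exact hM 1 1
    · exact (hM 0 1).neg
    · exact (hM 1 0).neg
    · exact hM 0 0

variable {L : Type} [Field L] [NumberField L] [IsCMField L]

section types

variable (A B : HS L) (γ : L ≃ₐ[ℚ] L)

/-- the conjugate -/
def gc (χ : L →+* ℂ) : L →+* ℂ := χ.comp (γ : L →+* L)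

lemma gc_act (τ : ℂ ≃+* ℂ) (χ : L →+* ℂ) : act τ (gc γ χ) = gc γ (act τ χ) := rfl

lemma gc_conj (χ : L →+* ℂ) :
    gc γ (ComplexEmbedding.conjugate χ) = ComplexEmbedding.conjugate (gc γ χ) := by
  rw [← act_cnj, ← act_cnj, gc_act]

/-- the first type -/
def T1 : Set (L →+* ℂ) :=
  {χ | (rk A χ = 0 ∧ rk B (gc γ χ) = 2) ∨ (rk A χ = rk B (gc γ χ) ∧ χ ∈ cm0 L)}

/-- the second type -/
def T2 : Set (L →+* ℂ) :=
  {χ | (rk A χ = 2 ∧ rk B (gc γ χ) = 0) ∨ (rk A χ = rk B (gc γ χ) ∧ χ ∈ cm0 L)}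

variable {A B γ}

lemma mem_T1 (χ : L →+* ℂ) : χ ∈ T1 A B γ ↔
    ((rk A χ = 0 ∧ rk B (gc γ χ) = 2) ∨ (rk A χ = rk B (gc γ χ) ∧ χ ∈ cm0 L)) := Iff.rfl

lemma mem_T2 (χ : L →+* ℂ) : χ ∈ T2 A B γ ↔
    ((rk A χ = 2 ∧ rk B (gc γ χ) = 0) ∨ (rk A χ = rk B (gc γ χ) ∧ χ ∈ cm0 L)) := Iff.rfl

lemma pair_cases (h : ∀ χ, rk A χ = 1 ↔ rk B (gc γ χ) = 1) (χ : L →+* ℂ) :
    (rk A χ = 0 ∧ rk B (gc γ χ) = 0) ∨ (rk A χ = 0 ∧ rk B (gc γ χ) = 2) ∨
    (rk A χ = 2 ∧ rk B (gc γ χ) = 0) ∨ (rk A χ = 2 ∧ rk B (gc γ χ) = 2) ∨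
    (rk A χ = 1 ∧ rk B (gc γ χ) = 1) := by
  have h1 := h χ
  rcases rk_cases A χ with ⟨-, h2⟩ | ⟨-, h2⟩ | ⟨-, -, h2⟩ <;>
  rcases rk_cases B (gc γ χ) with ⟨-, h3⟩ | ⟨-, h3⟩ | ⟨-, -, h3⟩ <;>
  omega

lemma D_of_zero {A : HS L} {χ : L →+* ℂ} (h : rk A χ = 0) : A.D χ = -1 := by
  rcases rk_cases A χ with ⟨h1, h2⟩ | ⟨h1, h2⟩ | ⟨h1, h3, h2⟩
  · omega
  · exact h1
  · omega

lemma D_of_two {A : HS L} {χ : L →+* ℂ} (h : rk A χ = 2) : A.D χ = 1 := by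
  rcases rk_cases A χ with ⟨h1, h2⟩ | ⟨h1, h2⟩ | ⟨h1, h3, h2⟩
  · exact h1
  · omega
  · omega

lemma isT1 (h : ∀ χ, rk A χ = 1 ↔ rk B (gc γ χ) = 1) : IsCMType (T1 A B γ) := by
  intro χ
  rw [mem_T1, mem_T1, rk_conj, gc_conj, rk_conj, cm0_isCMType χ]
  rcases pair_cases h χ with ⟨h1, h2⟩ | ⟨h1, h2⟩ | ⟨h1, h2⟩ | ⟨h1, h2⟩ | ⟨h1, h2⟩ <;>
    rw [h1, h2] <;> norm_num

lemma isT2 (h : ∀ χ, rk A χ = 1 ↔ rk B (gc γ χ) = 1) : IsCMType (T2 A B γ) := by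
  intro χ
  rw [mem_T2, mem_T2, rk_conj, gc_conj, rk_conj, cm0_isCMType χ]
  rcases pair_cases h χ with ⟨h1, h2⟩ | ⟨h1, h2⟩ | ⟨h1, h2⟩ | ⟨h1, h2⟩ | ⟨h1, h2⟩ <;>
    rw [h1, h2] <;> norm_num

lemma ind_T (h : ∀ χ, rk A χ = 1 ↔ rk B (gc γ χ) = 1) (τ : ℂ ≃+* ℂ) (χ : L →+* ℂ) :
    2 * ind ⟨L, T1 A B γ, isT1 h⟩ τ χ - 2 * ind ⟨L, T2 A B γ, isT2 h⟩ τ χ =
      rk B (gc γ (act τ χ)) - rk A (act τ χ) := by
  have h1 := ind_mk (T1 A B γ) (isT1 h) τ χ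
  have h2 := ind_mk (T2 A B γ) (isT2 h) τ χ
  rw [mem_T1] at h1
  rw [mem_T2] at h2
  by_cases hc : act τ χ ∈ cm0 L
  · rcases pair_cases h (act τ χ) with ⟨h3, h4⟩ | ⟨h3, h4⟩ | ⟨h3, h4⟩ | ⟨h3, h4⟩ | ⟨h3, h4⟩
    · rw [h1.1 (by rw [h3, h4]; simp [hc]), h2.1 (by rw [h3, h4]; simp [hc]), h3, h4]
      norm_num
    · rw [h1.1 (by rw [h3, h4]; simp), h2.2 (by rw [h3, h4]; simp), h3, h4]
      norm_num
    · rw [h1.2 (by rw [h3, h4]; simp), h2.1 (by rw [h3, h4]; simp), h3, h4]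
      norm_num
    · rw [h1.1 (by rw [h3, h4]; simp [hc]), h2.1 (by rw [h3, h4]; simp [hc]), h3, h4]
      norm_num
    · rw [h1.1 (by rw [h3, h4]; simp [hc]), h2.1 (by rw [h3, h4]; simp [hc]), h3, h4]
      norm_num
  · rcases pair_cases h (act τ χ) with ⟨h3, h4⟩ | ⟨h3, h4⟩ | ⟨h3, h4⟩ | ⟨h3, h4⟩ | ⟨h3, h4⟩
    · rw [h1.2 (by rw [h3, h4]; simp [hc]), h2.2 (by rw [h3, h4]; simp [hc]), h3, h4]
      norm_num
    · rw [h1.1 (by rw [h3, h4]; simp), h2.2 (by rw [h3, h4]; simp), h3, h4]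
      norm_num
    · rw [h1.2 (by rw [h3, h4]; simp), h2.1 (by rw [h3, h4]; simp), h3, h4]
      norm_num
    · rw [h1.2 (by rw [h3, h4]; simp [hc]), h2.2 (by rw [h3, h4]; simp [hc]), h3, h4]
      norm_num
    · rw [h1.2 (by rw [h3, h4]; simp [hc]), h2.2 (by rw [h3, h4]; simp [hc]), h3, h4]
      norm_num

variable {P : PeriodSystem L}

/-- the classes of the determinants and the periods of the twist -/
theorem cl_twist (hA : P.IsAV A) (hB : P.IsAV B) (h : ∀ χ, rk A χ = 1 ↔ rk B (gc γ χ) = 1)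
    (χ : L →+* ℂ) :
    cl (P.per B (gc γ χ)).det - cl (P.per A χ).det =
      (2 : ℤ) • (P.cm.c ⟨L, T1 A B γ, isT1 h⟩ χ - P.cm.c ⟨L, T2 A B γ, isT2 h⟩ χ) := by
  obtain ⟨g, hg⟩ : ∃ g : L →+* ℂ, gc γ χ = g := ⟨_, rfl⟩
  have h1 := rel_int P.cm (ι := Fin 6) (fun l => ⟨L, (![Ph1 B, Ph2 B, Ph1 A, Ph2 A, T1 A B γ,
      T2 A B γ] : Fin 6 → Set (L →+* ℂ)) l, by
        fin_cases l
        · exact ph1 B
        · exact ph2 B
        · exact ph1 A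
        · exact ph2 A
        · exact isT1 h
        · exact isT2 h⟩)
    (fun l => (![g, g, χ, χ, χ, χ] : Fin 6 → (L →+* ℂ)) l) ![1, 1, -1, -1, -2, 2] 0 (by
      intro τ
      rw [Fin.sum_univ_six]
      have e1 := ind_sum B τ (gc γ χ)
      have e2 := ind_sum A τ χ
      have e3 := ind_T h τ χ
      rw [gc_act, hg] at e1
      change 1 * ind (B1 B) τ g + 1 * ind (B2 B) τ g + (-1) * ind (B1 A) τ χ +
        (-1) * ind (B2 A) τ χ + (-2) * ind ⟨L, T1 A B γ, isT1 h⟩ τ χ +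
        2 * ind ⟨L, T2 A B γ, isT2 h⟩ τ χ = 0
      linarith)
  rw [Fin.sum_univ_six] at h1
  change (1 : ℤ) • P.cm.c (B1 B) g + (1 : ℤ) • P.cm.c (B2 B) g +
    (-1 : ℤ) • P.cm.c (B1 A) χ + (-1 : ℤ) • P.cm.c (B2 A) χ +
    (-2 : ℤ) • P.cm.c ⟨L, T1 A B γ, isT1 h⟩ χ + (2 : ℤ) • P.cm.c ⟨L, T2 A B γ, isT2 h⟩ χ =
    (0 : ℤ) • tp at h1
  rw [zero_smul, one_smul, one_smul, neg_smul, neg_smul, one_smul, one_smul, neg_smul] at h1
  rw [cl_det hA, cl_det hB, smul_sub, hg]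
  rw [← sub_eq_zero, ← h1]
  abel

end types

variable {I : Type} [Fintype I] {κ : Type} [Fintype κ] [DecidableEq κ]
variable {P : PeriodSystem L}
variable {A : I → HS L} {Sp : I → Matrix (Fin 2) (Fin 2) L} {w : ℤ}
  {b : (κ → Sl I L × Fin 2) → ℂ}

lemma tl_one : tl (1 : M2 ℂ) = 0 := by
  rw [tl_zero_iff]
  simp

lemma tl_neg_one : tl (-1 : M2 ℂ) = 0 := by
  rw [tl_zero_iff]
  simp

/-- the relation between the periods of the twists -/
theorem IC.twist_rel [IsGalois ℚ L] (hsub : Subdirect (sL A Sp w b) (fun s => ¬ (A s.1).IsSquare))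
    (hA : ∀ i, P.IsAV (A i)) (hld : ∀ D : Dv, HH A Sp w b (ld P A D) (D tau / tau)) {i j : I}
    {γ : L ≃ₐ[ℚ] L} (hpar : ∀ χ, rk (A i) χ = 1 ↔ rk (A j) (gc γ χ) = 1)
    (hs : ¬ (A i).IsSquare) {χ : L →+* ℂ} {N : M2 ℂ} (hN : IC A Sp w b (i, χ) (j, gc γ χ) N)
    {A' A'' : HS L} (hA' : P.IsAV A')
    (hP1 : ∃ M, AlgM M ∧ P.per A' χ = (P.cm.per ⟨L, T1 (A i) (A j) γ, isT1 hpar⟩ χ /
      P.cm.per ⟨L, T2 (A i) (A j) γ, isT2 hpar⟩ χ) • (M * P.per (A i) χ))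
    (hP2 : ∃ M, AlgM M ∧ P.per A'' χ = M * P.per (A j) (gc γ χ)) :
    ∃ X, AlgM X ∧ P.per A'' χ * N = X * P.per A' χ := by
  obtain ⟨c, M, hc, hMa, hM0, hP, hcl⟩ := hN.periods hsub hA hld hs
  change P.per (A j) (gc γ χ) * N = c • (M * P.per (A i) χ) at hP
  change (2 : ℤ) • cl c = cl (P.per (A j) (gc γ χ)).det - cl (P.per (A i) χ).det at hcl
  rw [cl_twist (hA i) (hA j) hpar χ] at hcl
  have hcl' := eq_of_smul (by norm_num) hcl
  set p1 := P.cm.per ⟨L, T1 (A i) (A j) γ, isT1 hpar⟩ χ with hp1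
  set p2 := P.cm.per ⟨L, T2 (A i) (A j) γ, isT2 hpar⟩ χ with hp2
  have h1 : p1 ≠ 0 := P.cm.per_ne_zero _ _
  have h2 : p2 ≠ 0 := P.cm.per_ne_zero _ _
  have h12 : p1 / p2 ≠ 0 := div_ne_zero h1 h2
  have ha : IsAlgebraic ℚ (c / (p1 / p2)) := by
    rw [← cl_eq_zero (div_ne_zero hc h12), cl_div hc h12, cl_div h1 h2, sub_eq_zero]
    exact hcl'
  obtain ⟨a, haa, hca⟩ : ∃ a, IsAlgebraic ℚ a ∧ c = a * (p1 / p2) :=
    ⟨_, ha, (div_mul_cancel₀ _ h12).symm⟩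
  obtain ⟨Ma, hM1, hP1⟩ := hP1
  obtain ⟨Mb, hM2, hP2⟩ := hP2
  have hM1d : Ma.det ≠ 0 := by
    intro h0
    apply P.det_ne A' hA' χ
    rw [hP1, Matrix.det_smul, Matrix.det_mul, h0, zero_mul, mul_zero]
  have hu1 : IsUnit Ma.det := isUnit_iff_ne_zero.2 hM1d
  refine ⟨a • (Mb * M * Ma⁻¹), AlgM.smul haa ((hM2.mul hMa).mul hM1.inv), ?_⟩
  rw [hP2, hP1, Matrix.mul_assoc, hP, hca]
  simp only [Matrix.mul_smul, Matrix.smul_mul, smul_smul, Matrix.mul_assoc]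
  rw [← Matrix.mul_assoc Ma⁻¹, Matrix.nonsing_inv_mul _ hu1, Matrix.one_mul, mul_comm a]

/-- relations are unique up to scalars -/
lemma IC.unique [IsGalois ℚ L] (hsub : Subdirect (sL A Sp w b) (fun s => ¬ (A s.1).IsSquare))
    {s t : Sl I L} (hs : ¬ (A s.1).IsSquare) {N N' : M2 ℂ} (hN : IC A Sp w b s t N)
    (hN' : IC A Sp w b s t N') : ∃ r : ℂ, N' = r • N := by
  have hu : IsUnit N.det := isUnit_iff_ne_zero.2 hN.det
  have h1 := comm_all hsub hs (C := N⁻¹ * N') (by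
    intro W hW
    have a1 := hN.eq _ hW.1 (up_trace hW.2)
    have a2 := hN'.eq _ hW.1 (up_trace hW.2)
    calc N⁻¹ * N' * up ℂ W s = N⁻¹ * (up ℂ W t * N') := by rw [Matrix.mul_assoc, a2]
      _ = N⁻¹ * (up ℂ W t * N) * (N⁻¹ * N') := by
        rw [Matrix.mul_assoc, Matrix.mul_assoc, ← Matrix.mul_assoc N, Matrix.mul_nonsing_inv _ hu,
          Matrix.one_mul]
      _ = up ℂ W s * (N⁻¹ * N') := by
        rw [a1, ← Matrix.mul_assoc N⁻¹ N, Matrix.nonsing_inv_mul _ hu, Matrix.one_mul])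
  refine ⟨(N⁻¹ * N') 0 0, ?_⟩
  have h2 := congrArg (fun X => N * X) h1
  simp only [Matrix.mul_smul, Matrix.mul_one] at h2
  rw [← Matrix.mul_assoc, Matrix.mul_nonsing_inv _ hu, Matrix.one_mul] at h2
  exact h2

/-- relations are defined over `L`, up to scalars -/
theorem IC.desc [IsGalois ℚ L] (hsub : Subdirect (sL A Sp w b) (fun s => ¬ (A s.1).IsSquare))
    (hbg : ∀ (τ : ℂ ≃+* ℂ) (J : κ → Sl I L × Fin 2), b (fun k => actX τ (J k)) = τ (b J)) {i j : I}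
    {γ : L ≃ₐ[ℚ] L} (hs : ¬ (A i).IsSquare) {φ : L →+* ℂ} {N : M2 ℂ}
    (hN : IC A Sp w b (i, φ) (j, gc γ φ) N) :
    ∃ (a : ℂ) (T : Matrix (Fin 2) (Fin 2) L), N = a • T.map φ ∧
      ∀ χ, IC A Sp w b (i, χ) (j, gc γ χ) (T.map χ) := by
  have hN0 : N ≠ 0 := by
    intro h0
    apply hN.det
    rw [h0, Matrix.det_fin_two]
    simp
  obtain ⟨a, x, ha, haa, hx⟩ := descent φ (fun p : Fin 2 × Fin 2 => N p.1 p.2)
    (fun p => hN.alg _ _) (by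
      intro h0
      apply hN0
      ext p q
      exact congrFun h0 (p, q)) (by
      intro τ hτ
      have h1 := hN.gal hbg τ
      have e1 : actS τ (i, φ) = (i, φ) := by rw [actS, hτ]
      have e2 : actS τ (j, gc γ φ) = (j, gc γ φ) := by rw [actS, gc_act, hτ]
      rw [e1, e2] at h1
      obtain ⟨r, hr⟩ := hN.unique hsub hs h1
      exact ⟨r, fun p => congrFun (congrFun hr p.1) p.2⟩)
  let T : Matrix (Fin 2) (Fin 2) L := Matrix.of fun p q => x (p, q)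
  have hNT : N = a • T.map φ := by
    ext p q
    exact hx (p, q)
  refine ⟨a, T, hNT, fun χ => ?_⟩
  have hT : IC A Sp w b (i, φ) (j, gc γ φ) (T.map φ) := by
    refine ⟨fun p q => emb_alg _ _, fun h0 => hN.det ?_, fun V hV htr => ?_⟩
    · rw [hNT, Matrix.det_smul, h0, mul_zero]
    · have h1 := hN.eq V hV htr
      rw [hNT, Matrix.mul_smul, Matrix.smul_mul] at h1
      exact smul_right_injective _ ha h1
  obtain ⟨τ, rfl⟩ := exists_act φ χ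
  exact hT.gal hbg τ

/-- the relations are satisfied by the Hodge structures -/
theorem IC.hodge [IsGalois ℚ L] (hom : HomHodge P)
    (hkind : ∀ i, (A i).IsSimple ∨ (A i).IsSquare)
    (hsub : Subdirect (sL A Sp w b) (fun s => ¬ (A s.1).IsSquare))
    (hA : ∀ i, P.IsAV (A i)) (hld : ∀ D : Dv, HH A Sp w b (ld P A D) (D tau / tau))
    (hbg : ∀ (τ : ℂ ≃+* ℂ) (J : κ → Sl I L × Fin 2), b (fun k => actX τ (J k)) = τ (b J))
    (hS : ∀ i, IsPol L (A i).D (Sp i)) {s t : Sl I L} (hs : ¬ (A s.1).IsSquare)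
    (ht : ¬ (A t.1).IsSquare) {N : M2 ℂ} (hN : IC A Sp w b s t N) :
    tl ((A t.1).D t.2) * N = N * tl ((A s.1).D s.2) := by
  obtain ⟨i, φ⟩ := s
  obtain ⟨j, ψ⟩ := t
  obtain ⟨γ, rfl⟩ := comp_surjective φ ψ
  change tl ((A j).D (gc γ φ)) * N = N * tl ((A i).D φ)
  have hN0 : IC A Sp w b (i, φ) (j, gc γ φ) N := hN
  -- parity for all embeddings
  have hpar : ∀ χ, rk (A i) χ = 1 ↔ rk (A j) (gc γ χ) = 1 := by
    intro χ
    obtain ⟨τ, rfl⟩ := exists_act φ χ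
    exact (hN0.gal hbg τ).parity hsub hbg hS hs
  obtain ⟨a, T, hNT, hT⟩ := hN0.desc hsub hbg hs
  have hsi : (A i).IsSimple := (hkind i).resolve_right hs
  have hsj : (A j).IsSimple := (hkind j).resolve_right ht
  -- the twist
  obtain ⟨A', hA', hD', hper'⟩ := P.twist (A i) (hA i) (T1 (A i) (A j) γ) (T2 (A i) (A j) γ)
    (isT1 hpar) (isT2 hpar) (fun χ => by
      rw [mem_T1, mem_T2]
      refine ⟨fun e1 e2 => ?_, fun e1 e2 => ?_⟩
      · rcases e1 with e1 | e1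
        · exact D_of_zero e1.1
        · exact absurd (Or.inr e1) e2
      · rcases e2 with e2 | e2
        · exact D_of_two e2.1
        · exact absurd (Or.inr e2) e1)
  obtain ⟨A'', hA'', hD'', hper''⟩ := P.gal (A j) (hA j) γ
  have hDeq : ∀ χ, rk (A i) χ = rk (A j) (gc γ χ) → A'.D χ = (A i).D χ := by
    intro χ heq
    refine (hD' χ).2.2 ?_
    rw [mem_T1, mem_T2]
    constructor
    · rintro (⟨h3, h4⟩ | h3)
      · rw [h3, h4] at heq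
        norm_num at heq
      · exact Or.inr h3
    · rintro (⟨h3, h4⟩ | h3)
      · rw [h3, h4] at heq
        norm_num at heq
      · exact Or.inr h3
  have hs' : A'.IsSimple := by
    intro T hT
    refine hsi T fun χ => ?_
    rcases rk_cases (A i) χ with ⟨e1, e2⟩ | ⟨e1, e2⟩ | ⟨e1, e3, e2⟩
    · rw [e1, Matrix.one_mul, Matrix.mul_one]
    · rw [e1, Matrix.neg_mul, Matrix.mul_neg, Matrix.one_mul, Matrix.mul_one]
    · rw [← hDeq χ (by rw [e2, (hpar χ).1 e2])]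
      exact hT χ
  have hs'' : A''.IsSimple := by
    intro T hT
    obtain ⟨x, hx⟩ := hsj (T.map γ.symm) fun χ => by
      have h1 := hT (χ.comp (γ.symm : L →+* L))
      rw [hD''] at h1
      have e1 : (χ.comp (γ.symm : L →+* L)).comp (γ : L →+* L) = χ := by
        ext y
        simp
      rw [e1] at h1
      exact h1
    refine ⟨γ x, ?_⟩
    ext p q
    have h1 := congrArg γ (congrFun (congrFun hx p) q)
    fin_cases p <;> fin_cases q <;> simpa using h1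
  have hhom : IsHom A' A'' T := by
    refine hom A' A'' ⟨hA', Or.inl hs'⟩ ⟨hA'', Or.inl hs''⟩ T fun χ => ?_
    exact (hT χ).twist_rel hsub hA hld hpar hs hA' (hper' χ) (hper'' χ)
  have hcomm : (A j).D (gc γ φ) * N = N * A'.D φ := by
    have h1 := hhom φ
    rw [hD''] at h1
    rw [hNT, Matrix.mul_smul, Matrix.smul_mul]
    congr 1
  by_cases heq : rk (A i) φ = rk (A j) (gc γ φ)
  · rw [hDeq φ heq] at hcomm
    refine tl_rel (r := 0) hN0.det ?_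
    rw [hcomm, zero_smul, add_zero]
  · have h3 : tl ((A j).D (gc γ φ)) = 0 ∧ tl ((A i).D φ) = 0 := by
      rcases rk_cases (A i) φ with ⟨e1, e2⟩ | ⟨e1, e2⟩ | ⟨e1, e3, e2⟩ <;>
      rcases rk_cases (A j) (gc γ φ) with ⟨e5, e4⟩ | ⟨e5, e4⟩ | ⟨e5, e6, e4⟩
      · exact absurd (e2.trans e4.symm) heq
      · rw [e1, e5]
        exact ⟨tl_neg_one, tl_one⟩
      · have := (hpar φ).2 e4
        rw [e2] at this
        norm_num at this
      · rw [e1, e5]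
        exact ⟨tl_one, tl_neg_one⟩
      · exact absurd (e2.trans e4.symm) heq
      · have := (hpar φ).2 e4
        rw [e2] at this
        norm_num at this
      · have := (hpar φ).1 e2
        rw [e4] at this
        norm_num at this
      · have := (hpar φ).1 e2
        rw [e4] at this
        norm_num at this
      · exact absurd (e2.trans e4.symm) heq
    rw [h3.1, h3.2, Matrix.zero_mul, Matrix.mul_zero]

end

end Pool.Agent.W519.Q
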