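import Pool.Agent.W519.Q.Eig

/-!
# Classes of degree two and homomorphisms
-/

set_option autoImplicit false
set_option linter.unusedSectionVars false

namespace Pool.Agent.W519.Q

open NumberField Pool.Agent.H204R3.CM Pool.Agent.W547.KB Pool.Agent.W537.PC Matrix

noncomputable section

variable {L : Type} [Field L] [NumberField L] [IsCMField L]
variable {I : Type} [Fintype I] {κ : Type} [Fintype κ] [DecidableEq κ]

/-- uncurrying -/
def unc (L : Type) [Field L] (I : Type) :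
    (I → (L →+* ℂ) → Fin 2 → ℂ) →ₗ[ℂ] (Sl I L → Fin 2 → ℂ) where
  toFun z := fun s => z s.1 s.2
  map_add' _ _ := rfl
  map_smul' _ _ := rfl

/-- currying -/
def cur (L : Type) [Field L] (I : Type) :
    (Sl I L → Fin 2 → ℂ) →ₗ[ℂ] (I → (L →+* ℂ) → Fin 2 → ℂ) where
  toFun z := fun i φ => z (i, φ)
  map_add' _ _ := rfl
  map_smul' _ _ := rfl

/-- complex multilinear forms are determined by their values on the rational homology -/
theorem ext_emb {F F' : MultilinearMap ℂ (fun _ : κ => I → (L →+* ℂ) → Fin 2 → ℂ) ℂ}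
    (h : ∀ v : κ → I → Fin 2 → L, F (fun k i φ a => φ (v k i a)) = F' (fun k i φ a => φ (v k i a))) :
    F = F' := by
  have key : ∀ F : MultilinearMap ℂ (fun _ : κ => I → (L →+* ℂ) → Fin 2 → ℂ) ℂ,
      F.compLinearMap (fun _ => cur L I) =
        Fm (fun J => F.compLinearMap (fun _ => cur L I) (fun k => eb (J k))) := by
    intro F
    exact ext_eb fun J => by rw [Fm_eb]
  have h1 : (fun J : κ → Sl I L × Fin 2 =>
      F.compLinearMap (fun _ => cur L I) (fun k => eb (J k))) =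
      fun J => F'.compLinearMap (fun _ => cur L I) (fun k => eb (J k)) := by
    refine cf_unique fun v => ?_
    have e : ∀ F : MultilinearMap ℂ (fun _ : κ => I → (L →+* ℂ) → Fin 2 → ℂ) ℂ,
        ∑ J : κ → Sl I L × Fin 2, F.compLinearMap (fun _ => cur L I) (fun k => eb (J k)) *
          ∏ k, chr (v k) (J k) =
          F (fun k i φ a => φ (v k i a)) := by
      intro F
      have h2 : ∑ J : κ → Sl I L × Fin 2, (F.compLinearMap (fun _ => cur L I) fun k => eb (J k)) *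
          ∏ k, chr (v k) (J k) =
          Fm (fun J => F.compLinearMap (fun _ => cur L I) (fun k => eb (J k)))
            (fun k s a => chr (v k) (s, a)) := by
        rw [Fm_apply]
      rw [h2, ← key F]
      rfl
    rw [e, e, h]
  have h2 : F.compLinearMap (fun _ => cur L I) = F'.compLinearMap (fun _ => cur L I) := by
    rw [key F, key F', h1]
  ext z
  have h3 := DFunLike.congr_fun h2 (fun k => unc L I (z k))
  exact h3

variable (P : PeriodSystem L)

/-- a function of tuples of vectors is an algebraic combination of the products of eigenforms -/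
def Rep (A : I → HS L) (G : (κ → I → Fin 2 → L) → ℂ) : Prop :=
  ∃ c : (κ → I × (L →+* ℂ) × Fin 2) → ℂ, (∀ J, IsAlgebraic ℚ (c J)) ∧
    ∀ v : κ → I → Fin 2 → L, G v =
      ∑ J, c J * ∏ k, (P.per (A (J k).1) (J k).2.1 *ᵥ fun b => (J k).2.1 (v k (J k).1 b)) (J k).2.2

variable {P} {A : I → HS L}

lemma Rep.zero : Rep P A (fun _ : κ → I → Fin 2 → L => 0) :=
  ⟨fun _ => 0, fun _ => isAlgebraic_zero, fun v => by simp⟩

lemma Rep.add {G G' : (κ → I → Fin 2 → L) → ℂ} (h : Rep P A G) (h' : Rep P A G') :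
    Rep P A (fun v => G v + G' v) := by
  obtain ⟨c, hc, hG⟩ := h
  obtain ⟨c', hc', hG'⟩ := h'
  refine ⟨fun J => c J + c' J, fun J => (hc J).add (hc' J), fun v => ?_⟩
  dsimp only
  rw [hG, hG', ← Finset.sum_add_distrib]
  exact Finset.sum_congr rfl fun J _ => by rw [add_mul]

lemma Rep.smul {G : (κ → I → Fin 2 → L) → ℂ} {a : ℂ} (ha : IsAlgebraic ℚ a) (h : Rep P A G) :
    Rep P A (fun v => a * G v) := by
  obtain ⟨c, hc, hG⟩ := h
  refine ⟨fun J => a * c J, fun J => ha.mul (hc J), fun v => ?_⟩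
  dsimp only
  rw [hG, Finset.mul_sum]
  exact Finset.sum_congr rfl fun J _ => by rw [mul_assoc]

lemma Rep.sum {ι : Type*} (s : Finset ι) {G : ι → (κ → I → Fin 2 → L) → ℂ}
    (h : ∀ i ∈ s, Rep P A (G i)) : Rep P A (fun v => ∑ i ∈ s, G i v) := by
  classical
  induction s using Finset.induction_on with
  | empty => simpa using Rep.zero (P := P) (A := A) (κ := κ)
  | insert a s ha ih =>
    have := (h a (Finset.mem_insert_self a s)).add (ih fun i hi => h i (Finset.mem_insert_of_mem hi))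
    simpa [Finset.sum_insert ha] using this

lemma Rep.basic (J : κ → I × (L →+* ℂ) × Fin 2) : Rep P A (fun v => ∏ k,
    (P.per (A (J k).1) (J k).2.1 *ᵥ fun b => (J k).2.1 (v k (J k).1 b)) (J k).2.2) := by
  classical
  refine ⟨fun J' => if J' = J then 1 else 0, fun J' => ?_, fun v => ?_⟩
  · dsimp only
    split_ifs
    · exact isAlgebraic_one
    · exact isAlgebraic_zero
  · simp

variable [IsGalois ℚ L]

/-- the trace form -/
def trf (T S : Matrix (Fin 2) (Fin 2) L) :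
    MultilinearMap ℚ (fun _ : Fin 2 => Fin 2 → Fin 2 → L) ℚ :=
  (Algebra.trace ℚ L).compMultilinearMap (∑ a : Fin 2,
    (MultilinearMap.mkPiAlgebra ℚ (Fin 2) L).compLinearMap (fun k => if k = 0 then
      ∑ c : Fin 2, (LinearMap.mulLeft ℚ (T a c)).comp ((LinearMap.proj (R := ℚ)
        (φ := fun _ : Fin 2 => L) c).comp (LinearMap.proj (R := ℚ)
          (φ := fun _ : Fin 2 => Fin 2 → L) 0)) else
      ∑ c : Fin 2, (LinearMap.mulLeft ℚ (S a c)).comp ((cc L).toLinearMap.comp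
        ((LinearMap.proj (R := ℚ) (φ := fun _ : Fin 2 => L) c).comp (LinearMap.proj (R := ℚ)
          (φ := fun _ : Fin 2 => Fin 2 → L) 1)))))

lemma trf_apply (T S : Matrix (Fin 2) (Fin 2) L) (v : Fin 2 → Fin 2 → Fin 2 → L) :
    trf T S v = Algebra.trace ℚ L (∑ a, (∑ c, T a c * v 0 0 c) * ∑ c, S a c * cc L (v 1 1 c)) := by
  simp [trf, Fin.prod_univ_two]

lemma trf_sum (T S : Matrix (Fin 2) (Fin 2) L) (v : Fin 2 → Fin 2 → Fin 2 → L) :
    ((trf T S v : ℚ) : ℂ) = ∑ χ : L →+* ℂ, ∑ a, (T.map χ *ᵥ fun c => χ (v 0 0 c)) a *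
      (S.map χ *ᵥ fun c => (ComplexEmbedding.conjugate χ) (v 1 1 c)) a := by
  rw [trf_apply]
  have h1 := trace_eq_sum_embeddings (K := ℚ) (L := L) ℂ
    (x := ∑ a, (∑ c, T a c * v 0 0 c) * ∑ c, S a c * cc L (v 1 1 c))
  rw [eq_ratCast] at h1
  rw [h1]
  refine (Fintype.sum_equiv (RingHom.equivRatAlgHom L ℂ) _ _ fun ψ => ?_).symm
  change _ = ψ _
  simp only [map_sum, map_mul, Matrix.mulVec, dotProduct, Matrix.map_apply, emb_cc,
    ComplexEmbedding.conjugate_coe_eq]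

/-- the complex extension of the trace form -/
def trF (T S : Matrix (Fin 2) (Fin 2) L) :
    MultilinearMap ℂ (fun _ : Fin 2 => Fin 2 → (L →+* ℂ) → Fin 2 → ℂ) ℂ :=
  ∑ χ : L →+* ℂ, ∑ a : Fin 2,
    (MultilinearMap.mkPiAlgebra ℂ (Fin 2) ℂ).compLinearMap (fun k => if k = 0 then
      (LinearMap.proj (R := ℂ) (φ := fun _ : Fin 2 => ℂ) a).comp ((T.map χ).mulVecLin.comp
        ((LinearMap.proj (R := ℂ) (φ := fun _ : L →+* ℂ => Fin 2 → ℂ) χ).comp
          (LinearMap.proj (R := ℂ) (φ := fun _ : Fin 2 => (L →+* ℂ) → Fin 2 → ℂ) 0))) else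
      (LinearMap.proj (R := ℂ) (φ := fun _ : Fin 2 => ℂ) a).comp ((S.map χ).mulVecLin.comp
        ((LinearMap.proj (R := ℂ) (φ := fun _ : L →+* ℂ => Fin 2 → ℂ)
          (ComplexEmbedding.conjugate χ)).comp
            (LinearMap.proj (R := ℂ) (φ := fun _ : Fin 2 => (L →+* ℂ) → Fin 2 → ℂ) 1))))

lemma trF_apply (T S : Matrix (Fin 2) (Fin 2) L) (z : Fin 2 → Fin 2 → (L →+* ℂ) → Fin 2 → ℂ) :
    trF T S z = ∑ χ : L →+* ℂ, ∑ a, (T.map χ *ᵥ z 0 0 χ) a *
      (S.map χ *ᵥ z 1 1 (ComplexEmbedding.conjugate χ)) a := by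
  simp [trF, Fin.prod_univ_two]

/-- compatible maps give de Rham-Betti classes -/
theorem drb_trf {A B : HS L} (hB : P.IsAV B) {S : Matrix (Fin 2) (Fin 2) L} (hS : IsPol L B.D S)
    {T : Matrix (Fin 2) (Fin 2) L}
    (hT : ∀ χ : L →+* ℂ, ∃ M, AlgM M ∧ P.per B χ * T.map χ = M * P.per A χ) :
    IsDRB P ![A, B] 1 (trf T S) := by
  choose M hM hMT using hT
  choose N hN hNS using P.pol B hB S hS
  have hrep : Rep P ![A, B] (fun v : Fin 2 → Fin 2 → Fin 2 → L => ∑ χ : L →+* ℂ, ∑ a : Fin 2,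
      ∑ c : Fin 2, ((M χ)ᵀ * N χ) a c * ∏ k, (P.per (![A, B] ((![(0, χ, a),
        (1, ComplexEmbedding.conjugate χ, c)] : Fin 2 → Fin 2 × (L →+* ℂ) × Fin 2) k).1)
        ((![(0, χ, a), (1, ComplexEmbedding.conjugate χ, c)] :
          Fin 2 → Fin 2 × (L →+* ℂ) × Fin 2) k).2.1 *ᵥ
        fun b => ((![(0, χ, a), (1, ComplexEmbedding.conjugate χ, c)] :
          Fin 2 → Fin 2 × (L →+* ℂ) × Fin 2) k).2.1 (v k ((![(0, χ, a),
            (1, ComplexEmbedding.conjugate χ, c)] : Fin 2 → Fin 2 × (L →+* ℂ) × Fin 2) k).1 b))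
              ((![(0, χ, a), (1, ComplexEmbedding.conjugate χ, c)] :
                Fin 2 → Fin 2 × (L →+* ℂ) × Fin 2) k).2.2) := by
    refine Rep.sum _ fun χ _ => Rep.sum _ fun a _ => Rep.sum _ fun c _ => Rep.smul ?_ (Rep.basic _)
    rw [Matrix.mul_apply, Fin.sum_univ_two]
    exact ((hM χ _ _).mul (hN χ _ _)).add ((hM χ _ _).mul (hN χ _ _))
  obtain ⟨c, hc, h⟩ := hrep
  refine ⟨c, hc, fun v => ?_⟩
  rw [← h v, trf_sum, Finset.mul_sum]
  refine Finset.sum_congr rfl fun χ _ => ?_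
  -- the identity at one embedding
  set x : Fin 2 → ℂ := fun c => χ (v 0 0 c) with hx
  set y : Fin 2 → ℂ := fun c => (ComplexEmbedding.conjugate χ) (v 1 1 c) with hy
  have h1 : ∑ a, (T.map χ *ᵥ x) a * (S.map χ *ᵥ y) a = (T.map χ *ᵥ x) ⬝ᵥ (S.map χ *ᵥ y) := rfl
  have h2 : (2 * Real.pi * Complex.I) ^ (1 : ℤ) * ((T.map χ *ᵥ x) ⬝ᵥ (S.map χ *ᵥ y)) =
      (P.per A χ *ᵥ x) ⬝ᵥ (((M χ)ᵀ * N χ) *ᵥ (P.per B (ComplexEmbedding.conjugate χ) *ᵥ y)) := by
    have e1 : (2 * Real.pi * Complex.I) ^ (1 : ℤ) * ((T.map χ *ᵥ x) ⬝ᵥ (S.map χ *ᵥ y)) =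
        (T.map χ *ᵥ x) ⬝ᵥ (((2 * Real.pi * Complex.I) • S.map χ) *ᵥ y) := by
      rw [zpow_one, Matrix.smul_mulVec, dotProduct_smul, smul_eq_mul]
    rw [e1, ← hNS χ, ← Matrix.mulVec_mulVec, ← Matrix.mulVec_mulVec, ← Matrix.mulVec_mulVec,
      Matrix.dotProduct_mulVec, Matrix.vecMul_transpose, Matrix.mulVec_mulVec, hMT,
      ← Matrix.mulVec_mulVec, Matrix.dotProduct_mulVec _ (M χ)ᵀ, Matrix.vecMul_transpose]
  have h3 : ∀ (K : M2 ℂ) (p q : Fin 2 → ℂ), p ⬝ᵥ (K *ᵥ q) = ∑ a, ∑ c, K a c * (p a * q c) := by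
    intro K p q
    simp only [dotProduct, Matrix.mulVec, Finset.mul_sum]
    exact Finset.sum_congr rfl fun a _ => Finset.sum_congr rfl fun c _ => by ring
  rw [h1, h2, h3]
  refine Finset.sum_congr rfl fun a _ => ?_
  refine Finset.sum_congr rfl fun c _ => ?_
  rw [Fin.prod_univ_two]
  rfl

lemma trf_trF (T S : Matrix (Fin 2) (Fin 2) L) (v : Fin 2 → Fin 2 → Fin 2 → L) :
    trF T S (fun k i φ a => φ (v k i a)) = ((trf T S v : ℚ) : ℂ) := by
  rw [trF_apply, trf_sum]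

/-- Hodge classes give homomorphisms -/
theorem hom_of_hodge {A B : HS L} {S : Matrix (Fin 2) (Fin 2) L} (hS : IsPol L B.D S)
    (hSd : ∀ χ : L →+* ℂ, (S.map χ).det ≠ 0) {T : Matrix (Fin 2) (Fin 2) L}
    (h : IsHodge ![A, B] 1 (trf T S)) : IsHom A B T := by
  obtain ⟨F, hF, hz⟩ := h
  have hF' : F = trF T S := ext_emb fun v => by rw [hF, trf_trF]
  subst hF'
  intro χ
  set χ' := ComplexEmbedding.conjugate χ with hχ'
  -- vanishing
  have hvan : ∀ (ε : ℤ) (x y : Fin 2 → ℂ), (ε = 1 ∨ ε = -1) → A.D χ *ᵥ x = (ε : ℂ) • x →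
      B.D χ' *ᵥ y = (ε : ℂ) • y → (T.map χ *ᵥ x) ⬝ᵥ (S.map χ *ᵥ y) = 0 := by
    classical
    intro ε x y hε hx hy
    by_contra hne
    let z : Fin 2 → Fin 2 → (L →+* ℂ) → Fin 2 → ℂ := fun k i ψ =>
      if k = 0 ∧ i = 0 ∧ ψ = χ then x else if k = 1 ∧ i = 1 ∧ ψ = χ' then y else 0
    have h1 := hz (fun _ => ε) z (fun _ => hε) (by
      intro k i ψ
      by_cases c1 : k = 0 ∧ i = 0 ∧ ψ = χ
      · obtain ⟨rfl, rfl, rfl⟩ := c1
        simp only [z, and_self, if_true]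
        exact hx
      · by_cases c2 : k = 1 ∧ i = 1 ∧ ψ = χ'
        · obtain ⟨rfl, rfl, rfl⟩ := c2
          simp only [z, if_neg c1, and_self, if_true]
          exact hy
        · simp only [z, if_neg c1, if_neg c2, Matrix.mulVec_zero, smul_zero]) (by
      rw [trF_apply, Finset.sum_eq_single χ]
      · have e0 : z 0 0 χ = x := by simp [z]
        have e1 : z 1 1 (ComplexEmbedding.conjugate χ) = y := by simp [z, hχ']
        rw [e0, e1]
        exact hne
      · intro ψ _ hψ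
        have e0 : z 0 0 ψ = 0 := by simp [z, hψ]
        rw [e0]
        simp
      · intro h
        exact absurd (Finset.mem_univ _) h)
    rcases hε with rfl | rfl
    · simp at h1
    · simp at h1
  -- linear algebra
  have hA2 := A.sq χ
  have hB2 := B.sq χ'
  have key : ∀ x y : Fin 2 → ℂ, (T.map χ *ᵥ (A.D χ *ᵥ x)) ⬝ᵥ (S.map χ *ᵥ y) +
      (T.map χ *ᵥ x) ⬝ᵥ (S.map χ *ᵥ (B.D χ' *ᵥ y)) = 0 := by
    intro x y
    have p := hvan 1 (x + A.D χ *ᵥ x) (y + B.D χ' *ᵥ y) (Or.inl rfl) (by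
      rw [Matrix.mulVec_add, Matrix.mulVec_mulVec, hA2, Matrix.one_mulVec, Int.cast_one, one_smul,
        add_comm]) (by
      rw [Matrix.mulVec_add, Matrix.mulVec_mulVec, hB2, Matrix.one_mulVec, Int.cast_one, one_smul,
        add_comm])
    have q := hvan (-1) (x - A.D χ *ᵥ x) (y - B.D χ' *ᵥ y) (Or.inr rfl) (by
      rw [Matrix.mulVec_sub, Matrix.mulVec_mulVec, hA2, Matrix.one_mulVec, Int.cast_neg,
        Int.cast_one, neg_smul, one_smul, neg_sub]) (by
      rw [Matrix.mulVec_sub, Matrix.mulVec_mulVec, hB2, Matrix.one_mulVec, Int.cast_neg,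
        Int.cast_one, neg_smul, one_smul, neg_sub])
    simp only [Matrix.mulVec_add, Matrix.mulVec_sub, dotProduct_add, add_dotProduct, dotProduct_sub,
      sub_dotProduct] at p q
    linear_combination (1 / 2) * p - (1 / 2) * q
  have hpol := hS.2.1 χ
  have h2 : ∀ x y : Fin 2 → ℂ, ((T.map χ * A.D χ - B.D χ * T.map χ) *ᵥ x) ⬝ᵥ
      (S.map χ *ᵥ y) = 0 := by
    intro x y
    have h3 : (B.D χ *ᵥ (T.map χ *ᵥ x)) ⬝ᵥ (S.map χ *ᵥ y) =
        - ((T.map χ *ᵥ x) ⬝ᵥ (S.map χ *ᵥ (B.D χ' *ᵥ y))) := by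
      rw [← Matrix.vecMul_transpose, ← Matrix.dotProduct_mulVec, Matrix.mulVec_mulVec, hpol,
        Matrix.neg_mulVec, dotProduct_neg, ← Matrix.mulVec_mulVec]
    rw [Matrix.sub_mulVec, sub_dotProduct, ← Matrix.mulVec_mulVec, ← Matrix.mulVec_mulVec, h3,
      sub_neg_eq_add]
    exact key x y
  have hu : IsUnit (S.map χ).det := isUnit_iff_ne_zero.2 (hSd χ)
  have h3 : T.map χ * A.D χ - B.D χ * T.map χ = 0 := by
    apply Matrix.ext_of_mulVec_single
    intro i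
    rw [Matrix.zero_mulVec]
    funext j
    have h4 := h2 (Pi.single i 1) ((S.map χ)⁻¹ *ᵥ Pi.single j 1)
    rw [Matrix.mulVec_mulVec, Matrix.mul_nonsing_inv _ hu, Matrix.one_mulVec] at h4
    simpa using h4
  exact (sub_eq_zero.1 h3).symm

end

end Pool.Agent.W519.Q
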