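import Pool.Agent.W519.Q.Cls
import Pool.Agent.W519.Q.MainL

/-!
# The types of the determinants
-/

set_option autoImplicit false
set_option linter.unusedSectionVars false

namespace Pool.Agent.W519.Q

open NumberField Pool.Agent.H204R3.CM Pool.Agent.W547.KB Pool.Agent.W537.PC Matrix
open Pool.Agent.W519.G (cl cl_mul cl_div cl_eq_zero cl_pow cl_zpow cl_prod tp eq_of_smul
  eq_zero_of_smul smul_tp_eq_zero rel_int ind Quo Periods.c cj)

noncomputable section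

lemma one_ne_neg : (1 : M2 ℂ) ≠ -1 := by
  intro h
  have := congrFun (congrFun h 0) 0
  norm_num at this

lemma involution {D : M2 ℂ} (h : D * D = 1) : D = 1 ∨ D = -1 ∨ D.trace = 0 := by
  by_cases ht : D.trace = 0
  · exact Or.inr (Or.inr ht)
  have e00 := congrFun (congrFun h 0) 0
  have e01 := congrFun (congrFun h 0) 1
  have e10 := congrFun (congrFun h 1) 0
  have e11 := congrFun (congrFun h 1) 1
  simp [Matrix.mul_apply, Fin.sum_univ_two] at e00 e01 e10 e11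
  rw [Matrix.trace_fin_two] at ht
  have a1 : D 0 1 = 0 := by
    have : D 0 1 * (D 0 0 + D 1 1) = 0 := by linear_combination e01
    exact (mul_eq_zero.1 this).resolve_right ht
  have a2 : D 1 0 = 0 := by
    have : D 1 0 * (D 0 0 + D 1 1) = 0 := by linear_combination e10
    exact (mul_eq_zero.1 this).resolve_right ht
  have a3 : D 0 0 = D 1 1 := by
    have : (D 0 0 - D 1 1) * (D 0 0 + D 1 1) = 0 := by linear_combination e00 - e11
    exact sub_eq_zero.1 ((mul_eq_zero.1 this).resolve_right ht)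
  rw [a1, zero_mul, add_zero] at e00
  have : (D 0 0 - 1) * (D 0 0 + 1) = 0 := by linear_combination e00
  rcases mul_eq_zero.1 this with h1 | h1
  · left
    have h2 : D 0 0 = 1 := by linear_combination h1
    ext i j
    fin_cases i <;> fin_cases j <;> simp [a1, a2, ← a3, h2]
  · right; left
    have h2 : D 0 0 = -1 := by linear_combination h1
    ext i j
    fin_cases i <;> fin_cases j <;> simp [a1, a2, ← a3, h2]

variable {L : Type} [Field L] [NumberField L] [IsCMField L]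

/-- the dimension of the part of type `(-1, 0)` -/
def rk (A : HS L) (χ : L →+* ℂ) : ℤ := by
  classical
  exact if A.D χ = 1 then 2 else if A.D χ = -1 then 0 else 1

lemma rk_one {A : HS L} {χ : L →+* ℂ} (h : A.D χ = 1) : rk A χ = 2 := by
  rw [rk, if_pos h]

lemma rk_neg {A : HS L} {χ : L →+* ℂ} (h : A.D χ = -1) : rk A χ = 0 := by
  rw [rk, if_neg (by rw [h]; exact fun h => one_ne_neg h.symm), if_pos h]

lemma rk_mid {A : HS L} {χ : L →+* ℂ} (h1 : A.D χ ≠ 1) (h2 : A.D χ ≠ -1) : rk A χ = 1 := by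
  rw [rk, if_neg h1, if_neg h2]

lemma rk_cases (A : HS L) (χ : L →+* ℂ) :
    (A.D χ = 1 ∧ rk A χ = 2) ∨ (A.D χ = -1 ∧ rk A χ = 0) ∨
      (A.D χ ≠ 1 ∧ A.D χ ≠ -1 ∧ rk A χ = 1) := by
  by_cases h1 : A.D χ = 1
  · exact Or.inl ⟨h1, rk_one h1⟩
  · by_cases h2 : A.D χ = -1
    · exact Or.inr (Or.inl ⟨h2, rk_neg h2⟩)
    · exact Or.inr (Or.inr ⟨h1, h2, rk_mid h1 h2⟩)

lemma rk_trace (A : HS L) (χ : L →+* ℂ) : (A.D χ).trace = 2 * ((rk A χ : ℂ) - 1) := by
  rcases rk_cases A χ with ⟨h1, h2⟩ | ⟨h1, h2⟩ | ⟨h1, h2, h3⟩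
  · rw [h1, h2, Matrix.trace_one]
    simp
    norm_num
  · rw [h1, h2, Matrix.trace_neg, Matrix.trace_one]
    simp
  · rw [h3]
    rcases involution (A.sq χ) with h | h | h
    · exact absurd h h1
    · exact absurd h h2
    · rw [h]
      simp

lemma rk_conj (A : HS L) (χ : L →+* ℂ) : rk A (ComplexEmbedding.conjugate χ) = 2 - rk A χ := by
  have h := A.conj χ
  have e1 : ∀ M : M2 ℂ, M.map (starRingEnd ℂ) = 1 ↔ M = 1 := by
    intro M
    constructor
    · intro h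
      ext i j
      have := congrArg (starRingEnd ℂ) (congrFun (congrFun h i) j)
      fin_cases i <;> fin_cases j <;> simpa using this
    · rintro rfl
      ext i j
      fin_cases i <;> fin_cases j <;> simp
  have e2 : ∀ M : M2 ℂ, M.map (starRingEnd ℂ) = -1 ↔ M = -1 := by
    intro M
    constructor
    · intro h
      ext i j
      have := congrArg (starRingEnd ℂ) (congrFun (congrFun h i) j)
      fin_cases i <;> fin_cases j <;> simpa using this
    · rintro rfl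
      ext i j
      fin_cases i <;> fin_cases j <;> simp
  rcases rk_cases A χ with ⟨h1, h2⟩ | ⟨h1, h2⟩ | ⟨h1, h2, h3⟩
  · rw [h2, rk_neg (by rw [h, (e1 _).2 h1])]
    norm_num
  · rw [h2, rk_one (by rw [h, (e2 _).2 h1, neg_neg])]
    norm_num
  · rw [h3, rk_mid]
    · norm_num
    · rw [h]
      intro h4
      exact h2 ((e2 _).1 (neg_eq_iff_eq_neg.1 h4))
    · rw [h]
      intro h4
      exact h1 ((e1 _).1 (neg_injective h4))

/-- the first type of the determinant -/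
def Ph1 (A : HS L) : Set (L →+* ℂ) := {χ | rk A χ = 2 ∨ (rk A χ = 1 ∧ χ ∈ cm0 L)}

/-- the second type of the determinant -/
def Ph2 (A : HS L) : Set (L →+* ℂ) := {χ | rk A χ = 2 ∨ (rk A χ = 1 ∧ χ ∉ cm0 L)}

lemma ph1 (A : HS L) : IsCMType (Ph1 A) := by
  intro χ
  change (rk A χ = 2 ∨ (rk A χ = 1 ∧ χ ∈ cm0 L)) ↔
    ¬ (rk A (ComplexEmbedding.conjugate χ) = 2 ∨ (rk A (ComplexEmbedding.conjugate χ) = 1 ∧
      ComplexEmbedding.conjugate χ ∈ cm0 L))
  rw [rk_conj, cm0_isCMType χ]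
  rcases rk_cases A χ with ⟨-, h2⟩ | ⟨-, h2⟩ | ⟨-, -, h2⟩ <;> rw [h2] <;> norm_num

lemma ph2 (A : HS L) : IsCMType (Ph2 A) := by
  intro χ
  change (rk A χ = 2 ∨ (rk A χ = 1 ∧ χ ∉ cm0 L)) ↔
    ¬ (rk A (ComplexEmbedding.conjugate χ) = 2 ∨ (rk A (ComplexEmbedding.conjugate χ) = 1 ∧
      ComplexEmbedding.conjugate χ ∉ cm0 L))
  rw [rk_conj, cm0_isCMType χ]
  rcases rk_cases A χ with ⟨-, h2⟩ | ⟨-, h2⟩ | ⟨-, -, h2⟩ <;> rw [h2] <;> norm_num

lemma mem_ph1 (A : HS L) (χ : L →+* ℂ) :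
    χ ∈ Ph1 A ↔ (rk A χ = 2 ∨ (rk A χ = 1 ∧ χ ∈ cm0 L)) := Iff.rfl

lemma mem_ph2 (A : HS L) (χ : L →+* ℂ) :
    χ ∈ Ph2 A ↔ (rk A χ = 2 ∨ (rk A χ = 1 ∧ χ ∉ cm0 L)) := Iff.rfl

/-- the first pair -/
def B1 (A : HS L) : CMPair := ⟨L, Ph1 A, ph1 A⟩

/-- the second pair -/
def B2 (A : HS L) : CMPair := ⟨L, Ph2 A, ph2 A⟩

lemma ind_mk (Φ : Set (L →+* ℂ)) (hΦ : IsCMType Φ) (τ : ℂ ≃+* ℂ) (χ : L →+* ℂ) :
    (act τ χ ∈ Φ → ind ⟨L, Φ, hΦ⟩ τ χ = 1) ∧ (act τ χ ∉ Φ → ind ⟨L, Φ, hΦ⟩ τ χ = 0) := by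
  unfold ind
  constructor
  · intro h
    rw [if_pos]
    exact h
  · intro h
    rw [if_neg]
    exact h

lemma ind_sum (A : HS L) (τ : ℂ ≃+* ℂ) (χ : L →+* ℂ) :
    ind (B1 A) τ χ + ind (B2 A) τ χ = rk A (act τ χ) := by
  have h1 := ind_mk (Ph1 A) (ph1 A) τ χ
  have h2 := ind_mk (Ph2 A) (ph2 A) τ χ
  rw [mem_ph1] at h1
  rw [mem_ph2] at h2
  change ind ⟨L, Ph1 A, ph1 A⟩ τ χ + ind ⟨L, Ph2 A, ph2 A⟩ τ χ = _
  by_cases hc : act τ χ ∈ cm0 L
  · rcases rk_cases A (act τ χ) with ⟨-, h⟩ | ⟨-, h⟩ | ⟨-, -, h⟩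
    · rw [h1.1 (Or.inl h), h2.1 (Or.inl h), h]
      norm_num
    · rw [h1.2 (by rw [h]; norm_num), h2.2 (by rw [h]; norm_num), h]
      norm_num
    · rw [h1.1 (Or.inr ⟨h, hc⟩), h2.2 (by rw [h]; simp [hc]), h]
      norm_num
  · rcases rk_cases A (act τ χ) with ⟨-, h⟩ | ⟨-, h⟩ | ⟨-, -, h⟩
    · rw [h1.1 (Or.inl h), h2.1 (Or.inl h), h]
      norm_num
    · rw [h1.2 (by rw [h]; norm_num), h2.2 (by rw [h]; norm_num), h]
      norm_num
    · rw [h1.2 (by rw [h]; simp [hc]), h2.1 (Or.inr ⟨h, hc⟩), h]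
      norm_num

variable {P : PeriodSystem L}

/-- the class of the determinant -/
theorem cl_det {A : HS L} (hA : P.IsAV A) (χ : L →+* ℂ) :
    cl (P.per A χ).det = P.cm.c (B1 A) χ + P.cm.c (B2 A) χ := by
  have h := P.det_rel A hA (Ph1 A) (Ph2 A) (ph1 A) (ph2 A) (fun χ => by
    rw [mem_ph1, mem_ph2]
    rcases rk_cases A χ with ⟨h1, h2⟩ | ⟨h1, h2⟩ | ⟨h1, h3, h2⟩
    · rw [h2]
      refine ⟨fun _ _ => h1, fun h => absurd (Or.inl rfl) h, fun h => ?_⟩
      norm_num at h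
    · rw [h2]
      refine ⟨fun h => ?_, fun _ _ => h1, fun h => ?_⟩
      · norm_num at h
      · norm_num at h
    · refine ⟨fun h4 h5 => ?_, fun h4 h5 => ?_, fun _ => ?_⟩
      · rw [h2] at h4 h5
        norm_num at h4 h5
        exact absurd h4 h5
      · rw [h2] at h4 h5
        norm_num at h4 h5
        exact absurd h5 h4
      · rw [rk_trace, h2]
        norm_num) χ
  have hd : (P.per A χ).det ≠ 0 := P.det_ne A hA χ
  have h1 : P.cm.per (B1 A) χ ≠ 0 := P.cm.per_ne_zero _ _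
  have h2 : P.cm.per (B2 A) χ ≠ 0 := P.cm.per_ne_zero _ _
  change IsAlgebraic ℚ ((P.per A χ).det / (P.cm.per (B1 A) χ * P.cm.per (B2 A) χ)) at h
  rw [← cl_eq_zero (div_ne_zero hd (mul_ne_zero h1 h2)), cl_div hd (mul_ne_zero h1 h2),
    cl_mul h1 h2, sub_eq_zero] at h
  exact h

variable {I : Type} [Fintype I] {κ : Type} [Fintype κ] [DecidableEq κ]
variable {A : I → HS L} {Sp : I → Matrix (Fin 2) (Fin 2) L} {w : ℤ}
  {b : (κ → Sl I L × Fin 2) → ℂ}
variable [IsGalois ℚ L]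

/-- the weights of the monomials that occur -/
theorem sum_rk (hL : IsAbelian L) (det : DetL P.cm L)
    (hsub : Subdirect (sL A Sp w b) (fun s => ¬ (A s.1).IsSquare))
    (hb : ∀ J, IsAlgebraic ℚ (b J)) (hA : ∀ i, P.IsAV (A i))
    (hbg : ∀ (τ : ℂ ≃+* ℂ) (J : κ → Sl I L × Fin 2), b (fun k => actX τ (J k)) = τ (b J))
    (hld : ∀ D : Dv, HH A Sp w b (ld P A D) (D tau / tau))
    (J : κ → Sl I L × Fin 2) (hJ : b J ≠ 0) :
    ∑ k, rk (A (J k).1.1) (J k).1.2 = 2 * w ∧ (Fintype.card κ : ℤ) = 2 * w := by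
  have key : ∀ τ : ℂ ≃+* ℂ, ∑ k, rk (A (J k).1.1) (act τ (J k).1.2) = 2 * w := by
    intro τ
    have h1 := main_act P.cm det hL (ι := κ ⊕ κ)
      (Sum.elim (fun k => Ph1 (A (J k).1.1)) (fun k => Ph2 (A (J k).1.1)))
      (by
        rintro (k | k)
        · exact ph1 _
        · exact ph2 _)
      (Sum.elim (fun k => (J k).1.2) (fun k => (J k).1.2)) (fun _ => 1) (2 * w) (by
        intro σ
        rw [Fintype.sum_sum_type, ← Finset.sum_add_distrib]
        have hJ' : b (fun k => actX σ (J k)) ≠ 0 := by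
          rw [hbg]
          exact (map_ne_zero σ).2 hJ
        rw [← det_class hsub hb hA hld _ hJ']
        refine Finset.sum_congr rfl fun k _ => ?_
        rw [one_smul, one_smul]
        exact (cl_det (hA (J k).1.1) (act σ (J k).1.2)).symm) τ
    rw [Fintype.sum_sum_type, ← Finset.sum_add_distrib] at h1
    rw [← h1]
    refine Finset.sum_congr rfl fun k _ => ?_
    rw [← ind_sum, one_mul, one_mul]
    rfl
  have h1 := key (RingEquiv.refl ℂ)
  have h2 := key (starRingAut : ℂ ≃+* ℂ)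
  have e1 : ∀ χ : L →+* ℂ, act (RingEquiv.refl ℂ) χ = χ := fun χ => by ext; rfl
  have e2 : ∀ χ : L →+* ℂ, act (starRingAut : ℂ ≃+* ℂ) χ = ComplexEmbedding.conjugate χ :=
    fun χ => by ext; rfl
  simp only [e1] at h1
  simp only [e2, rk_conj, Finset.sum_sub_distrib, Finset.sum_const, Finset.card_univ] at h2
  refine ⟨h1, ?_⟩
  rw [h1] at h2
  simp only [nsmul_eq_mul] at h2
  linarith

end

end Pool.Agent.W519.Q
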